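import Mathlib
import Pool.Agent.Helper392.Mey.PL

set_option autoImplicit false
open MeasureTheory Set Module
open scoped ENNReal

namespace Pool.Agent.Helper392.Mey

/-- Euclidean space -/
abbrev E (n : ℕ) := EuclideanSpace ℝ (Fin n)

/-- `T` parametrises the hyperplane orthogonal to `u` -/
structure Par {k : ℕ} (u : E (k + 1)) (T : E k →ₗᵢ[ℝ] E (k + 1)) : Prop where
  norm_u : ‖u‖ = 1
  mem : ∀ x, inner ℝ x u = 0 ↔ x ∈ range T

theorem exists_par {k : ℕ} (u : E (k + 1)) (hu : ‖u‖ = 1) : ∃ T, Par u T := by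
  have hu0 : u ≠ 0 := by
    intro h; rw [h, norm_zero] at hu; exact zero_ne_one hu
  set S : Submodule ℝ (E (k + 1)) := (ℝ ∙ u)ᗮ with hS
  have hr : finrank ℝ S = k := by
    have h1 := Submodule.finrank_add_finrank_orthogonal (ℝ ∙ u)
    rw [finrank_span_singleton hu0, finrank_euclideanSpace_fin, ← hS] at h1
    omega
  let b := (stdOrthonormalBasis ℝ S).reindex (finCongr hr)
  refine ⟨S.subtypeₗᵢ.comp b.repr.symm.toLinearIsometry, hu, ?_⟩
  intro x
  constructor
  · intro hx
    have hxS : x ∈ S := by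
      rw [hS, Submodule.mem_orthogonal_singleton_iff_inner_left]
      exact hx
    refine ⟨b.repr ⟨x, hxS⟩, ?_⟩
    simp
  · rintro ⟨y, rfl⟩
    have : ((b.repr.symm y : S) : E (k + 1)) ∈ S := (b.repr.symm y).2
    exact Submodule.mem_orthogonal_singleton_iff_inner_left.1 this

theorem Par.inner_T {k : ℕ} {u : E (k + 1)} {T : E k →ₗᵢ[ℝ] E (k + 1)} (h : Par u T) (y : E k) :
    inner ℝ (T y) u = 0 := (h.mem _).2 ⟨y, rfl⟩

theorem Par.inner_T' {k : ℕ} {u : E (k + 1)} {T : E k →ₗᵢ[ℝ] E (k + 1)} (h : Par u T) (y : E k) :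
    inner ℝ u (T y) = 0 := by rw [real_inner_comm]; exact h.inner_T y

/-- the isometry `(y, t) ↦ T y + t u` -/
noncomputable def Par.iso {k : ℕ} {u : E (k + 1)} {T : E k →ₗᵢ[ℝ] E (k + 1)} (h : Par u T) :
    WithLp 2 (E k × ℝ) →ₗᵢ[ℝ] E (k + 1) where
  toFun p := T p.fst + p.snd • u
  map_add' p q := by
    simp only [WithLp.add_fst, WithLp.add_snd, map_add]
    module
  map_smul' c p := by
    simp only [WithLp.smul_fst, WithLp.smul_snd, map_smul, RingHom.id_apply, smul_eq_mul]
    module
  norm_map' p := by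
    have h1 : ‖T p.fst + p.snd • u‖ ^ 2 = ‖p‖ ^ 2 := by
      rw [WithLp.prod_norm_sq_eq_of_L2, ← real_inner_self_eq_norm_sq]
      simp only [inner_add_left, inner_add_right, real_inner_smul_left, real_inner_smul_right,
        h.inner_T, h.inner_T', real_inner_self_eq_norm_sq, h.norm_u]
      rw [LinearIsometry.norm_map, Real.norm_eq_abs, sq_abs, norm_smul, h.norm_u,
        Real.norm_eq_abs, mul_one, sq_abs]
      ring
    have h2 : ‖T p.fst + p.snd • u‖ = ‖p‖ := by
      rwa [sq_eq_sq₀ (norm_nonneg _) (norm_nonneg _)] at h1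
    exact h2

theorem Par.mp {k : ℕ} {u : E (k + 1)} {T : E k →ₗᵢ[ℝ] E (k + 1)} (h : Par u T) :
    MeasurePreserving (fun p : E k × ℝ => T p.1 + p.2 • u)
      ((volume : Measure (E k)).prod volume) volume := by
  have hf : finrank ℝ (WithLp 2 (E k × ℝ)) = finrank ℝ (E (k + 1)) := by
    rw [finrank_euclideanSpace_fin]
    have := (WithLp.linearEquiv 2 ℝ (E k × ℝ)).finrank_eq
    rw [this, finrank_prod, finrank_euclideanSpace_fin]
    simp
  have h1 := (h.iso.toLinearIsometryEquiv hf).measurePreserving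
  have h2 := WithLp.volume_preserving_toLp (E k) ℝ
  exact h1.comp h2

theorem Par.slice {k : ℕ} {u : E (k + 1)} {T : E k →ₗᵢ[ℝ] E (k + 1)} (h : Par u T)
    {S : Set (E (k + 1))} (hS : MeasurableSet S) :
    volume S = ∫⁻ t : ℝ, volume {y : E k | T y + t • u ∈ S} := by
  rw [← h.mp.measure_preimage hS.nullMeasurableSet,
    Measure.prod_apply_symm (h.mp.measurable hS)]
  rfl

theorem Par.fiber {k : ℕ} {u : E (k + 1)} {T : E k →ₗᵢ[ℝ] E (k + 1)} (h : Par u T)
    (v : E (k + 1)) (hv : inner ℝ v u ≠ 0)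
    {S : Set (E (k + 1))} (hS : MeasurableSet S) :
    volume S = ENNReal.ofReal |inner ℝ v u| * ∫⁻ y : E k, volume {t : ℝ | T y + t • v ∈ S} := by
  set α : ℝ := inner ℝ v u with hα
  obtain ⟨b, hb⟩ : v - α • u ∈ range T := by
    rw [← h.mem, inner_sub_left, real_inner_smul_left, real_inner_self_eq_norm_sq, h.norm_u]
    rw [← hα]; ring
  have hvb : v = T b + α • u := by rw [hb]; abel
  have hmeas : Measurable (fun p : E k × ℝ => T p.1 + p.2 • v) := by
    have : Continuous (fun p : E k × ℝ => T p.1 + p.2 • v) :=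
      (T.continuous.comp continuous_fst).add (continuous_snd.smul continuous_const)
    exact this.measurable
  have hind : Measurable (fun p : E k × ℝ => S.indicator (1 : E (k + 1) → ℝ≥0∞) (T p.1 + p.2 • v)) :=
    (measurable_one.indicator hS).comp hmeas
  have e1 : ∀ y : E k, volume {t : ℝ | T y + t • v ∈ S} =
      ∫⁻ t : ℝ, S.indicator (1 : E (k + 1) → ℝ≥0∞) (T y + t • v) := by
    intro y
    have hm : MeasurableSet {t : ℝ | T y + t • v ∈ S} := by
      have : Continuous (fun t : ℝ => T y + t • v) := by fun_prop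
      exact this.measurable hS
    rw [← lintegral_indicator_one hm]
    rfl
  simp_rw [e1]
  rw [lintegral_lintegral_swap hind.aemeasurable]
  have e2 : ∀ t : ℝ, ∫⁻ y : E k, S.indicator (1 : E (k + 1) → ℝ≥0∞) (T y + t • v) =
      volume {y : E k | T y + (α * t) • u ∈ S} := by
    intro t
    have hm : MeasurableSet {y : E k | T y + (α * t) • u ∈ S} := by
      have : Continuous (fun y : E k => T y + (α * t) • u) :=
        T.continuous.add continuous_const
      exact this.measurable hS
    rw [← lintegral_indicator_one hm]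
    rw [← lintegral_add_right_eq_self _ (-(t • b))]
    apply lintegral_congr
    intro y
    have : T (y + -(t • b)) + t • v = T y + (α * t) • u := by
      rw [hvb, map_add, map_neg, map_smul]; module
    rw [this]
    rfl
  simp_rw [e2]
  rw [h.slice hS]
  have hα0 : α ≠ 0 := hv
  have hg : Measurable (fun t : ℝ => volume {y : E k | T y + t • u ∈ S}) := by
    have := measurable_measure_prodMk_right (μ := (volume : Measure (E k)))
      (h.mp.measurable hS)
    exact this
  have hmap := Real.map_volume_mul_left hα0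
  have : ∫⁻ t : ℝ, volume {y : E k | T y + (α * t) • u ∈ S} =
      ∫⁻ t, volume {y : E k | T y + t • u ∈ S} ∂(Measure.map (α * ·) volume) := by
    rw [lintegral_map hg (measurable_const_mul α)]
  rw [this, hmap, lintegral_smul_measure, smul_eq_mul, ← mul_assoc,
    ← ENNReal.ofReal_mul (abs_nonneg _), abs_inv, mul_inv_cancel₀ (abs_ne_zero.2 hα0),
    ENNReal.ofReal_one, one_mul]

end Pool.Agent.Helper392.Mey
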