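import Pool.Agent.Helper392.Mey.Good

set_option autoImplicit false
open MeasureTheory Set Module Filter Topology
open scoped ENNReal Pointwise

namespace Pool.Agent.Helper392.Mey

variable {m n : ℕ}

/-- splitting coordinates -/
noncomputable def spl (m n : ℕ) : E (m + n) ≃ₗᵢ[ℝ] WithLp 2 (E m × E n) :=
  (LinearIsometryEquiv.piLpCongrLeft 2 ℝ ℝ finSumFinEquiv.symm).trans
    (PiLp.sumPiLpEquivProdLpPiLp 2 _)

/-- splitting, as a map into the product -/
noncomputable def spm (m n : ℕ) (x : E (m + n)) : E m × E n := ((spl m n x).fst, (spl m n x).snd)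

theorem spm_mp : MeasurePreserving (spm m n) volume ((volume : Measure (E m)).prod volume) := by
  have h1 := (spl m n).measurePreserving
  have h2 := WithLp.volume_preserving_ofLp (E m) (E n)
  exact h2.comp h1

theorem spm_cont : Continuous (spm m n) := by
  have h1 : Continuous (spl m n) := (spl m n).continuous
  have h2 : Continuous (fun p : WithLp 2 (E m × E n) => (p.fst, p.snd)) := by fun_prop
  exact h2.comp h1

theorem spm_add (x y : E (m + n)) : spm m n (x + y) = spm m n x + spm m n y := by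
  unfold spm; rw [map_add]; rfl

theorem spm_sub (x y : E (m + n)) : spm m n (x - y) = spm m n x - spm m n y := by
  unfold spm; rw [map_sub]; rfl

theorem spm_neg (x : E (m + n)) : spm m n (-x) = - spm m n x := by
  unfold spm; rw [map_neg]; rfl

theorem spm_smul (c : ℝ) (x : E (m + n)) : spm m n (c • x) = c • spm m n x := by
  unfold spm; rw [map_smul]; rfl

theorem spm_norm (x : E (m + n)) : ‖(spm m n x).1‖ ^ 2 + ‖(spm m n x).2‖ ^ 2 = ‖x‖ ^ 2 := by
  rw [← (spl m n).norm_map x, WithLp.prod_norm_sq_eq_of_L2]; rfl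

theorem spm_inner (x y : E (m + n)) : inner ℝ x y =
    inner ℝ (spm m n x).1 (spm m n y).1 + inner ℝ (spm m n x).2 (spm m n y).2 := by
  rw [← (spl m n).inner_map_map x y, WithLp.prod_inner_apply]; rfl

theorem Good.dens' {K : Set (E n)} {L η : ℝ} (hL : 0 < L) (h : Good K L η) (w : E n)
    (hw : 1 ≤ Real.sqrt 2 * ‖w‖) (c b : ℝ) (hb : 0 ≤ b) :
    volume (K ∩ {x | |inner ℝ x w - c| ≤ b}) ≤
      ENNReal.ofReal (2 * b * (Real.sqrt 2 * L)) * volume K := by
  have hw0 : 0 < ‖w‖ := by
    by_contra h0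
    have : ‖w‖ = 0 := le_antisymm (not_lt.1 h0) (norm_nonneg _)
    rw [this, mul_zero] at hw
    linarith
  have h1 := h.dens (‖w‖⁻¹ • w) (by rw [norm_smul, norm_inv, norm_norm, inv_mul_cancel₀ hw0.ne'])
    (c / ‖w‖) (b / ‖w‖) (by positivity)
  have h2 : {x : E n | |inner ℝ x (‖w‖⁻¹ • w) - c / ‖w‖| ≤ b / ‖w‖} =
      {x | |inner ℝ x w - c| ≤ b} := by
    ext x
    simp only [mem_ofPred_eq]
    rw [real_inner_smul_right]
    have : ‖w‖⁻¹ * inner ℝ x w - c / ‖w‖ = (inner ℝ x w - c) / ‖w‖ := by field_simp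
    rw [this, abs_div, abs_of_pos hw0, div_le_div_iff_of_pos_right hw0]
  rw [h2] at h1
  refine h1.trans (mul_le_mul' (ENNReal.ofReal_le_ofReal ?_) le_rfl)
  have h3 : b / ‖w‖ ≤ b * Real.sqrt 2 := by
    rw [div_le_iff₀ hw0, mul_assoc]
    exact le_mul_of_one_le_right hb hw
  nlinarith [mul_le_mul_of_nonneg_right h3 hL.le]

theorem half_aux {a b c : ℝ} (ha : 0 ≤ a) (hb : 0 ≤ b) (_hc : 0 ≤ c) (h : a ^ 2 + b ^ 2 = c ^ 2) :
    c ≤ Real.sqrt 2 * a ∨ c ≤ Real.sqrt 2 * b := by
  by_contra hcon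
  push Not at hcon
  obtain ⟨h1, h2⟩ := hcon
  have s : Real.sqrt 2 ^ 2 = 2 := Real.sq_sqrt (by norm_num)
  have h3 : (Real.sqrt 2 * a) ^ 2 < c ^ 2 := by
    apply pow_lt_pow_left₀ h1 (by positivity) two_ne_zero
  have h4 : (Real.sqrt 2 * b) ^ 2 < c ^ 2 := by
    apply pow_lt_pow_left₀ h2 (by positivity) two_ne_zero
  rw [mul_pow, s] at h3 h4
  nlinarith

theorem Good.prod {K₁ : Set (E m)} {K₂ : Set (E n)} {L η : ℝ} (hL : 0 < L) (hη : 0 ≤ η)
    (h₁ : Good K₁ L η) (h₂ : Good K₂ L η) :
    Good (spm m n ⁻¹' (K₁ ×ˢ K₂)) (Real.sqrt 2 * L) (Real.sqrt 2 * η) := by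
  have hm₁ := h₁.body.meas
  have hm₂ := h₂.body.meas
  have hvol : volume (spm m n ⁻¹' (K₁ ×ˢ K₂)) = volume K₁ * volume K₂ := by
    rw [spm_mp.measure_preimage (hm₁.prod hm₂).nullMeasurableSet, Measure.prod_prod]
  refine ⟨⟨?_, ?_, ?_, ?_⟩, ?_, ?_⟩
  · intro x hx y hy p q hp hq hpq
    have := (h₁.body.1.prod h₂.body.1) hx hy hp hq hpq
    change spm m n (p • x + q • y) ∈ K₁ ×ˢ K₂
    rw [spm_add, spm_smul, spm_smul]
    exact this
  · have hc : IsCompact (K₁ ×ˢ K₂) := h₁.body.2.1.prod h₂.body.2.1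
    have hcl : IsClosed (spm m n ⁻¹' (K₁ ×ˢ K₂)) := hc.isClosed.preimage spm_cont
    obtain ⟨R₁, hR₁⟩ := h₁.body.2.1.isBounded.exists_norm_le
    obtain ⟨R₂, hR₂⟩ := h₂.body.2.1.isBounded.exists_norm_le
    have hbd : Bornology.IsBounded (spm m n ⁻¹' (K₁ ×ˢ K₂)) := by
      rw [isBounded_iff_forall_norm_le]
      refine ⟨R₁ ^ 2 + R₂ ^ 2 + 1, ?_⟩
      rintro x ⟨hx1, hx2⟩
      have e := spm_norm x
      have b1 := hR₁ _ hx1
      have b2 := hR₂ _ hx2
      have p1 := norm_nonneg (spm m n x).1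
      have p2 := norm_nonneg (spm m n x).2
      have p3 := norm_nonneg x
      nlinarith [pow_le_pow_left₀ p1 b1 2, pow_le_pow_left₀ p2 b2 2, sq_nonneg (‖x‖ - 1)]
    exact Metric.isCompact_of_isClosed_isBounded hcl hbd
  · have hsub : spm m n ⁻¹' (interior K₁ ×ˢ interior K₂) ⊆
        interior (spm m n ⁻¹' (K₁ ×ˢ K₂)) := by
      apply interior_maximal
      · exact preimage_mono (prod_mono interior_subset interior_subset)
      · exact (isOpen_interior.prod isOpen_interior).preimage spm_cont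
    refine ⟨0, hsub ?_⟩
    have : spm m n 0 = 0 := by
      have := spm_smul (m := m) (n := n) 0 0
      simpa using this
    change spm m n 0 ∈ (interior K₁ ×ˢ interior K₂ : Set (E m × E n))
    rw [this]
    exact ⟨h₁.body.zero_mem, h₂.body.zero_mem⟩
  · rintro x ⟨hx1, hx2⟩
    change spm m n (-x) ∈ K₁ ×ˢ K₂
    rw [spm_neg]
    exact ⟨h₁.body.2.2.2 _ hx1, h₂.body.2.2.2 _ hx2⟩
  · intro u hu c b hb
    have hsq := spm_norm u
    rw [hu] at hsq
    have hmS : MeasurableSet ((K₁ ×ˢ K₂) ∩ {p : E m × E n |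
        |inner ℝ p.1 (spm m n u).1 + inner ℝ p.2 (spm m n u).2 - c| ≤ b}) := by
      apply (hm₁.prod hm₂).inter
      have : Continuous fun p : E m × E n =>
        |inner ℝ p.1 (spm m n u).1 + inner ℝ p.2 (spm m n u).2 - c| := by fun_prop
      exact measurableSet_le this.measurable measurable_const
    have hpre : spm m n ⁻¹' (K₁ ×ˢ K₂) ∩ {x | |inner ℝ x u - c| ≤ b} =
        spm m n ⁻¹' ((K₁ ×ˢ K₂) ∩ {p : E m × E n |
          |inner ℝ p.1 (spm m n u).1 + inner ℝ p.2 (spm m n u).2 - c| ≤ b}) := by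
      ext x
      constructor
      · rintro ⟨h1, h2⟩
        refine ⟨h1, ?_⟩
        change |inner ℝ (spm m n x).1 (spm m n u).1 + inner ℝ (spm m n x).2 (spm m n u).2 - c| ≤ b
        rw [← spm_inner]; exact h2
      · rintro ⟨h1, h2⟩
        refine ⟨h1, ?_⟩
        change |inner ℝ (spm m n x).1 (spm m n u).1 + inner ℝ (spm m n x).2 (spm m n u).2 - c| ≤ b
          at h2
        rw [← spm_inner] at h2; exact h2
    rw [hpre, spm_mp.measure_preimage hmS.nullMeasurableSet, hvol]
    rcases half_aux (norm_nonneg _) (norm_nonneg _) zero_le_one hsq with h | h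
    · rw [Measure.prod_apply_symm hmS]
      calc ∫⁻ y : E n, volume ((fun x => (x, y)) ⁻¹' ((K₁ ×ˢ K₂) ∩ {p : E m × E n |
          |inner ℝ p.1 (spm m n u).1 + inner ℝ p.2 (spm m n u).2 - c| ≤ b}))
          ≤ ∫⁻ y : E n, K₂.indicator
            (fun _ => ENNReal.ofReal (2 * b * (Real.sqrt 2 * L)) * volume K₁) y := by
            apply lintegral_mono
            intro y
            by_cases hy : y ∈ K₂
            · rw [indicator_of_mem hy]
              refine le_trans (measure_mono ?_)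
                (h₁.dens' hL (spm m n u).1 h (c - inner ℝ y (spm m n u).2) b hb)
              rintro x ⟨hx1, hx2⟩
              refine ⟨hx1.1, ?_⟩
              change |inner ℝ x (spm m n u).1 + inner ℝ y (spm m n u).2 - c| ≤ b at hx2
              change |inner ℝ x (spm m n u).1 - (c - inner ℝ y (spm m n u).2)| ≤ b
              convert hx2 using 2
              ring
            · rw [indicator_of_notMem hy, nonpos_iff_eq_zero]
              convert measure_empty (μ := (volume : Measure (E m)))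
              rw [eq_empty_iff_forall_notMem]
              rintro x ⟨hx1, -⟩
              exact hy hx1.2
        _ = _ := by
            rw [lintegral_indicator_const hm₂, mul_assoc]
    · rw [Measure.prod_apply hmS]
      calc ∫⁻ x : E m, volume (Prod.mk x ⁻¹' ((K₁ ×ˢ K₂) ∩ {p : E m × E n |
          |inner ℝ p.1 (spm m n u).1 + inner ℝ p.2 (spm m n u).2 - c| ≤ b}))
          ≤ ∫⁻ x : E m, K₁.indicator
            (fun _ => ENNReal.ofReal (2 * b * (Real.sqrt 2 * L)) * volume K₂) x := by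
            apply lintegral_mono
            intro x
            by_cases hx : x ∈ K₁
            · rw [indicator_of_mem hx]
              refine le_trans (measure_mono ?_)
                (h₂.dens' hL (spm m n u).2 h (c - inner ℝ x (spm m n u).1) b hb)
              rintro y ⟨hy1, hy2⟩
              refine ⟨hy1.2, ?_⟩
              change |inner ℝ x (spm m n u).1 + inner ℝ y (spm m n u).2 - c| ≤ b at hy2
              change |inner ℝ y (spm m n u).2 - (c - inner ℝ x (spm m n u).1)| ≤ b
              convert hy2 using 2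
              ring
            · rw [indicator_of_notMem hx, nonpos_iff_eq_zero]
              convert measure_empty (μ := (volume : Measure (E n)))
              rw [eq_empty_iff_forall_notMem]
              rintro y ⟨hy1, -⟩
              exact hx hy1.1
        _ = _ := by
            rw [lintegral_indicator_const hm₁, mul_assoc, mul_comm (volume K₂)]
  · intro v hv
    have hsq := spm_norm v
    have hs1 : MeasurableSet (K₁ ∩ {x | x - (spm m n v).1 ∈ K₁}) := by
      have : Continuous fun x : E m => x - (spm m n v).1 := by fun_prop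
      exact hm₁.inter (this.measurable hm₁)
    have hs2 : MeasurableSet (K₂ ∩ {x | x - (spm m n v).2 ∈ K₂}) := by
      have : Continuous fun x : E n => x - (spm m n v).2 := by fun_prop
      exact hm₂.inter (this.measurable hm₂)
    have hpre : spm m n ⁻¹' (K₁ ×ˢ K₂) ∩ {x | x - v ∈ spm m n ⁻¹' (K₁ ×ˢ K₂)} =
        spm m n ⁻¹' ((K₁ ∩ {x | x - (spm m n v).1 ∈ K₁}) ×ˢ (K₂ ∩ {x | x - (spm m n v).2 ∈ K₂})) := by
      ext x
      constructor
      · rintro ⟨h1, h2⟩
        change spm m n (x - v) ∈ K₁ ×ˢ K₂ at h2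
        rw [spm_sub] at h2
        exact ⟨⟨h1.1, h2.1⟩, ⟨h1.2, h2.2⟩⟩
      · rintro ⟨⟨h1, h2⟩, ⟨h3, h4⟩⟩
        refine ⟨⟨h1, h3⟩, ?_⟩
        change spm m n (x - v) ∈ K₁ ×ˢ K₂
        rw [spm_sub]
        exact ⟨h2, h4⟩
    rw [hpre, spm_mp.measure_preimage (hs1.prod hs2).nullMeasurableSet, Measure.prod_prod, hvol]
    have s2 : (0 : ℝ) < Real.sqrt 2 := by positivity
    rcases half_aux (norm_nonneg _) (norm_nonneg _) (norm_nonneg v) hsq with h | h
    · have h5 : η ≤ ‖(spm m n v).1‖ := by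
        have := hv.trans h
        exact le_of_mul_le_mul_left this s2
      calc 2 * (volume (K₁ ∩ {x | x - (spm m n v).1 ∈ K₁}) * volume (K₂ ∩ {x | x - (spm m n v).2 ∈ K₂}))
          = (2 * volume (K₁ ∩ {x | x - (spm m n v).1 ∈ K₁})) *
            volume (K₂ ∩ {x | x - (spm m n v).2 ∈ K₂}) := by rw [mul_assoc]
        _ ≤ volume K₁ * volume K₂ := by
            gcongr
            · exact h₁.shift _ h5
            · exact inter_subset_left
    · have h5 : η ≤ ‖(spm m n v).2‖ := by
        have := hv.trans h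
        exact le_of_mul_le_mul_left this s2
      calc 2 * (volume (K₁ ∩ {x | x - (spm m n v).1 ∈ K₁}) * volume (K₂ ∩ {x | x - (spm m n v).2 ∈ K₂}))
          = volume (K₁ ∩ {x | x - (spm m n v).1 ∈ K₁}) *
            (2 * volume (K₂ ∩ {x | x - (spm m n v).2 ∈ K₂})) := by
            rw [← mul_assoc, ← mul_assoc, mul_comm (2 : ℝ≥0∞)]
        _ ≤ volume K₁ * volume K₂ := by
            gcongr
            · exact inter_subset_left
            · exact h₂.shift _ h5

end Pool.Agent.Helper392.Mey
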