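import Pool.Agent.Helper392.Mey.Drop
import Pool.Agent.Helper392.Mey.Prod

set_option autoImplicit false
open MeasureTheory Set Module Filter Topology
open scoped ENNReal Pointwise

namespace Pool.Agent.Helper392.Mey

open Classical in
/-- few indices have a large drop -/
theorem telescope (g : ℕ → ℝ) (C l : ℝ) (hC : 1 ≤ C) (hl : 0 < l) (h n : ℕ) (hhn : h ≤ n)
    (hpos : ∀ d, h ≤ d → d ≤ n → 0 < g d)
    (hstep : ∀ d, h ≤ d → d < n → g (d + 1) ≤ C * g d) :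
    l ^ ((Finset.Ioc h n).filter (fun d => l * g d < g (d - 1))).card * g n ≤
      C ^ (n - h) * g h := by
  induction n, hhn using Nat.le_induction with
  | base => simp
  | succ n hn ih =>
    have ih' := ih (fun d h1 h2 => hpos d h1 (by omega)) (fun d h1 h2 => hstep d h1 (by omega))
    have e1 : Finset.Ioc h (n + 1) = insert (n + 1) (Finset.Ioc h n) := by
      ext x; simp only [Finset.mem_Ioc, Finset.mem_insert]; omega
    have hnot : n + 1 ∉ Finset.Ioc h n := by simp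
    set b := ((Finset.Ioc h n).filter (fun d => l * g d < g (d - 1))).card with hb
    have hgn := hpos n hn (by omega)
    have hgn1 := hpos (n + 1) (by omega) le_rfl
    have hgh := hpos h le_rfl (by omega)
    have e2 : n + 1 - h = (n - h) + 1 := by omega
    rw [e1, Finset.filter_insert, e2, pow_succ]
    by_cases hbad : l * g (n + 1) < g (n + 1 - 1)
    · rw [if_pos hbad, Finset.card_insert_of_notMem (by
        intro h; exact hnot (Finset.mem_filter.1 h).1), ← hb, pow_succ]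
      have h1 : l ^ b * l * g (n + 1) ≤ l ^ b * g n := by
        rw [mul_assoc]
        have : 0 < l ^ b := by positivity
        have h2 : g (n + 1 - 1) = g n := rfl
        rw [h2] at hbad
        gcongr
      calc l ^ b * l * g (n + 1) ≤ l ^ b * g n := h1
        _ ≤ C ^ (n - h) * g h := ih'
        _ ≤ C ^ (n - h) * C * g h := by
            gcongr
            exact le_mul_of_one_le_right (by positivity) hC
    · rw [if_neg hbad, ← hb]
      have h1 := hstep n hn (by omega)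
      calc l ^ b * g (n + 1) ≤ l ^ b * (C * g n) := by gcongr
        _ = C * (l ^ b * g n) := by ring
        _ ≤ C * (C ^ (n - h) * g h) := by gcongr
        _ = _ := by ring

/-- two good indices with prescribed sum -/
theorem pigeon (m n : ℕ) (hn : n = (2 * m + 2) / 3) (hm : 13 ≤ m) (B : Finset ℕ)
    (hB : 8 * B.card ≤ n) :
    ∃ d, n / 2 < d ∧ d ≤ n ∧ n / 2 < m - d ∧ m - d ≤ n ∧ d ≤ m ∧ d ∉ B ∧ m - d ∉ B := by
  by_contra hcon
  push Not at hcon
  have h1 : Finset.Ioc (n / 2) (n - 2) ⊆ B ∪ B.image (fun x => m - x) := by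
    intro d hd
    rw [Finset.mem_Ioc] at hd
    rw [Finset.mem_union, Finset.mem_image]
    by_cases hdB : d ∈ B
    · exact Or.inl hdB
    · right
      refine ⟨m - d, hcon d hd.1 (by omega) (by omega) (by omega) (by omega) hdB, by omega⟩
  have h2 := Finset.card_le_card h1
  have h3 := Finset.card_union_le B (B.image (fun x => m - x))
  have h4 : (B.image (fun x => m - x)).card ≤ B.card := Finset.card_image_le
  rw [Nat.card_Ioc] at h2
  omega

/-- outside few dimensions there are good bodies -/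
theorem key_lemma {N₀ n : ℕ} {c δ C₃ C₅ l : ℝ} (hc : 0 < c) (hδ0 : 0 < δ)
    (hδ : (1 / 200 : ℝ) ^ N₀ = δ) (hC₅1 : 1 ≤ C₅)
    (hC₅ : 24 * ((c / 8 + 32 / (c * δ)) / c) ≤ C₅) (hC₃1 : 1 ≤ C₃) (hC₃ : 5 / c ≤ C₃)
    (hl0 : 0 < l) (hl : ∀ b n : ℕ, l ^ b ≤ (C₃ * C₅ / δ) ^ n → 8 * b ≤ n) (hn : 2 ≤ n)
    (A : Fin (N₀ * n) → (E n →L[ℝ] ℝ)) (hAdm : Adm (c * Real.sqrt n) A) :
    ∃ B : Finset ℕ, 8 * B.card ≤ n ∧ ∀ d, n / 2 < d → d ≤ n → d ∉ B →
      ∃ K : Set (E d), Good K (2 * l) (4 / (c * Real.sqrt n)) := by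
  have hn0 : (0 : ℝ) < n := by
    have : 0 < n := by omega
    exact_mod_cast this
  have hκ : 0 < c * Real.sqrt n := by positivity
  have hδn : 0 < δ ^ n := by positivity
  have hlow : ∀ d, d ≤ n → ENNReal.ofReal (δ ^ n) ≤ S (N₀ * n) (c * Real.sqrt n) d := by
    intro d hd
    obtain ⟨T⟩ := exists_isom hd
    have h1 := F_one_lower (hAdm.comp T)
    rw [← hδ, ← pow_mul]
    exact h1
  have hfin : ∀ d, 0 < d → S (N₀ * n) (c * Real.sqrt n) d ≠ ⊤ := fun d hd =>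
    ((S_le (N := N₀ * n) hd hκ).trans_lt ENNReal.ofReal_lt_top).ne
  have hne : ∀ d, d ≤ n → S (N₀ * n) (c * Real.sqrt n) d ≠ 0 := by
    intro d hd h
    have h1 := hlow d hd
    rw [h] at h1
    have : ENNReal.ofReal (δ ^ n) = 0 := le_antisymm h1 bot_le
    rw [ENNReal.ofReal_eq_zero] at this
    linarith
  obtain ⟨g, hg⟩ : ∃ g : ℕ → ℝ, ∀ d, g d = (S (N₀ * n) (c * Real.sqrt n) d).toReal :=
    ⟨_, fun _ => rfl⟩
  have hgpos : ∀ d, 0 < d → d ≤ n → 0 < g d := fun d h1 h2 => by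
    rw [hg]; exact ENNReal.toReal_pos (hne d h2) (hfin d h1)
  have hstep : ∀ d, n / 2 ≤ d → d < n → g (d + 1) ≤ C₅ * g d := by
    intro d h1 h2
    have h3 := S_step (N := N₀ * n) (k := d) (n := n) hc hδ0 (by omega) (by omega) (by omega)
      (hlow (d + 1) (by omega))
    have h4 := ENNReal.toReal_mono (ENNReal.mul_ne_top ENNReal.ofReal_ne_top
      (hfin d (by omega))) h3
    rw [ENNReal.toReal_mul, ENNReal.toReal_ofReal (by positivity), ← hg, ← hg] at h4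
    refine h4.trans ?_
    have : 0 < g d := hgpos d (by omega) (by omega)
    exact mul_le_mul_of_nonneg_right hC₅ this.le
  have htel := telescope g C₅ l hC₅1 hl0 (n / 2) n (by omega)
    (fun d h1 h2 => hgpos d (by omega) h2) hstep
  classical
  obtain ⟨B, hB⟩ : ∃ B, B = (Finset.Ioc (n / 2) n).filter (fun d => l * g d < g (d - 1)) :=
    ⟨_, rfl⟩
  have htel' : l ^ B.card * g n ≤ C₅ ^ (n - n / 2) * g (n / 2) := by
    rw [hB]; convert htel
  refine ⟨B, ?_, ?_⟩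
  · apply hl
    have h1 : δ ^ n ≤ g n := by
      have := ENNReal.toReal_mono (hfin n (by omega)) (hlow n le_rfl)
      rwa [ENNReal.toReal_ofReal hδn.le, ← hg] at this
    have h2 : g (n / 2) ≤ C₃ ^ n := by
      have hh : 0 < n / 2 := by omega
      have h3 := ENNReal.toReal_mono ENNReal.ofReal_ne_top (S_le (N := N₀ * n) hh hκ)
      rw [ENNReal.toReal_ofReal (by positivity), ← hg] at h3
      refine h3.trans ?_
      have h4 : 5 * Real.sqrt ((n / 2 : ℕ) : ℝ) / (c * Real.sqrt n) ≤ C₃ := by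
        refine le_trans ?_ hC₃
        have h5 : Real.sqrt ((n / 2 : ℕ) : ℝ) ≤ Real.sqrt n := by
          apply Real.sqrt_le_sqrt
          exact_mod_cast Nat.div_le_self n 2
        have hsn : 0 < Real.sqrt n := by positivity
        calc 5 * Real.sqrt ((n / 2 : ℕ) : ℝ) / (c * Real.sqrt n) ≤
            5 * Real.sqrt n / (c * Real.sqrt n) := by gcongr
          _ = 5 / c := by field_simp
      calc (5 * Real.sqrt ((n / 2 : ℕ) : ℝ) / (c * Real.sqrt n)) ^ (n / 2) ≤ C₃ ^ (n / 2) := by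
            apply pow_le_pow_left₀ (by positivity) h4
        _ ≤ C₃ ^ n := pow_le_pow_right₀ hC₃1 (Nat.div_le_self n 2)
    have hlB : 0 < l ^ B.card := by positivity
    have hC5n : 0 < C₅ ^ n := by positivity
    have h3 : l ^ B.card * δ ^ n ≤ C₅ ^ n * C₃ ^ n := by
      have hp : 0 < g (n / 2) := hgpos _ (by omega) (by omega)
      have h5 : C₅ ^ (n - n / 2) ≤ C₅ ^ n := pow_le_pow_right₀ hC₅1 (by omega)
      calc l ^ B.card * δ ^ n ≤ l ^ B.card * g n := mul_le_mul_of_nonneg_left h1 hlB.le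
        _ ≤ C₅ ^ (n - n / 2) * g (n / 2) := htel'
        _ ≤ C₅ ^ n * C₃ ^ n := mul_le_mul h5 h2 hp.le hC5n.le
    rw [div_pow, le_div_iff₀ hδn, mul_pow]
    linarith
  · intro d hd1 hd2 hdB
    obtain ⟨k, rfl⟩ : ∃ k, d = k + 1 := ⟨d - 1, by omega⟩
    have h1 : ¬ (l * g (k + 1) < g (k + 1 - 1)) := by
      intro h
      apply hdB
      rw [hB]
      exact Finset.mem_filter.2 ⟨Finset.mem_Ioc.2 ⟨hd1, hd2⟩, h⟩
    rw [not_lt] at h1
    have h2 : g k ≤ l * g (k + 1) := h1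
    have hk : 0 < k := by omega
    rw [hg, hg] at h2
    have h3 : S (N₀ * n) (c * Real.sqrt n) k ≤
        ENNReal.ofReal l * S (N₀ * n) (c * Real.sqrt n) (k + 1) := by
      rw [← ENNReal.ofReal_toReal (hfin k hk), ← ENNReal.ofReal_toReal (hfin (k + 1) (by omega)),
        ← ENNReal.ofReal_mul hl0.le]
      exact ENNReal.ofReal_le_ofReal h2
    exact exists_good hκ hl0 (hne _ hd2) (hfin _ (by omega)) h3

theorem final_aux {m n : ℕ} {c l : ℝ} (hc : 0 < c) (hl0 : 0 < l) (hn0 : 1 ≤ n) (hmn : m ≤ 4 * n) :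
    c / (64 * l) * Real.sqrt m ≤
      1 / (2 * (Real.sqrt 2 * (4 / (c * Real.sqrt n))) * (Real.sqrt 2 * (2 * l))) := by
  have hn0 : (0 : ℝ) < n := by exact_mod_cast hn0
  have s2 : Real.sqrt 2 * Real.sqrt 2 = 2 := Real.mul_self_sqrt (by norm_num)
  have hsn : 0 < Real.sqrt n := by positivity
  have e1 : 2 * (Real.sqrt 2 * (4 / (c * Real.sqrt n))) * (Real.sqrt 2 * (2 * l)) =
      32 * l / (c * Real.sqrt n) := by
    have : 2 * (Real.sqrt 2 * (4 / (c * Real.sqrt n))) * (Real.sqrt 2 * (2 * l)) =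
      (Real.sqrt 2 * Real.sqrt 2) * (16 * l / (c * Real.sqrt n)) := by ring
    rw [this, s2]
    ring
  rw [e1, one_div_div]
  have h8 : Real.sqrt m ≤ 2 * Real.sqrt n := by
    have h9 : (m : ℝ) ≤ 4 * n := by exact_mod_cast hmn
    calc Real.sqrt m ≤ Real.sqrt (4 * n) := Real.sqrt_le_sqrt h9
      _ = 2 * Real.sqrt n := by
          rw [Real.sqrt_mul (by norm_num)]
          congr 1
          rw [show (4 : ℝ) = 2 ^ 2 by norm_num]
          exact Real.sqrt_sq (by norm_num)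
  calc c / (64 * l) * Real.sqrt m ≤ c / (64 * l) * (2 * Real.sqrt n) :=
        mul_le_mul_of_nonneg_left h8 (by positivity)
    _ = c * Real.sqrt n / (32 * l) := by field_simp; norm_num

theorem kashin_lower (hkashin : ∃ (N₀ : ℕ) (c : ℝ), 0 < N₀ ∧ 0 < c ∧ ∀ n : ℕ, 1 ≤ n →
    ∃ A : Fin (N₀ * n) → (EuclideanSpace ℝ (Fin n) →L[ℝ] ℝ), (∀ j, ‖A j‖ ≤ 1) ∧
      ∀ y : EuclideanSpace ℝ (Fin n), c * Real.sqrt n * ‖y‖ ≤ ∑ j, |A j y|) :
    ∃ c : ℝ, 0 < c ∧ ∀ m : ℕ, 13 ≤ m → ∃ K : Set (E m), ∃ L η : ℝ, 0 < L ∧ 0 < η ∧ Good K L η ∧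
      c * Real.sqrt m ≤ 1 / (2 * η * L) := by
  obtain ⟨N₀, c, hN₀, hc, hA⟩ := hkashin
  obtain ⟨δ, hδ⟩ : ∃ δ : ℝ, (1 / 200 : ℝ) ^ N₀ = δ := ⟨_, rfl⟩
  have hδ0 : 0 < δ := by rw [← hδ]; positivity
  have hδ1 : δ ≤ 1 := by rw [← hδ]; exact pow_le_one₀ (by norm_num) (by norm_num)
  obtain ⟨C₅, hC₅⟩ : ∃ C : ℝ, C = 24 * ((c / 8 + 32 / (c * δ)) / c) + 1 := ⟨_, rfl⟩
  have hC₅1 : 1 ≤ C₅ := by
    have : 0 < 24 * ((c / 8 + 32 / (c * δ)) / c) := by positivity
    linarith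
  obtain ⟨C₃, hC₃⟩ : ∃ C : ℝ, C = 5 / c + 1 := ⟨_, rfl⟩
  have hC₃1 : 1 ≤ C₃ := by
    have : 0 < 5 / c := by positivity
    linarith
  obtain ⟨Γ, hΓ⟩ : ∃ Γ : ℝ, Γ = 2 * (C₃ * C₅ / δ) := ⟨_, rfl⟩
  have hq1 : 1 ≤ C₃ * C₅ / δ := by
    rw [le_div_iff₀ hδ0]
    nlinarith
  have hΓ1 : 1 < Γ := by linarith
  obtain ⟨l, hl⟩ : ∃ l : ℝ, l = Γ ^ 8 := ⟨_, rfl⟩
  have hl0 : 0 < l := by rw [hl]; positivity
  have hlb : ∀ b n : ℕ, l ^ b ≤ (C₃ * C₅ / δ) ^ n → 8 * b ≤ n := by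
    intro b n h
    have h5 : Γ ^ (8 * b) ≤ Γ ^ n := by
      rw [pow_mul, ← hl]
      refine h.trans ?_
      apply pow_le_pow_left₀ (by linarith)
      linarith
    exact (pow_le_pow_iff_right₀ hΓ1).1 h5
  refine ⟨c / (64 * l), by positivity, ?_⟩
  intro m hm
  obtain ⟨n, hn⟩ : ∃ n, n = (2 * m + 2) / 3 := ⟨_, rfl⟩
  obtain ⟨A, hA1, hA2⟩ := hA n (by omega)
  have hn1 : (0 : ℝ) < n := by
    have : 0 < n := by omega
    exact_mod_cast this
  obtain ⟨B, hB, hgood⟩ := key_lemma hc hδ0 hδ hC₅1 (by linarith) hC₃1 (by linarith) hl0 hlb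
    (by omega) A ⟨hA1, hA2⟩
  obtain ⟨d, h1, h2, h3, h4, h5, h6, h7⟩ := pigeon m n hn hm B hB
  obtain ⟨K₁, hK₁⟩ := hgood d h1 h2 h6
  obtain ⟨K₂, hK₂⟩ := hgood (m - d) h3 h4 h7
  have hprod := Good.prod (by positivity : 0 < 2 * l) (by positivity : 0 ≤ 4 / (c * Real.sqrt n))
    hK₁ hK₂
  have e : d + (m - d) = m := by omega
  have hex : ∃ K : Set (E (d + (m - d))), Good K (Real.sqrt 2 * (2 * l))
      (Real.sqrt 2 * (4 / (c * Real.sqrt n))) := ⟨_, hprod⟩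
  rw [e] at hex
  obtain ⟨K, hK⟩ := hex
  exact ⟨K, _, _, by positivity, by positivity, hK, final_aux hc hl0 (by omega) (by omega)⟩

end Pool.Agent.Helper392.Mey
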