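import Mathlib

set_option autoImplicit false
open MeasureTheory Set
open scoped ENNReal

namespace Pool.Agent.Helper392.Mey

/-- origin-symmetric convex body -/
def IsBody {n : ℕ} (K : Set (EuclideanSpace ℝ (Fin n))) : Prop :=
  Convex ℝ K ∧ IsCompact K ∧ (interior K).Nonempty ∧ ∀ x ∈ K, -x ∈ K

/-- the linear projection onto `u^⊥` along `v` -/
noncomputable def obl {n : ℕ} (u v x : EuclideanSpace ℝ (Fin n)) : EuclideanSpace ℝ (Fin n) :=
  x - (inner ℝ x u / inner ℝ v u) • v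

/-- `|P_{v,u^⊥}(K)| / |K ∩ u^⊥|`, with `(n-1)`-dimensional Lebesgue measure -/
noncomputable def ratio {n : ℕ} (K : Set (EuclideanSpace ℝ (Fin n)))
    (u v : EuclideanSpace ℝ (Fin n)) : ℝ≥0∞ :=
  μHE[n - 1] (obl u v '' K) / μHE[n - 1] (K ∩ {x | inner ℝ x u = 0})

/-- `M_n`, the supremum over bodies of the infimum over `u, v` of the ratio -/
noncomputable def M (n : ℕ) : ℝ≥0∞ :=
  ⨆ (K : Set (EuclideanSpace ℝ (Fin n))) (_ : IsBody K),
    ⨅ (u : EuclideanSpace ℝ (Fin n)) (v : EuclideanSpace ℝ (Fin n))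
      (_ : ‖u‖ = 1) (_ : ‖v‖ = 1) (_ : inner ℝ u v ≠ 0), ratio K u v

end Pool.Agent.Helper392.Mey
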