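import Pool.Agent.Helper392.Mey.Step

set_option autoImplicit false
open MeasureTheory Set Module Filter Topology
open scoped ENNReal Pointwise

namespace Pool.Agent.Helper392.Mey

variable {N : ℕ}

/-- the real inequality behind the bound on `Σ a` -/
theorem real_aux {c δ s : ℝ} {d n : ℕ} (hc : 0 < c) (hδ : 0 < δ) (hn : 1 ≤ n) (hd : d ≤ n)
    (hd2 : n ≤ 2 * d) (hs : 0 < s)
    (h : δ ^ n ≤ 2 * ((5 * (s / (c * Real.sqrt n)) / Real.sqrt d) ^ d * Real.exp (-s))) :
    s ≤ (c / 8 + 32 / (c * δ)) * n := by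
  have hn0 : (0 : ℝ) < n := by exact_mod_cast hn
  have hd0 : (0 : ℝ) < d := by
    have : 0 < d := by omega
    exact_mod_cast this
  set t := s / n with ht
  have ht0 : 0 < t := by positivity
  have hst : s = t * n := by rw [ht]; field_simp
  suffices h' : t ≤ c / 8 + 32 / (c * δ) by
    rw [hst]; gcongr
  by_cases hsmall : t ≤ c / 8
  · have : 0 < 32 / (c * δ) := by positivity
    linarith
  · rw [not_le] at hsmall
    have h32 : t ≤ 32 / (c * δ) := by
      have hsq : 5 * (s / (c * Real.sqrt n)) / Real.sqrt d ≤ 8 * t / c := by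
        have hq : (5 : ℝ) * n ≤ 8 * (Real.sqrt n * Real.sqrt d) := by
          have h2 : (n : ℝ) ≤ 2 * d := by exact_mod_cast hd2
          rw [← Real.sqrt_mul hn0.le]
          have h3 : (5 / 8 : ℝ) * n ≤ Real.sqrt (n * d) := by
            apply Real.le_sqrt_of_sq_le
            nlinarith
          linarith
        rw [hst, div_le_div_iff₀ (by positivity) hc]
        have hsn : 0 < Real.sqrt n := by positivity
        have hsd : 0 < Real.sqrt d := by positivity
        have e1 : 5 * (t * n / (c * Real.sqrt n)) * c = t * (5 * n) / Real.sqrt n := by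
          field_simp
        rw [e1, div_le_iff₀ hsn]
        nlinarith
      have hbase : 1 ≤ 8 * t / c := by
        rw [le_div_iff₀ hc]; linarith
      have h3 : (5 * (s / (c * Real.sqrt n)) / Real.sqrt d) ^ d ≤ (8 * t / c) ^ n := by
        calc _ ≤ (8 * t / c) ^ d := by
              apply pow_le_pow_left₀ (by positivity) hsq
          _ ≤ _ := pow_le_pow_right₀ hbase hd
      have h4 : δ ^ n ≤ (2 * (8 * t / c) * Real.exp (-t)) ^ n := by
        calc δ ^ n ≤ 2 * ((5 * (s / (c * Real.sqrt n)) / Real.sqrt d) ^ d * Real.exp (-s)) := h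
          _ ≤ 2 ^ n * ((8 * t / c) ^ n * Real.exp (-s)) := by
              have : (2 : ℝ) ≤ 2 ^ n := by
                calc (2 : ℝ) = 2 ^ 1 := by norm_num
                  _ ≤ 2 ^ n := pow_le_pow_right₀ (by norm_num) hn
              gcongr
          _ = _ := by
              rw [mul_pow, mul_pow, ← Real.exp_nat_mul, hst]
              ring_nf
      have h5 : δ ≤ 2 * (8 * t / c) * Real.exp (-t) := by
        by_contra hcon
        rw [not_le] at hcon
        have := pow_lt_pow_left₀ hcon (by positivity) (by omega : n ≠ 0)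
        linarith
      have h6 : t ^ 2 / 2 ≤ Real.exp t := by
        have := Real.quadratic_le_exp_of_nonneg ht0.le
        linarith
      have h7 : Real.exp (-t) ≤ 2 / t ^ 2 := by
        rw [Real.exp_neg, inv_le_comm₀ (Real.exp_pos _) (by positivity), inv_div]
        exact h6
      rw [le_div_iff₀ (by positivity)]
      have h8 : δ ≤ 2 * (8 * t / c) * (2 / t ^ 2) := h5.trans (by gcongr)
      have h9 : 2 * (8 * t / c) * (2 / t ^ 2) = 32 / (c * t) := by field_simp; norm_num
      rw [h9, le_div_iff₀ (by positivity)] at h8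
      linarith
    have : 0 < c / 8 := by positivity
    linarith

/-- some coordinate slab contains half of the volume -/
theorem exists_coord {k : ℕ} {K : Set (E (k + 1))} (hK : MeasurableSet K) (hfin : volume K ≠ ⊤)
    {R b : ℝ} (hb : 0 < b) (hR : ∀ y ∈ K, ‖y‖ ^ 2 ≤ R) (hRb : 2 * R ≤ (k + 1 : ℕ) * b ^ 2) :
    ∃ i : Fin (k + 1), volume K ≤ 2 * volume (K ∩ {y | |y i| ≤ b}) := by
  by_contra hcon
  push Not at hcon
  have hmi : ∀ i : Fin (k + 1), MeasurableSet {y : E (k + 1) | |y i| ≤ b} := by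
    intro i
    have : Continuous fun y : E (k + 1) => |y i| := by fun_prop
    exact measurableSet_le this.measurable measurable_const
  have hmc : ∀ i : Fin (k + 1), MeasurableSet (K ∩ {y : E (k + 1) | |y i| ≤ b}ᶜ) := fun i =>
    hK.inter (hmi i).compl
  have h1 : ∀ i : Fin (k + 1), volume K < 2 * volume (K ∩ {y : E (k + 1) | |y i| ≤ b}ᶜ) := by
    intro i
    have h2 := measure_inter_add_sdiff (μ := (volume : Measure (E (k + 1)))) K (hmi i)
    rw [Set.sdiff_eq] at h2
    have h3 := hcon i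
    set p := volume (K ∩ {y : E (k + 1) | |y i| ≤ b})
    set q := volume (K ∩ {y : E (k + 1) | |y i| ≤ b}ᶜ)
    have hp : p ≠ ⊤ := by
      intro h; rw [h, top_add] at h2; exact hfin h2.symm
    have h4 : p < q := by
      rw [← h2, two_mul] at h3
      exact (ENNReal.add_lt_add_iff_left hp).1 h3
    rw [← h2, two_mul]
    have hq : q ≠ ⊤ := by
      intro h; rw [h, add_top] at h2; exact hfin h2.symm
    exact (ENNReal.add_lt_add_iff_right hq).2 h4
  have h2 : ∑ i : Fin (k + 1), ENNReal.ofReal (b ^ 2) * volume (K ∩ {y : E (k + 1) | |y i| ≤ b}ᶜ) ≤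
      ENNReal.ofReal R * volume K := by
    calc ∑ i : Fin (k + 1), ENNReal.ofReal (b ^ 2) * volume (K ∩ {y : E (k + 1) | |y i| ≤ b}ᶜ)
        = ∫⁻ y, ∑ i : Fin (k + 1), (K ∩ {y : E (k + 1) | |y i| ≤ b}ᶜ).indicator
            (fun _ => ENNReal.ofReal (b ^ 2)) y := by
          rw [lintegral_finsetSum]
          · exact Finset.sum_congr rfl fun i _ => (lintegral_indicator_const (hmc i) _).symm
          · intro i _
            exact measurable_const.indicator (hmc i)
      _ ≤ ∫⁻ y, K.indicator (fun _ => ENNReal.ofReal R) y := by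
          apply lintegral_mono
          intro y
          by_cases hy : y ∈ K
          · rw [indicator_of_mem hy]
            calc ∑ i : Fin (k + 1), (K ∩ {y : E (k + 1) | |y i| ≤ b}ᶜ).indicator
                  (fun _ => ENNReal.ofReal (b ^ 2)) y
                ≤ ∑ i : Fin (k + 1), ENNReal.ofReal ((y i) ^ 2) := by
                  apply Finset.sum_le_sum
                  intro i _
                  by_cases hi : y ∈ K ∩ {y : E (k + 1) | |y i| ≤ b}ᶜ
                  · rw [indicator_of_mem hi]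
                    apply ENNReal.ofReal_le_ofReal
                    have : ¬ |y i| ≤ b := hi.2
                    rw [not_le] at this
                    rw [← sq_abs (y i)]
                    exact pow_le_pow_left₀ hb.le this.le 2
                  · rw [indicator_of_notMem hi]; exact bot_le
              _ = ENNReal.ofReal (‖y‖ ^ 2) := by
                  rw [EuclideanSpace.norm_sq_eq, ENNReal.ofReal_sum_of_nonneg]
                  · simp
                  · intro i _; positivity
              _ ≤ ENNReal.ofReal R := ENNReal.ofReal_le_ofReal (hR y hy)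
          · rw [indicator_of_notMem hy, nonpos_iff_eq_zero]
            apply Finset.sum_eq_zero
            intro i _
            rw [indicator_of_notMem]
            exact fun h => hy h.1
      _ = _ := lintegral_indicator_const hK _
  have hb2 : 0 < ENNReal.ofReal (b ^ 2) := by
    rw [ENNReal.ofReal_pos]; positivity
  have hb2t : ENNReal.ofReal (b ^ 2) ≠ ⊤ := ENNReal.ofReal_ne_top
  have h3 : ∑ _i : Fin (k + 1), ENNReal.ofReal (b ^ 2) * volume K <
      ∑ i : Fin (k + 1), ENNReal.ofReal (b ^ 2) * (2 * volume (K ∩ {y : E (k + 1) | |y i| ≤ b}ᶜ)) := by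
    apply ENNReal.sum_lt_sum_of_nonempty Finset.univ_nonempty
    intro i _
    exact (ENNReal.mul_lt_mul_iff_right hb2.ne' hb2t).2 (h1 i)
  have h4 : ∑ i : Fin (k + 1), ENNReal.ofReal (b ^ 2) * (2 * volume (K ∩ {y : E (k + 1) | |y i| ≤ b}ᶜ))
      = 2 * ∑ i : Fin (k + 1), ENNReal.ofReal (b ^ 2) * volume (K ∩ {y : E (k + 1) | |y i| ≤ b}ᶜ) := by
    rw [Finset.mul_sum]
    apply Finset.sum_congr rfl
    intro i _
    ring
  rw [h4] at h3
  have h5 : ∑ _i : Fin (k + 1), ENNReal.ofReal (b ^ 2) * volume K < 2 * (ENNReal.ofReal R * volume K) :=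
    h3.trans_le (by gcongr)
  rw [Finset.sum_const, Finset.card_univ, Fintype.card_fin, nsmul_eq_mul] at h5
  apply absurd h5
  rw [not_lt, ← mul_assoc, ← mul_assoc]
  refine mul_le_mul' ?_ le_rfl
  have e2 : (2 : ℝ≥0∞) = ENNReal.ofReal 2 := by simp
  have e3 : ((k + 1 : ℕ) : ℝ≥0∞) = ENNReal.ofReal ((k + 1 : ℕ) : ℝ) := (ENNReal.ofReal_natCast _).symm
  rw [e2, e3, ← ENNReal.ofReal_mul (by norm_num), ← ENNReal.ofReal_mul (by positivity)]
  exact ENNReal.ofReal_le_ofReal hRb

theorem S_step {c δ : ℝ} {k n : ℕ} (hc : 0 < c) (hδ : 0 < δ) (hn : 1 ≤ n) (hd : k + 1 ≤ n)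
    (hd2 : n ≤ 2 * (k + 1)) (hS : ENNReal.ofReal (δ ^ n) ≤ S N (c * Real.sqrt n) (k + 1)) :
    S N (c * Real.sqrt n) (k + 1) ≤
      ENNReal.ofReal (24 * ((c / 8 + 32 / (c * δ)) / c)) * S N (c * Real.sqrt n) k := by
  have hn0 : (0 : ℝ) < n := by exact_mod_cast hn
  have hκ : 0 < c * Real.sqrt n := by positivity
  set κ := c * Real.sqrt n with hκd
  have h0 : S N κ (k + 1) ≠ 0 := by
    intro h
    rw [h] at hS
    have : ENNReal.ofReal (δ ^ n) = 0 := le_antisymm hS bot_le
    rw [ENNReal.ofReal_eq_zero] at this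
    have : 0 < δ ^ n := by positivity
    linarith
  have h1 : S N κ (k + 1) ≠ ⊤ := ((S_le (N := N) (Nat.succ_pos k) hκ).trans_lt
    ENNReal.ofReal_lt_top).ne
  obtain ⟨A, hA, a, ha⟩ := exists_near h0 h1
  set s := ∑ j, a j with hs
  have hs0 : 0 < s := by
    by_contra hcon
    rw [F_eq_zero (Nat.succ_pos k) hκ hA a (not_lt.1 hcon), mul_zero] at ha
    exact h0 (le_antisymm ha bot_le)
  have hFle := F_le (Nat.succ_pos k) hκ hA a hs0
  have h2 : δ ^ n ≤ 2 * ((5 * (s / (c * Real.sqrt n)) / Real.sqrt (k + 1 : ℕ)) ^ (k + 1) *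
      Real.exp (-s)) := by
    have h3 : ENNReal.ofReal (δ ^ n) ≤ 2 * F A a := hS.trans ha
    have h4 : ENNReal.ofReal (δ ^ n) ≤ ENNReal.ofReal
        (2 * ((5 * (s / (c * Real.sqrt n)) / Real.sqrt (k + 1 : ℕ)) ^ (k + 1) * Real.exp (-s))) := by
      rw [ENNReal.ofReal_mul (by norm_num)]
      calc ENNReal.ofReal (δ ^ n) ≤ 2 * F A a := h3
        _ ≤ ENNReal.ofReal 2 * ENNReal.ofReal _ := by
            have e2 : (2 : ℝ≥0∞) = ENNReal.ofReal 2 := by simp
            rw [e2]
            exact mul_le_mul' le_rfl hFle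
    exact (ENNReal.ofReal_le_ofReal_iff (by positivity)).1 h4
  have ht := real_aux hc hδ hn hd hd2 hs0 h2
  set t₀ := c / 8 + 32 / (c * δ) with ht₀
  have ht0 : 0 < t₀ := by positivity
  set b := 3 * (t₀ / c) with hb
  have hb0 : 0 < b := by positivity
  set K := slabs A a with hKd
  have hKm : MeasurableSet K := (slabs_closed A a).measurableSet
  have hKfin : volume K ≠ ⊤ := by
    intro h
    have h3 : F A a = ⊤ := by
      unfold F
      rw [← hKd, h, ENNReal.top_mul]
      simp [Real.exp_pos]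
    have h4 := (hFle.trans_lt ENNReal.ofReal_lt_top).ne
    exact h4 h3
  have hnorm : ∀ y ∈ K, ‖y‖ ^ 2 ≤ (t₀ / c) ^ 2 * n := by
    intro y hy
    have h3 := hA.norm_le_of_mem hκ hy
    have h4 : s / κ ≤ (t₀ / c) * Real.sqrt n := by
      rw [div_le_iff₀ hκ, hκd]
      have e : t₀ / c * Real.sqrt n * (c * Real.sqrt n) = t₀ * (Real.sqrt n * Real.sqrt n) := by
        field_simp
      rw [e, Real.mul_self_sqrt hn0.le]
      exact ht
    calc ‖y‖ ^ 2 ≤ ((t₀ / c) * Real.sqrt n) ^ 2 :=
          pow_le_pow_left₀ (norm_nonneg _) (h3.trans h4) 2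
      _ = _ := by rw [mul_pow, Real.sq_sqrt hn0.le]
  obtain ⟨i, hi⟩ := exists_coord hKm hKfin hb0 hnorm (by
    have h3 : (n : ℝ) ≤ 2 * (k + 1 : ℕ) := by exact_mod_cast hd2
    rw [hb, mul_pow]
    have h4 : 0 ≤ (t₀ / c) ^ 2 := by positivity
    nlinarith)
  obtain ⟨T, hT⟩ := exists_par (k := k) (EuclideanSpace.single i 1) (by simp)
  have h3 := hT.slab hKm (slabs_convex A a) (slabs_symm A a) 0 b
  have h4 : K ∩ {x : E (k + 1) | |inner ℝ x (EuclideanSpace.single i (1 : ℝ)) - 0| ≤ b} =
      K ∩ {y | |y i| ≤ b} := by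
    congr 1
    ext x
    simp [EuclideanSpace.inner_single_right]
  rw [h4] at h3
  have h5 : F (fun j => (A j).comp T.toContinuousLinearMap) a ≤ S N κ k := F_le_S (hA.comp T) a
  rw [F_comp] at h5
  set e := ENNReal.ofReal (Real.exp (-∑ j, a j)) with he
  set q := volume {y : E k | T y ∈ slabs A a} with hq
  calc S N κ (k + 1) ≤ 2 * F A a := ha
    _ = 2 * (volume K * e) := rfl
    _ ≤ 2 * ((2 * (ENNReal.ofReal (2 * b) * q)) * e) := by
        gcongr
        exact hi.trans (by gcongr)
    _ = (2 * (2 * ENNReal.ofReal (2 * b))) * (q * e) := by ring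
    _ ≤ (2 * (2 * ENNReal.ofReal (2 * b))) * S N κ k := by gcongr
    _ = _ := by
        congr 1
        have e2 : (2 : ℝ≥0∞) = ENNReal.ofReal 2 := by simp
        rw [e2, ← ENNReal.ofReal_mul (by norm_num), ← ENNReal.ofReal_mul (by norm_num), hb]
        congr 1
        ring

end Pool.Agent.Helper392.Mey
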