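import Pool.Agent.Helper392.Mey.Good

set_option autoImplicit false
open MeasureTheory Set Module Filter Topology
open scoped ENNReal Pointwise

namespace Pool.Agent.Helper392.Mey

variable {d N : ℕ}

/-- intersection of symmetric slabs -/
def slabs (A : Fin N → (E d →L[ℝ] ℝ)) (a : Fin N → ℝ) : Set (E d) := {y | ∀ j, |A j y| ≤ a j}

/-- admissible systems -/
structure Adm (κ : ℝ) (A : Fin N → (E d →L[ℝ] ℝ)) : Prop where
  norm_le : ∀ j, ‖A j‖ ≤ 1
  l1 : ∀ y, κ * ‖y‖ ≤ ∑ j, |A j y|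

/-- the functional -/
noncomputable def F (A : Fin N → (E d →L[ℝ] ℝ)) (a : Fin N → ℝ) : ℝ≥0∞ :=
  volume (slabs A a) * ENNReal.ofReal (Real.exp (-∑ j, a j))

/-- its supremum in dimension `d` -/
noncomputable def S (N : ℕ) (κ : ℝ) (d : ℕ) : ℝ≥0∞ :=
  ⨆ (A : Fin N → (E d →L[ℝ] ℝ)) (_ : Adm κ A) (a : Fin N → ℝ), F A a

theorem F_le_S {κ : ℝ} {A : Fin N → (E d →L[ℝ] ℝ)} (hA : Adm κ A) (a : Fin N → ℝ) :
    F A a ≤ S N κ d := by
  unfold S
  exact le_iSup_of_le A (le_iSup_of_le hA (le_iSup (fun a => F A a) a))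

theorem slabs_closed (A : Fin N → (E d →L[ℝ] ℝ)) (a : Fin N → ℝ) : IsClosed (slabs A a) := by
  have : slabs A a = ⋂ j, {y | |A j y| ≤ a j} := by ext; simp [slabs]
  rw [this]
  refine isClosed_iInter fun j => ?_
  exact isClosed_le (by fun_prop) continuous_const

theorem slabs_convex (A : Fin N → (E d →L[ℝ] ℝ)) (a : Fin N → ℝ) : Convex ℝ (slabs A a) := by
  intro x hx y hy p q hp hq hpq j
  rw [map_add, map_smul, map_smul, smul_eq_mul, smul_eq_mul]
  calc |p * A j x + q * A j y| ≤ |p * A j x| + |q * A j y| := abs_add_le _ _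
    _ = p * |A j x| + q * |A j y| := by rw [abs_mul, abs_mul, abs_of_nonneg hp, abs_of_nonneg hq]
    _ ≤ p * a j + q * a j := by
        gcongr
        · exact hx j
        · exact hy j
    _ = a j := by rw [← add_mul, hpq, one_mul]

theorem slabs_symm (A : Fin N → (E d →L[ℝ] ℝ)) (a : Fin N → ℝ) : ∀ x ∈ slabs A a, -x ∈ slabs A a := by
  intro x hx j
  rw [map_neg, abs_neg]
  exact hx j

theorem Adm.norm_le_of_mem {κ : ℝ} (hκ : 0 < κ) {A : Fin N → (E d →L[ℝ] ℝ)} (hA : Adm κ A)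
    {a : Fin N → ℝ} {y : E d} (hy : y ∈ slabs A a) : ‖y‖ ≤ (∑ j, a j) / κ := by
  rw [le_div_iff₀ hκ, mul_comm]
  exact (hA.l1 y).trans (Finset.sum_le_sum fun j _ => hy j)

theorem Adm.comp {κ : ℝ} {k : ℕ} {A : Fin N → (E d →L[ℝ] ℝ)} (hA : Adm κ A)
    (T : E k →ₗᵢ[ℝ] E d) : Adm κ (fun j => (A j).comp T.toContinuousLinearMap) := by
  refine ⟨?_, ?_⟩
  · intro j
    refine ContinuousLinearMap.opNorm_le_bound _ zero_le_one ?_
    intro x
    rw [ContinuousLinearMap.comp_apply]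
    refine ((A j).le_opNorm _).trans ?_
    have : ‖T.toContinuousLinearMap x‖ = ‖x‖ := T.norm_map x
    rw [this]
    gcongr
    exact hA.norm_le j
  · intro y
    have := hA.l1 (T y)
    rw [T.norm_map] at this
    exact this

theorem ball_vol (hd : 0 < d) (R : ℝ) (hR : 0 < R) :
    volume (Metric.closedBall (0 : E d) R) ≤ ENNReal.ofReal ((5 * R / Real.sqrt d) ^ d) := by
  have hd' : (0 : ℝ) < d := by exact_mod_cast hd
  set b : ℝ := d / (2 * R ^ 2) with hb
  have hb0 : 0 < b := by positivity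
  have h1 := GaussianFourier.integral_rexp_neg_mul_sq_norm (V := E d) hb0
  have hint : Integrable (fun v : E d => Real.exp (-b * ‖v‖ ^ 2)) := by
    by_contra h
    rw [integral_undef h] at h1
    have : (0 : ℝ) < (Real.pi / b) ^ ((finrank ℝ (E d) : ℝ) / 2) := by positivity
    linarith
  have h2 : ∫⁻ v : E d, ENNReal.ofReal (Real.exp (-b * ‖v‖ ^ 2)) =
      ENNReal.ofReal ((Real.pi / b) ^ ((finrank ℝ (E d) : ℝ) / 2)) := by
    rw [← h1, ofReal_integral_eq_lintegral_ofReal hint (ae_of_all _ fun v => (Real.exp_pos _).le)]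
  have h3 : ENNReal.ofReal (Real.exp (-(d / 2 : ℝ))) * volume (Metric.closedBall (0 : E d) R) ≤
      ∫⁻ v : E d, ENNReal.ofReal (Real.exp (-b * ‖v‖ ^ 2)) := by
    rw [← lintegral_indicator_const measurableSet_closedBall]
    apply lintegral_mono
    intro v
    by_cases hv : v ∈ Metric.closedBall (0 : E d) R
    · rw [indicator_of_mem hv]
      apply ENNReal.ofReal_le_ofReal
      apply Real.exp_le_exp.2
      rw [mem_closedBall_zero_iff] at hv
      have : ‖v‖ ^ 2 ≤ R ^ 2 := pow_le_pow_left₀ (norm_nonneg _) hv 2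
      have : b * ‖v‖ ^ 2 ≤ b * R ^ 2 := by gcongr
      have e : b * R ^ 2 = d / 2 := by rw [hb]; field_simp
      linarith
    · rw [indicator_of_notMem hv]; exact bot_le
  rw [h2, finrank_euclideanSpace_fin] at h3
  have e1 : ENNReal.ofReal (Real.exp (-(d / 2 : ℝ))) ≠ 0 := by
    simp [Real.exp_pos]
  have h4 : volume (Metric.closedBall (0 : E d) R) ≤
      ENNReal.ofReal (Real.exp (d / 2 : ℝ)) * ENNReal.ofReal ((Real.pi / b) ^ ((d : ℝ) / 2)) := by
    calc volume (Metric.closedBall (0 : E d) R) = ENNReal.ofReal (Real.exp (d / 2 : ℝ)) *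
        (ENNReal.ofReal (Real.exp (-(d / 2 : ℝ))) * volume (Metric.closedBall (0 : E d) R)) := by
          rw [← mul_assoc, ← ENNReal.ofReal_mul (Real.exp_pos _).le, ← Real.exp_add]
          simp
      _ ≤ _ := by gcongr
  refine h4.trans ?_
  rw [← ENNReal.ofReal_mul (Real.exp_pos _).le]
  apply ENNReal.ofReal_le_ofReal
  have e2 : Real.exp (d / 2 : ℝ) = (Real.exp 1) ^ ((d : ℝ) / 2) := by
    rw [← Real.exp_mul]; ring_nf
  have e3 : (5 * R / Real.sqrt d) ^ d = ((5 * R / Real.sqrt d) ^ 2) ^ ((d : ℝ) / 2) := by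
    rw [← Real.rpow_natCast (_ / _) 2, ← Real.rpow_mul (by positivity),
      ← Real.rpow_natCast (_ / _) d]
    congr 1
    push_cast
    ring
  rw [e2, e3, ← Real.mul_rpow (Real.exp_pos _).le (by positivity)]
  apply Real.rpow_le_rpow (by positivity) _ (by positivity)
  rw [div_pow, Real.sq_sqrt hd'.le, hb]
  have hpi : Real.pi < 3.15 := Real.pi_lt_d2
  have he : Real.exp 1 < 2.7182818286 := Real.exp_one_lt_d9
  have e4 : Real.exp 1 * (Real.pi / (d / (2 * R ^ 2))) = (Real.exp 1 * Real.pi * 2) * (R ^ 2 / d) := by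
    field_simp
  have e5 : (5 * R) ^ 2 / d = 25 * (R ^ 2 / d) := by ring
  rw [e4, e5]
  gcongr
  have : Real.exp 1 * Real.pi ≤ 2.7182818286 * 3.15 := by gcongr
  linarith

theorem F_le (hd : 0 < d) {κ : ℝ} (hκ : 0 < κ) {A : Fin N → (E d →L[ℝ] ℝ)} (hA : Adm κ A)
    (a : Fin N → ℝ) (hs : 0 < ∑ j, a j) :
    F A a ≤ ENNReal.ofReal ((5 * ((∑ j, a j) / κ) / Real.sqrt d) ^ d * Real.exp (-∑ j, a j)) := by
  unfold F
  rw [ENNReal.ofReal_mul (by positivity)]
  gcongr
  refine le_trans (measure_mono ?_) (ball_vol hd _ (div_pos hs hκ))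
  intro y hy
  rw [mem_closedBall_zero_iff]
  exact hA.norm_le_of_mem hκ hy

theorem F_eq_zero (hd : 0 < d) {κ : ℝ} (hκ : 0 < κ) {A : Fin N → (E d →L[ℝ] ℝ)} (hA : Adm κ A)
    (a : Fin N → ℝ) (hs : ∑ j, a j ≤ 0) : F A a = 0 := by
  unfold F
  have hsub : slabs A a ⊆ {0} := by
    intro y hy
    have h1 := hA.norm_le_of_mem hκ hy
    have h2 : (∑ j, a j) / κ ≤ 0 := div_nonpos_of_nonpos_of_nonneg hs hκ.le
    have h3 : ‖y‖ = 0 := le_antisymm (h1.trans h2) (norm_nonneg _)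
    exact norm_eq_zero.1 h3
  have : Nontrivial (E d) := by
    haveI : Nonempty (Fin d) := ⟨⟨0, hd⟩⟩
    infer_instance
  have h0 : volume (slabs A a) = 0 := measure_mono_null hsub (measure_singleton _)
  rw [h0, zero_mul]

theorem S_le (hd : 0 < d) {κ : ℝ} (hκ : 0 < κ) :
    S N κ d ≤ ENNReal.ofReal ((5 * Real.sqrt d / κ) ^ d) := by
  unfold S
  refine iSup_le fun A => iSup_le fun hA => iSup_le fun a => ?_
  rcases le_or_gt (∑ j, a j) 0 with hs | hs
  · rw [F_eq_zero hd hκ hA a hs]; exact bot_le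
  · refine (F_le hd hκ hA a hs).trans (ENNReal.ofReal_le_ofReal ?_)
    have hd' : (0 : ℝ) < d := by exact_mod_cast hd
    set s := ∑ j, a j
    have e1 : 5 * (s / κ) / Real.sqrt d = (5 * Real.sqrt d / κ) * (s / d) := by
      have : (d : ℝ) = Real.sqrt d * Real.sqrt d := (Real.mul_self_sqrt hd'.le).symm
      field_simp
      rw [Real.sq_sqrt hd'.le]
    have e2 : Real.exp (-s) = (Real.exp (-(s / d))) ^ d := by
      rw [← Real.exp_nat_mul]; congr 1; field_simp
    rw [e1, mul_pow, e2, mul_assoc, ← mul_pow]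
    have h1 : s / d * Real.exp (-(s / d)) ≤ 1 := by
      rw [Real.exp_neg, ← div_eq_mul_inv, div_le_one (Real.exp_pos _)]
      have := Real.add_one_le_exp (s / d)
      linarith
    have h2 : (s / d * Real.exp (-(s / d))) ^ d ≤ 1 := pow_le_one₀ (by positivity) h1
    have h3 : 0 ≤ (5 * Real.sqrt d / κ) ^ d := by positivity
    nlinarith

end Pool.Agent.Helper392.Mey
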