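import Pool.Agent.Helper392.Mey.Sec

set_option autoImplicit false
open MeasureTheory Set Module Filter Topology
open scoped ENNReal Pointwise

namespace Pool.Agent.Helper392.Mey

/-- bodies with bounded sections and with large displacement under translations -/
structure Good {n : ℕ} (K : Set (E n)) (L η : ℝ) : Prop where
  body : IsBody K
  dens : ∀ u : E n, ‖u‖ = 1 → ∀ c b : ℝ, 0 ≤ b →
    volume (K ∩ {x | |inner ℝ x u - c| ≤ b}) ≤ ENNReal.ofReal (2 * b * L) * volume K
  shift : ∀ v : E n, η ≤ ‖v‖ → 2 * volume (K ∩ {x | x - v ∈ K}) ≤ volume K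

theorem IsBody.meas {n : ℕ} {K : Set (E n)} (h : IsBody K) : MeasurableSet K :=
  h.2.1.measurableSet

theorem IsBody.vol_pos {n : ℕ} {K : Set (E n)} (h : IsBody K) : 0 < volume K :=
  (isOpen_interior.measure_pos volume h.2.2.1).trans_le (measure_mono interior_subset)

theorem IsBody.vol_lt_top {n : ℕ} {K : Set (E n)} (h : IsBody K) : volume K < ⊤ :=
  h.2.1.measure_lt_top

theorem IsBody.zero_mem {n : ℕ} {K : Set (E n)} (h : IsBody K) : (0 : E n) ∈ interior K := by
  obtain ⟨x, hx⟩ := h.2.2.1
  have hneg : -x ∈ interior K := by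
    have h1 : (fun y : E n => -y) '' interior K ⊆ interior K := by
      apply interior_maximal
      · rintro _ ⟨y, hy, rfl⟩
        exact h.2.2.2 _ (interior_subset hy)
      · exact (Homeomorph.neg (E n)).isOpenMap _ isOpen_interior
    exact h1 ⟨x, hx, rfl⟩
  have := h.1.interior hx hneg (by norm_num : (0 : ℝ) ≤ 1 / 2) (by norm_num : (0 : ℝ) ≤ 1 / 2)
    (by norm_num)
  convert this using 1
  module

theorem IsBody.exists_ball {n : ℕ} {K : Set (E n)} (h : IsBody K) :
    ∃ r > 0, Metric.closedBall (0 : E n) r ⊆ K := by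
  obtain ⟨r, hr, h1⟩ := Metric.isOpen_iff.1 isOpen_interior 0 h.zero_mem
  refine ⟨r / 2, by positivity, ?_⟩
  intro x hx
  apply interior_subset
  apply h1
  rw [Metric.mem_ball]
  rw [Metric.mem_closedBall] at hx
  linarith

theorem Good.sec_le {k : ℕ} {K : Set (E (k + 1))} {L η : ℝ} (hG : Good K L η)
    {u : E (k + 1)} {T : E k →ₗᵢ[ℝ] E (k + 1)} (h : Par u T) :
    volume {y : E k | T y ∈ K} ≤ ENNReal.ofReal L * volume K := by
  obtain ⟨r, hr, hball⟩ := hG.body.exists_ball
  set s := volume {y : E k | T y ∈ K} with hs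
  have key : ∀ θ : ℝ, 0 < θ → θ < 1 → ENNReal.ofReal ((1 - θ) ^ k) * s ≤
      ENNReal.ofReal L * volume K := by
    intro θ h0 h1
    set b := θ * r with hb
    have hb0 : 0 < b := by positivity
    have hsub : ∀ t ∈ Icc (-b) b, ENNReal.ofReal ((1 - θ) ^ k) * s ≤
        volume {y : E k | T y + t • u ∈ K} := by
      intro t ht
      have e1 : volume ((1 - θ) • {y : E k | T y ∈ K}) = ENNReal.ofReal ((1 - θ) ^ k) * s := by
        rw [Measure.addHaar_smul_of_nonneg _ (by linarith), finrank_euclideanSpace_fin]
      rw [← e1]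
      apply measure_mono
      rintro _ ⟨y, hy, rfl⟩
      change T ((1 - θ) • y) + t • u ∈ K
      have h2 : (t / θ) • u ∈ K := by
        apply hball
        rw [mem_closedBall_zero_iff, norm_smul, h.norm_u, mul_one, Real.norm_eq_abs, abs_div,
          abs_of_pos h0, div_le_iff₀ h0, abs_le]
        constructor
        · have := ht.1; rw [hb] at this; linarith
        · have := ht.2; rw [hb] at this; linarith
      have h3 : T ((1 - θ) • y) + t • u = (1 - θ) • T y + θ • ((t / θ) • u) := by
        rw [map_smul, smul_smul, mul_div_cancel₀ _ h0.ne']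
      rw [h3]
      exact hG.body.1 hy h2 (by linarith) h0.le (by ring)
    have hslab : ENNReal.ofReal (2 * b) * (ENNReal.ofReal ((1 - θ) ^ k) * s) ≤
        volume (K ∩ {x | |inner ℝ x u - 0| ≤ b}) := by
      have hm : MeasurableSet {x : E (k + 1) | |inner ℝ x u - 0| ≤ b} := by
        have : Continuous fun x : E (k + 1) => |inner ℝ x u - 0| := by fun_prop
        exact measurableSet_le this.measurable measurable_const
      rw [h.slice (hG.body.meas.inter hm)]
      calc ENNReal.ofReal (2 * b) * (ENNReal.ofReal ((1 - θ) ^ k) * s)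
          = ∫⁻ t : ℝ, (Icc (-b) b).indicator (fun _ => ENNReal.ofReal ((1 - θ) ^ k) * s) t := by
            rw [lintegral_indicator measurableSet_Icc, lintegral_const,
              Measure.restrict_apply_univ, Real.volume_Icc, mul_comm]
            congr 2
            ring
        _ ≤ _ := by
            apply lintegral_mono
            intro t
            by_cases ht : t ∈ Icc (-b) b
            · rw [indicator_of_mem ht]
              refine (hsub t ht).trans (measure_mono ?_)
              intro y hy
              refine ⟨hy, ?_⟩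
              change |inner ℝ (T y + t • u) u - 0| ≤ b
              rw [inner_add_left, h.inner_T, real_inner_smul_left, real_inner_self_eq_norm_sq,
                h.norm_u, abs_le]
              constructor
              · have := ht.1; linarith
              · have := ht.2; linarith
            · rw [indicator_of_notMem ht]; exact bot_le
    have h4 := hslab.trans (hG.dens u h.norm_u 0 b hb0.le)
    have e4 : ENNReal.ofReal (2 * b * L) = ENNReal.ofReal (2 * b) * ENNReal.ofReal L :=
      ENNReal.ofReal_mul (by positivity)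
    rw [e4, mul_assoc] at h4
    exact (ENNReal.mul_le_mul_iff_right (by simpa using hb0) ENNReal.ofReal_ne_top).1 h4
  have hlim : Tendsto (fun θ : ℝ => ENNReal.ofReal ((1 - θ) ^ k) * s) (𝓝[>] 0) (𝓝 s) := by
    have h1 : Tendsto (fun θ : ℝ => (1 - θ) ^ k) (𝓝[>] 0) (𝓝 1) := by
      have : Tendsto (fun θ : ℝ => (1 - θ) ^ k) (𝓝 0) (𝓝 ((1 - 0) ^ k)) := by
        apply Continuous.tendsto; fun_prop
      simp only [sub_zero, one_pow] at this
      exact this.mono_left nhdsWithin_le_nhds
    have h2 := ENNReal.tendsto_ofReal h1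
    rw [ENNReal.ofReal_one] at h2
    have h3 := ENNReal.Tendsto.mul_const (b := s) h2 (Or.inl one_ne_zero)
    rwa [one_mul] at h3
  refine le_of_tendsto hlim ?_
  have : Ioo (0 : ℝ) 1 ∈ 𝓝[>] (0 : ℝ) := Ioo_mem_nhdsGT one_pos
  filter_upwards [this] with θ hθ
  exact key θ hθ.1 hθ.2

theorem interval_aux {I : Set ℝ} (hc : Convex ℝ I) (hcomp : IsCompact I) (η : ℝ) (hη : 0 ≤ η) :
    volume {t : ℝ | t ∈ I ∧ t - η ∉ I} ≤ ENNReal.ofReal η := by
  rcases I.eq_empty_or_nonempty with h0 | hne
  · subst h0; simp
  · have hmem := hcomp.sInf_mem hne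
    have : {t : ℝ | t ∈ I ∧ t - η ∉ I} ⊆ Ico (sInf I) (sInf I + η) := by
      rintro t ⟨h1, h2⟩
      refine ⟨csInf_le hcomp.bddBelow h1, ?_⟩
      by_contra h3
      rw [not_lt] at h3
      apply h2
      exact hc.ordConnected.out hmem h1 ⟨by linarith, by linarith⟩
    refine (measure_mono this).trans ?_
    rw [Real.volume_Ico]
    apply ENNReal.ofReal_le_ofReal
    linarith

theorem Good.prj_ge {k : ℕ} {K : Set (E (k + 1))} {L η : ℝ} (hη : 0 ≤ η) (hG : Good K L η)
    {u : E (k + 1)} {T : E k →ₗᵢ[ℝ] E (k + 1)} (h : Par u T) (v : E (k + 1)) (hv : ‖v‖ = 1)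
    (huv : inner ℝ v u ≠ 0) :
    volume K ≤ 2 * (ENNReal.ofReal η * volume {y : E k | ∃ t : ℝ, T y + t • v ∈ K}) := by
  have hcl : IsClosed K := hG.body.2.1.isClosed
  have hmK := hG.body.meas
  have hmS : MeasurableSet {x : E (k + 1) | x - η • v ∈ K} := by
    have : Continuous fun x : E (k + 1) => x - η • v := by fun_prop
    exact this.measurable hmK
  have h1 := hG.shift (η • v) (by rw [norm_smul, hv, mul_one, Real.norm_eq_abs, abs_of_nonneg hη])
  set A := K ∩ {x | x - η • v ∈ K} with hA
  set B := K \ {x | x - η • v ∈ K} with hB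
  have h2 : volume A + volume B = volume K := measure_inter_add_sdiff K hmS
  have hfin := hG.body.vol_lt_top
  have hAle : volume A ≤ volume B := by
    have h3 : volume A + volume A ≤ volume A + volume B := by
      rw [h2, ← two_mul]; exact h1
    have hA' : volume A ≠ ⊤ := ((measure_mono inter_subset_left).trans_lt hfin).ne
    exact (ENNReal.add_le_add_iff_left hA').1 h3
  have hK2 : volume K ≤ 2 * volume B := by
    rw [← h2, two_mul]; gcongr
  refine hK2.trans ?_
  gcongr
  rw [h.fiber v huv (hmK.diff hmS)]
  have hle1 : ENNReal.ofReal |inner ℝ v u| ≤ 1 := by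
    rw [← ENNReal.ofReal_one]
    apply ENNReal.ofReal_le_ofReal
    have := abs_real_inner_le_norm v u
    rwa [hv, h.norm_u, mul_one] at this
  calc ENNReal.ofReal |inner ℝ v u| * ∫⁻ y : E k, volume {t : ℝ | T y + t • v ∈
        K \ {x | x - η • v ∈ K}}
      ≤ 1 * ∫⁻ y : E k, ({y : E k | ∃ t : ℝ, T y + t • v ∈ K}).indicator
          (fun _ => ENNReal.ofReal η) y := by
        gcongr with y
        by_cases hy : ∃ t : ℝ, T y + t • v ∈ K
        · rw [indicator_of_mem (show y ∈ {y : E k | ∃ t : ℝ, T y + t • v ∈ K} from hy)]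
          have hv0 : v ≠ 0 := by
            intro h; rw [h, norm_zero] at hv; exact zero_ne_one hv
          have hI : IsCompact {t : ℝ | T y + t • v ∈ K} := by
            have hce : Topology.IsClosedEmbedding (fun t : ℝ => T y + t • v) := by
              have h5 := (ContinuousLinearEquiv.toSpanNonzeroSingleton ℝ v hv0)
              have h6 : Topology.IsClosedEmbedding (fun t : ℝ => t • v) :=
                isClosedEmbedding_smul_left hv0
              exact (Homeomorph.addLeft (T y)).isClosedEmbedding.comp h6
            exact hce.isCompact_preimage hG.body.2.1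
          have hIc : Convex ℝ {t : ℝ | T y + t • v ∈ K} := by
            intro a ha b hb p q hp hq hpq
            have := hG.body.1 ha hb hp hq hpq
            change T y + (p • a + q • b) • v ∈ K
            have hT : p • T y + q • T y = T y := by rw [← add_smul, hpq, one_smul]
            have e5 : T y + (p • a + q • b) • v = p • (T y + a • v) + q • (T y + b • v) := by
              calc T y + (p • a + q • b) • v = (p • T y + q • T y) + (p • a + q • b) • v := by
                    rw [hT]
                _ = _ := by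
                    simp only [smul_eq_mul]
                    module
            rw [e5]
            exact this
          refine le_trans (measure_mono ?_) (interval_aux hIc hI η hη)
          rintro t ⟨ht1, ht2⟩
          refine ⟨ht1, ?_⟩
          intro ht3
          apply ht2
          have e6 : T y + t • v - η • v = T y + (t - η) • v := by module
          change T y + t • v - η • v ∈ K
          rw [e6]
          exact ht3
        · rw [indicator_of_notMem (show y ∉ {y : E k | ∃ t : ℝ, T y + t • v ∈ K} from hy),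
            nonpos_iff_eq_zero]
          convert measure_empty (μ := (volume : Measure ℝ))
          rw [eq_empty_iff_forall_notMem]
          intro t ht
          exact hy ⟨t, ht.1⟩
    _ ≤ _ := by
        rw [one_mul]
        exact lintegral_indicator_const_le _ _

theorem Good.ratio_ge {k : ℕ} {K : Set (E (k + 1))} {L η : ℝ} (hL : 0 < L) (hη : 0 < η)
    (hG : Good K L η) (u v : E (k + 1)) (hu : ‖u‖ = 1) (hv : ‖v‖ = 1) (huv : inner ℝ u v ≠ 0) :
    ENNReal.ofReal (1 / (2 * η * L)) ≤ ratio K u v := by
  obtain ⟨T, h⟩ := exists_par u hu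
  have huv' : inner ℝ v u ≠ 0 := by rwa [real_inner_comm]
  unfold ratio
  rw [show k + 1 - 1 = k from rfl, h.sec, h.prj v huv']
  have h1 := hG.sec_le h
  have h2 := hG.prj_ge hη.le h v hv huv'
  set s := volume {y : E k | T y ∈ K}
  set p := volume {y : E k | ∃ t : ℝ, T y + t • v ∈ K}
  have hp0 : p ≠ 0 := by
    intro h0
    rw [h0, mul_zero, mul_zero] at h2
    exact absurd h2 (not_le.2 hG.body.vol_pos)
  have hs : s ≠ ⊤ := (h1.trans_lt (ENNReal.mul_lt_top ENNReal.ofReal_lt_top
    hG.body.vol_lt_top)).ne
  rw [ENNReal.le_div_iff_mul_le (Or.inr hp0) (Or.inl hs)]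
  calc ENNReal.ofReal (1 / (2 * η * L)) * s ≤ ENNReal.ofReal (1 / (2 * η * L)) *
        (ENNReal.ofReal L * (2 * (ENNReal.ofReal η * p))) := by gcongr; exact h1.trans (by gcongr)
    _ = p := by
        have : (2 : ℝ≥0∞) = ENNReal.ofReal 2 := by simp
        rw [this, ← mul_assoc, ← mul_assoc, ← mul_assoc, ← ENNReal.ofReal_mul (by positivity),
          ← ENNReal.ofReal_mul (by positivity), ← ENNReal.ofReal_mul (by positivity)]
        have e : 1 / (2 * η * L) * L * 2 * η = 1 := by field_simp
        rw [e, ENNReal.ofReal_one, one_mul]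

end Pool.Agent.Helper392.Mey
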