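import Mathlib
set_option autoImplicit false

namespace Pool.Agent.Helper392.Mey

namespace Kash

noncomputable def sg (b : Bool) : ℝ := if b then 1 else -1

noncomputable def ip {n : ℕ} (ε : Fin n → Bool) (y : Fin n → ℝ) : ℝ := ∑ i, sg (ε i) * y i

theorem sg_abs (b : Bool) : |sg b| = 1 := by cases b <;> simp [sg]

theorem sg_sq (b : Bool) : sg b ^ 2 = 1 := by cases b <;> simp [sg]

theorem sum_exp {n : ℕ} (y : Fin n → ℝ) :
    ∑ ε : Fin n → Bool, Real.exp (ip ε y) = ∏ i, (2 * Real.cosh (y i)) := by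
  have h := Finset.prod_univ_sum (fun _ : Fin n => (Finset.univ : Finset Bool))
    (fun i b => Real.exp (sg b * y i))
  rw [Fintype.piFinset_univ] at h
  have e1 : ∀ ε : Fin n → Bool, Real.exp (ip ε y) = ∏ i, Real.exp (sg (ε i) * y i) := by
    intro ε
    rw [ip, Real.exp_sum]
  simp only [e1]
  rw [← h]
  apply Finset.prod_congr rfl
  intro i _
  simp only [Fintype.sum_bool, sg]
  rw [Real.cosh_eq]
  simp only [if_true, if_false, one_mul, neg_mul, Bool.false_eq_true]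
  ring

theorem sum_cos {n : ℕ} (y : Fin n → ℝ) :
    ∑ ε : Fin n → Bool, Real.cos (ip ε y) = ∏ i, (2 * Real.cos (y i)) := by
  have h := Finset.prod_univ_sum (fun _ : Fin n => (Finset.univ : Finset Bool))
    (fun i b => Complex.exp (((sg b * y i : ℝ) : ℂ) * Complex.I))
  rw [Fintype.piFinset_univ] at h
  have e1 : ∀ ε : Fin n → Bool, Complex.exp (((ip ε y : ℝ) : ℂ) * Complex.I) =
      ∏ i, Complex.exp (((sg (ε i) * y i : ℝ) : ℂ) * Complex.I) := by
    intro ε
    rw [← Complex.exp_sum, ← Finset.sum_mul, ip]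
    push_cast
    rfl
  have e2 : ∀ i : Fin n, ∑ b : Bool, Complex.exp (((sg b * y i : ℝ) : ℂ) * Complex.I) =
      ((2 * Real.cos (y i) : ℝ) : ℂ) := by
    intro i
    simp only [Fintype.sum_bool, sg]
    simp only [if_true, if_false, one_mul, neg_mul, Bool.false_eq_true]
    push_cast
    rw [Complex.cos]
    ring_nf
  rw [Finset.prod_congr rfl (fun i _ => e2 i)] at h
  have h3 := congrArg Complex.re h
  rw [← Complex.ofReal_prod, Complex.ofReal_re, Complex.re_sum] at h3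
  rw [h3]
  apply Finset.sum_congr rfl
  intro ε _
  rw [← e1, Complex.exp_ofReal_mul_I_re]

theorem exp_cos (s : ℝ) : Real.exp (-|s|) ≤ 3 / 4 + Real.cos s / 4 := by
  rw [← Real.cos_abs]
  have hs : 0 ≤ |s| := abs_nonneg s
  set t := |s| with ht
  have h1 := Real.quadratic_le_exp_of_nonneg hs
  have h2 : Real.exp (-t) ≤ (1 + t + t ^ 2 / 2)⁻¹ := by
    rw [Real.exp_neg]
    exact inv_anti₀ (by positivity) h1
  refine h2.trans ?_
  rcases le_total t 2 with h | h
  · have h3 := Real.one_sub_sq_div_two_le_cos (x := t)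
    have h4 : (1 + t + t ^ 2 / 2)⁻¹ ≤ 1 - t ^ 2 / 8 := by
      rw [inv_le_comm₀ (by positivity) (by nlinarith)]
      rw [inv_le_iff_one_le_mul₀ (by nlinarith)]
      nlinarith [mul_nonneg hs (sub_nonneg.2 h), mul_nonneg (mul_nonneg hs hs) (sub_nonneg.2 h)]
    linarith
  · have h3 := Real.neg_one_le_cos t
    have h4 : (1 + t + t ^ 2 / 2)⁻¹ ≤ 1 / 2 := by
      rw [inv_le_comm₀ (by positivity) (by norm_num)]
      nlinarith
    linarith

theorem prod_cos {n : ℕ} (y : Fin n → ℝ) (h : ∑ i, y i ^ 2 = 1) :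
    ∏ i, (2 * Real.cos (y i)) ≤ 2 ^ n * (82 / 100) := by
  have hy : ∀ i, |y i| ≤ 1 := by
    intro i
    have : y i ^ 2 ≤ 1 := by
      rw [← h]
      exact Finset.single_le_sum (f := fun i => y i ^ 2) (fun i _ => sq_nonneg _) (Finset.mem_univ i)
    exact abs_le_one_iff_mul_self_le_one.2 (by nlinarith)
  have hpi : (3:ℝ) < Real.pi := Real.pi_gt_three
  have hpi2 : Real.pi < 3.15 := Real.pi_lt_d2
  have hc : ∀ i, Real.cos (y i) ≤ Real.exp (-(y i ^ 2) / 5) := by
    intro i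
    have h1 := Real.cos_le_one_sub_mul_cos_sq (x := y i) (by linarith [hy i])
    have h2 : Real.cos (y i) ≤ 1 - y i ^ 2 / 5 := by
      refine h1.trans ?_
      have : (1:ℝ) / 5 ≤ 2 / Real.pi ^ 2 := by
        rw [div_le_div_iff₀ (by norm_num) (by positivity)]
        nlinarith
      nlinarith [sq_nonneg (y i)]
    refine h2.trans ?_
    have := Real.add_one_le_exp (-(y i ^ 2) / 5)
    linarith
  have hc0 : ∀ i, 0 ≤ Real.cos (y i) := by
    intro i
    have := abs_le.1 (hy i)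
    exact Real.cos_nonneg_of_neg_pi_div_two_le_of_le (by linarith) (by linarith)
  calc ∏ i, (2 * Real.cos (y i)) ≤ ∏ i, (2 * Real.exp (-(y i ^ 2) / 5)) := by
        apply Finset.prod_le_prod
        · intro i _; have := hc0 i; positivity
        · intro i _; have := hc i; linarith
    _ = 2 ^ n * Real.exp (-1 / 5) := by
        rw [Finset.prod_mul_distrib, Finset.prod_const, Finset.card_univ, Fintype.card_fin,
          ← Real.exp_sum, ← Finset.sum_div, Finset.sum_neg_distrib, h]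
    _ ≤ _ := by
        have h1 := Real.quadratic_le_exp_of_nonneg (x := 1/5) (by norm_num)
        have h2 : Real.exp (-1/5) = (Real.exp (1/5))⁻¹ := by rw [← Real.exp_neg]; congr 1; ring
        have h3 : Real.exp (-1/5) ≤ 82 / 100 := by
          rw [h2, inv_le_comm₀ (Real.exp_pos _) (by norm_num)]
          refine le_trans ?_ h1
          norm_num
        gcongr

theorem lower1 {n : ℕ} (y : Fin n → ℝ) (h : ∑ i, y i ^ 2 = 1) :
    ∑ ε : Fin n → Bool, Real.exp (-|ip ε y|) ≤ 191 / 200 * 2 ^ n := by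
  calc ∑ ε : Fin n → Bool, Real.exp (-|ip ε y|) ≤ ∑ ε : Fin n → Bool, (3 / 4 + Real.cos (ip ε y) / 4) :=
        Finset.sum_le_sum fun ε _ => exp_cos _
    _ = 3 / 4 * 2 ^ n + (∏ i, (2 * Real.cos (y i))) / 4 := by
        rw [Finset.sum_add_distrib, Finset.sum_const, ← Finset.sum_div, sum_cos]
        simp
        ring
    _ ≤ 3 / 4 * 2 ^ n + (2 ^ n * (82 / 100)) / 4 := by
        have := prod_cos y h
        linarith
    _ = 191 / 200 * 2 ^ n := by ring

theorem upper1 {n : ℕ} (y : Fin n → ℝ) (h : ∑ i, y i ^ 2 = 1) :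
    ∑ ε : Fin n → Bool, Real.exp (|ip ε y|) ≤ 7 / 2 * 2 ^ n := by
  have hcosh : ∀ z : Fin n → ℝ, ∑ i, z i ^ 2 = 1 → ∏ i, (2 * Real.cosh (z i)) ≤ 2 ^ n * (7 / 4) := by
    intro z hz
    calc ∏ i, (2 * Real.cosh (z i)) ≤ ∏ i, (2 * Real.exp (z i ^ 2 / 2)) := by
          apply Finset.prod_le_prod
          · intro i _; have := Real.cosh_pos (z i); positivity
          · intro i _; have := Real.cosh_le_exp_half_sq (z i); linarith
      _ = 2 ^ n * Real.exp (1 / 2) := by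
          rw [Finset.prod_mul_distrib, Finset.prod_const, Finset.card_univ, Fintype.card_fin,
            ← Real.exp_sum, ← Finset.sum_div, hz]
      _ ≤ _ := by
          have h2 : Real.exp (1/2) ≤ 7 / 4 := by
            have h3 : Real.exp (1/2) * Real.exp (1/2) = Real.exp 1 := by
              rw [← Real.exp_add]; norm_num
            have h4 := Real.exp_one_lt_d9
            have h5 := Real.exp_pos (1/2)
            by_contra hc
            push Not at hc
            nlinarith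
          gcongr
  have hneg : ∀ ε : Fin n → Bool, ip ε (fun i => - y i) = - ip ε y := by
    intro ε; simp [ip]
  calc ∑ ε : Fin n → Bool, Real.exp (|ip ε y|) ≤
        ∑ ε : Fin n → Bool, (Real.exp (ip ε y) + Real.exp (ip ε (fun i => - y i))) := by
        apply Finset.sum_le_sum
        intro ε _
        rw [hneg]
        rcases abs_cases (ip ε y) with ⟨h1, _⟩ | ⟨h1, _⟩
        · rw [h1]; linarith [Real.exp_pos (-ip ε y)]
        · rw [h1]; linarith [Real.exp_pos (ip ε y)]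
    _ = ∏ i, (2 * Real.cosh (y i)) + ∏ i, (2 * Real.cosh (- y i)) := by
        rw [Finset.sum_add_distrib, sum_exp, sum_exp]
    _ ≤ 2 ^ n * (7 / 4) + 2 ^ n * (7 / 4) := add_le_add (hcosh y h) (hcosh _ (by simpa using h))
    _ = 7 / 2 * 2 ^ n := by ring


noncomputable def gg {n N : ℕ} (ω : Fin N → Fin n → Bool) (y : Fin n → ℝ) : ℝ := ∑ j, |ip (ω j) y|

theorem ip_smul {n : ℕ} (ε : Fin n → Bool) (c : ℝ) (y : Fin n → ℝ) : ip ε (fun i => c * y i) = c * ip ε y := by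
  unfold ip
  rw [Finset.mul_sum]
  exact Finset.sum_congr rfl fun i _ => by ring

theorem ip_add {n : ℕ} (ε : Fin n → Bool) (x y : Fin n → ℝ) :
    ip ε (fun i => x i + y i) = ip ε x + ip ε y := by
  unfold ip
  rw [← Finset.sum_add_distrib]
  exact Finset.sum_congr rfl fun i _ => by ring

theorem gg_smul {n N : ℕ} (ω : Fin N → Fin n → Bool) (c : ℝ) (y : Fin n → ℝ) :
    gg ω (fun i => c * y i) = |c| * gg ω y := by
  unfold gg
  rw [Finset.mul_sum]
  exact Finset.sum_congr rfl fun i _ => by rw [ip_smul, abs_mul]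

theorem gg_add {n N : ℕ} (ω : Fin N → Fin n → Bool) (x y : Fin n → ℝ) :
    gg ω (fun i => x i + y i) ≤ gg ω x + gg ω y := by
  unfold gg
  rw [← Finset.sum_add_distrib]
  exact Finset.sum_le_sum fun i _ => by rw [ip_add]; exact abs_add_le _ _

theorem gg_nonneg {n N : ℕ} (ω : Fin N → Fin n → Bool) (y : Fin n → ℝ) : 0 ≤ gg ω y :=
  Finset.sum_nonneg fun _ _ => abs_nonneg _

theorem cnt_low {n N : ℕ} (y : Fin n → ℝ) (h : ∑ i, y i ^ 2 = 1) :
    (((Finset.univ : Finset (Fin N → Fin n → Bool)).filter fun ω => gg ω y ≤ N / 64).card : ℝ) ≤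
      (49 / 50) ^ N * (2 ^ n) ^ N := by
  classical
  have h1 : (∑ ε : Fin n → Bool, Real.exp (-|ip ε y|)) ^ N =
      ∑ ω : Fin N → Fin n → Bool, Real.exp (-gg ω y) := by
    rw [Fintype.sum_pow]
    apply Finset.sum_congr rfl
    intro ω _
    rw [← Real.exp_sum, gg, Finset.sum_neg_distrib]
  have h2 : (((Finset.univ : Finset (Fin N → Fin n → Bool)).filter fun ω => gg ω y ≤ N / 64).card : ℝ) *
      Real.exp (-(N / 64 : ℝ)) ≤ ∑ ω : Fin N → Fin n → Bool, Real.exp (-gg ω y) := by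
    rw [← nsmul_eq_mul, ← Finset.sum_const]
    refine le_trans (Finset.sum_le_sum (g := fun ω => Real.exp (-gg ω y)) ?_)
      (Finset.sum_le_univ_sum_of_nonneg fun ω => (Real.exp_pos _).le)
    intro ω hω
    rw [Finset.mem_filter] at hω
    apply Real.exp_le_exp.2
    linarith [hω.2]
  have h3 : (∑ ε : Fin n → Bool, Real.exp (-|ip ε y|)) ^ N ≤ (191 / 200 * 2 ^ n) ^ N := by
    apply pow_le_pow_left₀ (Finset.sum_nonneg fun _ _ => (Real.exp_pos _).le) (lower1 y h)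
  have h4 : Real.exp (1 / 64) ≤ 64 / 63 := by
    have := Real.add_one_le_exp (-(1/64 : ℝ))
    rw [Real.exp_neg] at this
    have hp := Real.exp_pos (1/64)
    rw [le_inv_comm₀ (by norm_num) hp] at this
    refine this.trans (by norm_num)
  have h5 : Real.exp (-(N / 64 : ℝ)) = (Real.exp (1/64) ^ N)⁻¹ := by
    rw [← Real.exp_nat_mul, ← Real.exp_neg]
    congr 1; ring
  rw [h5, ← h1] at h2
  have h6 := h2.trans h3
  rw [← div_eq_mul_inv, div_le_iff₀ (by positivity)] at h6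
  refine h6.trans ?_
  rw [← mul_pow, ← mul_pow]
  apply pow_le_pow_left₀ (by positivity)
  have h7 : (0:ℝ) < 2 ^ n := by positivity
  nlinarith

theorem cnt_up {n N : ℕ} (y : Fin n → ℝ) (h : ∑ i, y i ^ 2 = 1) :
    (((Finset.univ : Finset (Fin N → Fin n → Bool)).filter fun ω => 4 * N ≤ gg ω y).card : ℝ) ≤
      (49 / 50) ^ N * (2 ^ n) ^ N := by
  classical
  have h1 : (∑ ε : Fin n → Bool, Real.exp (|ip ε y|)) ^ N =
      ∑ ω : Fin N → Fin n → Bool, Real.exp (gg ω y) := by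
    rw [Fintype.sum_pow]
    apply Finset.sum_congr rfl
    intro ω _
    rw [← Real.exp_sum, gg]
  have h2 : (((Finset.univ : Finset (Fin N → Fin n → Bool)).filter fun ω => 4 * N ≤ gg ω y).card : ℝ) *
      Real.exp (4 * N : ℝ) ≤ ∑ ω : Fin N → Fin n → Bool, Real.exp (gg ω y) := by
    rw [← nsmul_eq_mul, ← Finset.sum_const]
    refine le_trans (Finset.sum_le_sum (g := fun ω => Real.exp (gg ω y)) ?_)
      (Finset.sum_le_univ_sum_of_nonneg fun ω => (Real.exp_pos _).le)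
    intro ω hω
    rw [Finset.mem_filter] at hω
    apply Real.exp_le_exp.2
    linarith [hω.2]
  have h3 : (∑ ε : Fin n → Bool, Real.exp (|ip ε y|)) ^ N ≤ (7 / 2 * 2 ^ n) ^ N := by
    apply pow_le_pow_left₀ (Finset.sum_nonneg fun _ _ => (Real.exp_pos _).le) (upper1 y h)
  have h4 : 5 ≤ Real.exp 4 := by
    have := Real.add_one_le_exp (4 : ℝ)
    linarith
  have h5 : Real.exp (4 * N : ℝ) = (Real.exp 4 ^ N) := by
    rw [← Real.exp_nat_mul]
    congr 1; ring
  rw [h5, ← h1] at h2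
  have h6 := h2.trans h3
  have h7 : (0:ℝ) < 2 ^ n := by positivity
  have h8 : (7 / 2 * 2 ^ n : ℝ) ≤ (49 / 50 * 2 ^ n) * Real.exp 4 := by
    nlinarith
  have h9 : (7 / 2 * 2 ^ n : ℝ) ^ N ≤ ((49 / 50 * 2 ^ n) * Real.exp 4) ^ N :=
    pow_le_pow_left₀ (by positivity) h8 N
  rw [mul_pow _ (Real.exp 4)] at h9
  have h10 := h6.trans h9
  have h11 := le_of_mul_le_mul_right h10 (by positivity)
  rw [← mul_pow]
  exact h11

/-- the Euclidean size -/
noncomputable def rho {n : ℕ} (y : Fin n → ℝ) : ℝ := Real.sqrt (∑ i, y i ^ 2)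

theorem bad_cnt {n N : ℕ} (y : Fin n → ℝ) (h : 0 < rho y) :
    (((Finset.univ : Finset (Fin N → Fin n → Bool)).filter
      fun ω => gg ω y ≤ N / 64 * rho y ∨ 4 * N * rho y ≤ gg ω y).card : ℝ) ≤
      2 * ((49 / 50) ^ N * (2 ^ n) ^ N) := by
  classical
  set x : Fin n → ℝ := fun i => (rho y)⁻¹ * y i with hx
  have hx1 : ∑ i, x i ^ 2 = 1 := by
    have : ∑ i, x i ^ 2 = (rho y)⁻¹ ^ 2 * ∑ i, y i ^ 2 := by
      rw [Finset.mul_sum]
      exact Finset.sum_congr rfl fun i _ => by rw [hx]; ring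
    have h2 : ∑ i, y i ^ 2 = rho y ^ 2 := by
      rw [rho, Real.sq_sqrt (Finset.sum_nonneg fun i _ => sq_nonneg _)]
    rw [this, h2, inv_pow, inv_mul_cancel₀ (by positivity)]
  have hg : ∀ ω : Fin N → Fin n → Bool, gg ω y = rho y * gg ω x := by
    intro ω
    rw [hx, gg_smul, abs_of_pos (by positivity), ← mul_assoc, mul_inv_cancel₀ h.ne', one_mul]
  have hsub : ((Finset.univ : Finset (Fin N → Fin n → Bool)).filter
      fun ω => gg ω y ≤ N / 64 * rho y ∨ 4 * N * rho y ≤ gg ω y) ⊆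
      ((Finset.univ : Finset (Fin N → Fin n → Bool)).filter fun ω => gg ω x ≤ N / 64) ∪
      ((Finset.univ : Finset (Fin N → Fin n → Bool)).filter fun ω => 4 * N ≤ gg ω x) := by
    intro ω hω
    rw [Finset.mem_filter] at hω
    rw [Finset.mem_union, Finset.mem_filter, Finset.mem_filter]
    rcases hω.2 with h1 | h1
    · left
      refine ⟨Finset.mem_univ _, ?_⟩
      rw [hg, mul_comm] at h1
      exact le_of_mul_le_mul_right h1 h
    · right
      refine ⟨Finset.mem_univ _, ?_⟩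
      rw [hg, mul_comm (rho y)] at h1
      exact le_of_mul_le_mul_right h1 h
  have h1 := (Finset.card_le_card hsub).trans (Finset.card_union_le _ _)
  have h2 : (((Finset.univ : Finset (Fin N → Fin n → Bool)).filter
      fun ω => gg ω y ≤ N / 64 * rho y ∨ 4 * N * rho y ≤ gg ω y).card : ℝ) ≤
      (((Finset.univ : Finset (Fin N → Fin n → Bool)).filter fun ω => gg ω x ≤ N / 64).card : ℝ) +
      (((Finset.univ : Finset (Fin N → Fin n → Bool)).filter fun ω => 4 * N ≤ gg ω x).card : ℝ) := by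
    exact_mod_cast h1
  have h3 := cnt_low (N := N) x hx1
  have h4 := cnt_up (N := N) x hx1
  linarith

theorem sum_half (M : ℕ) : ∑ m ∈ Finset.Icc (-(M:ℤ)) M, ((1:ℝ)/2) ^ m.natAbs ≤ 4 := by
  classical
  have hsub : Finset.Icc (-(M:ℤ)) M ⊆ (Finset.range (M+1)).image (fun k : ℕ => (k:ℤ)) ∪
      (Finset.range (M+1)).image (fun k : ℕ => -(k:ℤ)) := by
    intro m hm
    rw [Finset.mem_Icc] at hm
    rw [Finset.mem_union, Finset.mem_image, Finset.mem_image]
    rcases le_total 0 m with h | h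
    · left
      exact ⟨m.natAbs, Finset.mem_range.2 (by omega), by omega⟩
    · right
      exact ⟨m.natAbs, Finset.mem_range.2 (by omega), by omega⟩
  have hnn : ∀ m : ℤ, 0 ≤ ((1:ℝ)/2) ^ m.natAbs := fun m => by positivity
  have h1 := Finset.sum_le_sum_of_subset_of_nonneg (f := fun m : ℤ => ((1:ℝ)/2) ^ m.natAbs) hsub
    (fun m _ _ => hnn m)
  have h2 := Finset.sum_union_inter (s₁ := (Finset.range (M+1)).image (fun k : ℕ => (k:ℤ)))
    (s₂ := (Finset.range (M+1)).image (fun k : ℕ => -(k:ℤ))) (f := fun m : ℤ => ((1:ℝ)/2) ^ m.natAbs)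
  have h3 : 0 ≤ ∑ m ∈ (Finset.range (M+1)).image (fun k : ℕ => (k:ℤ)) ∩
      (Finset.range (M+1)).image (fun k : ℕ => -(k:ℤ)), ((1:ℝ)/2) ^ m.natAbs :=
    Finset.sum_nonneg fun m _ => hnn m
  rw [Finset.sum_image (fun a _ b _ h => by simpa using h),
    Finset.sum_image (fun a _ b _ h => by simpa using h)] at h2
  simp only [Int.natAbs_natCast, Int.natAbs_neg] at h2
  have h4 := sum_geometric_two_le (M + 1)
  linarith

/-- the net -/
noncomputable def Net (n M : ℕ) : Finset (Fin n → ℤ) :=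
  (Fintype.piFinset fun _ : Fin n => Finset.Icc (-(M:ℤ)) M).filter
    fun z => ∑ i, z i ^ 2 ≤ (M : ℤ) ∧ 0 < ∑ i, z i ^ 2

theorem mem_Net {n M : ℕ} (z : Fin n → ℤ) (h : ∑ i, z i ^ 2 ≤ (M : ℤ)) (h0 : 0 < ∑ i, z i ^ 2) :
    z ∈ Net n M := by
  rw [Net, Finset.mem_filter, Fintype.mem_piFinset]
  refine ⟨fun i => ?_, h, h0⟩
  have h1 : z i ^ 2 ≤ ∑ i, z i ^ 2 :=
    Finset.single_le_sum (f := fun i => z i ^ 2) (fun i _ => sq_nonneg _) (Finset.mem_univ i)
  rw [Finset.mem_Icc]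
  constructor
  · nlinarith [sq_nonneg (z i + 1), sq_nonneg (z i)]
  · nlinarith [sq_nonneg (z i - 1), sq_nonneg (z i)]

theorem card_Net (n R : ℕ) : ((Net n (R * n)).card : ℝ) ≤ (4 * 2 ^ R) ^ n := by
  classical
  set M := R * n with hM
  have h1 : ((Net n M).card : ℝ) ≤
      ∑ z ∈ Fintype.piFinset fun _ : Fin n => Finset.Icc (-(M:ℤ)) M,
        ∏ i, ((2:ℝ) ^ R * (1/2) ^ (z i).natAbs) := by
    have h2 : ((Net n M).card : ℝ) = ∑ z ∈ Net n M, (1:ℝ) := by simp
    rw [h2]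
    refine le_trans (Finset.sum_le_sum (g := fun z => ∏ i, ((2:ℝ) ^ R * (1/2) ^ (z i).natAbs)) ?_)
      (Finset.sum_le_sum_of_subset_of_nonneg (Finset.filter_subset _ _) fun z _ _ => by positivity)
    intro z hz
    rw [Net, Finset.mem_filter] at hz
    have h3 : ∑ i, (z i).natAbs ≤ M := by
      have h4 : ∀ i, ((z i).natAbs : ℤ) ≤ z i ^ 2 := by
        intro i
        have : z i ^ 2 = ((z i).natAbs : ℤ) ^ 2 := (Int.natAbs_sq _).symm
        rw [this]
        have h5 : (0:ℤ) ≤ ((z i).natAbs : ℤ) := by positivity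
        nlinarith [Int.natCast_nonneg (z i).natAbs, sq_nonneg (((z i).natAbs : ℤ) - 1),
          (by
            rcases Nat.eq_zero_or_pos (z i).natAbs with h | h
            · rw [h]; norm_num
            · have : (1:ℤ) ≤ ((z i).natAbs : ℤ) := by exact_mod_cast h
              nlinarith : ((z i).natAbs : ℤ) ≤ ((z i).natAbs : ℤ) ^ 2)]
      have h5 : ((∑ i, (z i).natAbs : ℕ) : ℤ) ≤ M := by
        push_cast
        calc ∑ i, |z i| = ∑ i, ((z i).natAbs : ℤ) := by simp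
          _ ≤ ∑ i, z i ^ 2 := Finset.sum_le_sum fun i _ => h4 i
          _ ≤ M := hz.2.1
      exact_mod_cast h5
    rw [Finset.prod_mul_distrib, Finset.prod_const, Finset.card_univ, Fintype.card_fin, ← pow_mul,
      Finset.prod_pow_eq_pow_sum, ← hM]
    rw [one_div, inv_pow, ← div_eq_mul_inv, le_div_iff₀ (by positivity), one_mul]
    exact pow_le_pow_right₀ (by norm_num) h3
  refine h1.trans ?_
  rw [← Finset.prod_univ_sum (fun _ : Fin n => Finset.Icc (-(M:ℤ)) M)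
    (fun _ m => (2:ℝ) ^ R * (1/2) ^ m.natAbs)]
  rw [Finset.prod_const, Finset.card_univ, Fintype.card_fin]
  apply pow_le_pow_left₀ (Finset.sum_nonneg fun _ _ => by positivity)
  rw [← Finset.mul_sum]
  have := sum_half M
  have h2 : (0:ℝ) < 2 ^ R := by positivity
  nlinarith

theorem good_omega (n R N₀ : ℕ) (hn : 1 ≤ n) (hN : (4 * 2 ^ R : ℝ) * (49 / 50) ^ N₀ ≤ 1 / 4) :
    ∃ ω : Fin (N₀ * n) → Fin n → Bool, ∀ z ∈ Net n (R * n),
      ((N₀ * n : ℕ) : ℝ) / 64 * rho (fun i => (z i : ℝ)) < gg ω (fun i => (z i : ℝ)) ∧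
      gg ω (fun i => (z i : ℝ)) < 4 * ((N₀ * n : ℕ) : ℝ) * rho (fun i => (z i : ℝ)) := by
  classical
  by_contra hc
  push Not at hc
  set N := N₀ * n with hNd
  have hrho : ∀ z ∈ Net n (R * n), 0 < rho (fun i => (z i : ℝ)) := by
    intro z hz
    rw [Net, Finset.mem_filter] at hz
    unfold rho
    apply Real.sqrt_pos.2
    have h9 : (0:ℝ) < ∑ i, ((z i : ℤ) : ℝ) ^ 2 := by exact_mod_cast hz.2.2
    exact h9
  have hcov : (Finset.univ : Finset (Fin N → Fin n → Bool)) ⊆ (Net n (R * n)).biUnion fun z =>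
      (Finset.univ : Finset (Fin N → Fin n → Bool)).filter fun ω =>
        gg ω (fun i => (z i : ℝ)) ≤ N / 64 * rho (fun i => (z i : ℝ)) ∨
        4 * N * rho (fun i => (z i : ℝ)) ≤ gg ω (fun i => (z i : ℝ)) := by
    intro ω _
    obtain ⟨z, hz, h1⟩ := hc ω
    rw [Finset.mem_biUnion]
    refine ⟨z, hz, ?_⟩
    rw [Finset.mem_filter]
    refine ⟨Finset.mem_univ _, ?_⟩
    by_cases h2 : (N:ℝ) / 64 * rho (fun i => (z i : ℝ)) < gg ω (fun i => (z i : ℝ))
    · exact Or.inr (h1 h2)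
    · exact Or.inl (not_lt.1 h2)
  have h1 := (Finset.card_le_card hcov).trans Finset.card_biUnion_le
  have h2 : ((Finset.univ : Finset (Fin N → Fin n → Bool)).card : ℝ) ≤
      ∑ z ∈ Net n (R * n), 2 * ((49 / 50) ^ N * (2 ^ n) ^ N : ℝ) := by
    have h3 : ((Finset.univ : Finset (Fin N → Fin n → Bool)).card : ℝ) ≤ ∑ z ∈ Net n (R * n),
      (((Finset.univ : Finset (Fin N → Fin n → Bool)).filter fun ω =>
        gg ω (fun i => (z i : ℝ)) ≤ N / 64 * rho (fun i => (z i : ℝ)) ∨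
        4 * N * rho (fun i => (z i : ℝ)) ≤ gg ω (fun i => (z i : ℝ))).card : ℝ) := by
      exact_mod_cast h1
    exact h3.trans (Finset.sum_le_sum fun z hz => bad_cnt _ (hrho z hz))
  rw [Finset.sum_const, nsmul_eq_mul] at h2
  have h3 : ((Finset.univ : Finset (Fin N → Fin n → Bool)).card : ℝ) = (2 ^ n) ^ N := by
    rw [Finset.card_univ]
    simp
  rw [h3] at h2
  have h4 := card_Net n R
  have hpos : (0:ℝ) < (2 ^ n) ^ N := by positivity
  have h5 : ((Net n (R * n)).card : ℝ) * (2 * ((49 / 50) ^ N * (2 ^ n) ^ N)) ≤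
      (4 * 2 ^ R) ^ n * (2 * ((49 / 50) ^ N * (2 ^ n) ^ N)) := by gcongr
  have h6 : ((4 * 2 ^ R : ℝ)) ^ n * (2 * ((49 / 50) ^ N * (2 ^ n) ^ N)) =
      2 * ((4 * 2 ^ R) * (49 / 50) ^ N₀) ^ n * (2 ^ n) ^ N := by
    rw [mul_pow _ ((49/50 : ℝ) ^ N₀), ← pow_mul (49/50 : ℝ) N₀ n, ← hNd]
    ring
  have h7 : (((4 * 2 ^ R : ℝ)) * (49 / 50) ^ N₀) ^ n ≤ 1 / 4 := by
    calc (((4 * 2 ^ R : ℝ)) * (49 / 50) ^ N₀) ^ n ≤ (1/4) ^ n := pow_le_pow_left₀ (by positivity) hN n
      _ ≤ (1/4) ^ 1 := pow_le_pow_of_le_one (by norm_num) (by norm_num) hn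
      _ = 1/4 := by norm_num
  nlinarith

theorem rho_eq {n : ℕ} (y : EuclideanSpace ℝ (Fin n)) : rho (fun i => y i) = ‖y‖ := by
  rw [rho, EuclideanSpace.norm_eq]
  simp

theorem gg_cont {n N : ℕ} (ω : Fin N → Fin n → Bool) :
    Continuous fun y : EuclideanSpace ℝ (Fin n) => gg ω (fun i => y i) := by
  unfold gg ip
  fun_prop

theorem geom (n N R q : ℕ) (hn : 1 ≤ n) (hq : 2048 ≤ q) (hR : (q + 1) ^ 2 ≤ R)
    (ω : Fin N → Fin n → Bool)
    (hω : ∀ z ∈ Net n (R * n),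
      (N : ℝ) / 64 * rho (fun i => (z i : ℝ)) < gg ω (fun i => (z i : ℝ)) ∧
      gg ω (fun i => (z i : ℝ)) < 4 * (N : ℝ) * rho (fun i => (z i : ℝ)))
    (y : EuclideanSpace ℝ (Fin n)) : (N : ℝ) / 128 * ‖y‖ ≤ gg ω (fun i => y i) := by
  have hqR : (2048:ℝ) ≤ q := by exact_mod_cast hq
  have hq0 : (0:ℝ) < q := by linarith
  have hn0 : (0:ℝ) < n := by exact_mod_cast hn
  have hN0 : (0:ℝ) ≤ N := Nat.cast_nonneg _
  set g : EuclideanSpace ℝ (Fin n) → ℝ := fun y => gg ω (fun i => y i) with hg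
  have gsmul : ∀ (c : ℝ) (x : EuclideanSpace ℝ (Fin n)), g (c • x) = |c| * g x := by
    intro c x
    simp only [hg]
    rw [← gg_smul]
    rfl
  have gadd : ∀ x x' : EuclideanSpace ℝ (Fin n), g (x + x') ≤ g x + g x' := by
    intro x x'
    exact gg_add ω _ _
  have gnn : ∀ x, 0 ≤ g x := fun x => gg_nonneg ω _
  -- the maximum on the sphere
  have hne : (Metric.sphere (0 : EuclideanSpace ℝ (Fin n)) 1).Nonempty := by
    refine ⟨EuclideanSpace.single (⟨0, hn⟩ : Fin n) (1:ℝ), ?_⟩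
    simp
  obtain ⟨y₀, hy₀, hmax⟩ := (isCompact_sphere (0 : EuclideanSpace ℝ (Fin n)) 1).exists_isMaxOn hne
    (gg_cont ω).continuousOn
  have hy₀1 : ‖y₀‖ = 1 := by simpa using hy₀
  set G := g y₀ with hG
  have hGx : ∀ x : EuclideanSpace ℝ (Fin n), g x ≤ G * ‖x‖ := by
    intro x
    by_cases hx : x = 0
    · have : g x = 0 := by
        have := gsmul 0 x
        rw [zero_smul, abs_zero, zero_mul] at this
        rw [hx, this]
      rw [this, hx]; simp
    · have hx0 : 0 < ‖x‖ := norm_pos_iff.2 hx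
      have h1 : ‖x‖⁻¹ • x ∈ Metric.sphere (0 : EuclideanSpace ℝ (Fin n)) 1 := by
        rw [mem_sphere_zero_iff_norm, norm_smul, norm_inv, norm_norm, inv_mul_cancel₀ hx0.ne']
      have h2 : g (‖x‖⁻¹ • x) ≤ G := hmax h1
      rw [gsmul, abs_of_pos (by positivity)] at h2
      rw [inv_mul_le_iff₀ hx0] at h2
      linarith
  -- rounding
  have round : ∀ y : EuclideanSpace ℝ (Fin n), ‖y‖ = 1 → ∃ w e : EuclideanSpace ℝ (Fin n),
      y = w + e ∧ ‖e‖ ≤ 1 / (2 * q) ∧ (N : ℝ) / 64 * ‖w‖ ≤ g w ∧ g w ≤ 4 * N * ‖w‖ := by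
    intro y hy
    set s : ℝ := q * Real.sqrt n with hs
    have hs0 : 0 < s := by positivity
    have hs2 : s ^ 2 = q ^ 2 * n := by rw [hs, mul_pow, Real.sq_sqrt hn0.le]
    set z : Fin n → ℤ := fun i => _root_.round (s * y i) with hz
    set w : EuclideanSpace ℝ (Fin n) := WithLp.toLp 2 (fun i => s⁻¹ * (z i : ℝ)) with hw
    have hwi : ∀ i, w i = s⁻¹ * (z i : ℝ) := fun i => rfl
    set e := y - w with he
    have hei : ∀ i, |e i| ≤ 1 / (2 * s) := by
      intro i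
      have h1 : e i = y i - s⁻¹ * (z i : ℝ) := rfl
      have h2 : e i = s⁻¹ * (s * y i - (z i : ℝ)) := by
        rw [h1]; field_simp
      rw [h2, abs_mul, abs_of_pos (by positivity : 0 < s⁻¹)]
      have h3 := abs_sub_round (s * y i)
      calc s⁻¹ * |s * y i - (z i : ℝ)| ≤ s⁻¹ * (1/2) := by gcongr
        _ = 1 / (2 * s) := by field_simp
    have hen : ‖e‖ ≤ 1 / (2 * q) := by
      have h1 : ‖e‖ ^ 2 ≤ (1 / (2 * q)) ^ 2 := by
        rw [EuclideanSpace.real_norm_sq_eq]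
        calc ∑ i, e i ^ 2 ≤ ∑ _i : Fin n, (1 / (2 * s)) ^ 2 := by
              apply Finset.sum_le_sum
              intro i _
              rw [← sq_abs]
              exact pow_le_pow_left₀ (abs_nonneg _) (hei i) 2
          _ = (1 / (2 * q)) ^ 2 := by
              rw [Finset.sum_const, Finset.card_univ, Fintype.card_fin, nsmul_eq_mul, div_pow, mul_pow,
                hs2]
              field_simp
      exact abs_le_of_sq_le_sq' h1 (by positivity) |>.2
    have hq2 : 1 / (2 * (q:ℝ)) ≤ 1 / 4096 := by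
      apply one_div_le_one_div_of_le (by norm_num)
      linarith
    have hw1 : ‖w‖ ≤ 1 + 1 / (2 * q) := by
      have : w = y - e := by rw [he]; abel
      rw [this]
      refine (norm_sub_le _ _).trans ?_
      linarith
    have hw2 : 1 - 1 / (2 * q) ≤ ‖w‖ := by
      have : ‖y‖ ≤ ‖w‖ + ‖e‖ := by
        have h5 : y = w + e := by rw [he]; abel
        calc ‖y‖ = ‖w + e‖ := by rw [← h5]
          _ ≤ _ := norm_add_le _ _
      linarith
    have hw0 : 0 < ‖w‖ := by linarith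
    have hzw : ∑ i, ((z i : ℤ) : ℝ) ^ 2 = s ^ 2 * ‖w‖ ^ 2 := by
      rw [EuclideanSpace.real_norm_sq_eq, Finset.mul_sum]
      apply Finset.sum_congr rfl
      intro i _
      rw [hwi]
      have h0 : s ≠ 0 := hs0.ne'
      clear_value s
      field_simp
    have hmem : z ∈ Net n (R * n) := by
      apply mem_Net
      · have h1 : ∑ i, ((z i : ℤ) : ℝ) ^ 2 ≤ ((R * n : ℕ) : ℝ) := by
          rw [hzw, hs2]
          have h2 : ((q:ℝ) + 1) ^ 2 ≤ R := by exact_mod_cast hR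
          have h3 : (q:ℝ) ^ 2 * ‖w‖ ^ 2 ≤ (q + 1) ^ 2 := by
            rw [← mul_pow]
            apply pow_le_pow_left₀ (by positivity)
            calc (q:ℝ) * ‖w‖ ≤ q * (1 + 1 / (2 * q)) := by gcongr
              _ = q + 1 / 2 := by field_simp
              _ ≤ q + 1 := by linarith
          push_cast
          calc (q:ℝ) ^ 2 * (n:ℝ) * ‖w‖ ^ 2 = ((q:ℝ) ^ 2 * ‖w‖ ^ 2) * (n:ℝ) := by ring
            _ ≤ ((q:ℝ) + 1) ^ 2 * (n:ℝ) := by gcongr
            _ ≤ (R:ℝ) * (n:ℝ) := by gcongr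
        exact_mod_cast h1
      · have h1 : (0:ℝ) < ∑ i, ((z i : ℤ) : ℝ) ^ 2 := by rw [hzw]; positivity
        exact_mod_cast h1
    have hrho : rho (fun i => ((z i : ℤ) : ℝ)) = s * ‖w‖ := by
      rw [rho, hzw, ← mul_pow, Real.sqrt_sq (by positivity)]
    have hgw : g w = s⁻¹ * gg ω (fun i => ((z i : ℤ) : ℝ)) := by
      simp only [hg]
      have : (fun i => w i) = fun i => s⁻¹ * ((z i : ℤ) : ℝ) := by funext i; exact hwi i
      rw [this, gg_smul, abs_of_pos (by positivity)]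
    obtain ⟨b1, b2⟩ := hω z hmem
    rw [hrho] at b1 b2
    refine ⟨w, e, by rw [he]; abel, hen, ?_, ?_⟩
    · rw [hgw, le_inv_mul_iff₀ hs0]
      linarith
    · rw [hgw, inv_mul_le_iff₀ hs0]
      linarith
  have hq2 : 1 / (2 * (q:ℝ)) ≤ 1 / 4096 := by
    apply one_div_le_one_div_of_le (by norm_num)
    linarith
  have hGnn : 0 ≤ G := gnn _
  have hG5 : G ≤ 5 * N := by
    obtain ⟨w, e, h1, h2, h3, h4⟩ := round y₀ hy₀1
    have h5 : ‖w‖ ≤ 1 + 1 / 4096 := by
      have : w = y₀ - e := by rw [h1]; abel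
      rw [this]
      refine (norm_sub_le _ _).trans ?_
      rw [hy₀1]; linarith
    have h6 : G ≤ g w + g e := by
      rw [hG, h1]; exact gadd w e
    have h7 := hGx e
    have h8 : G * ‖e‖ ≤ G * (1 / 4096) := by gcongr; linarith
    have h9 : 4 * (N:ℝ) * ‖w‖ ≤ 4 * N * (1 + 1/4096) := by gcongr
    nlinarith
  -- final
  have key : ∀ y : EuclideanSpace ℝ (Fin n), ‖y‖ = 1 → (N : ℝ) / 128 ≤ g y := by
    intro y hy
    obtain ⟨w, e, h1, h2, h3, h4⟩ := round y hy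
    have h5 : 1 - 1 / 4096 ≤ ‖w‖ := by
      have : ‖y‖ ≤ ‖w‖ + ‖e‖ := by
        calc ‖y‖ = ‖w + e‖ := by rw [← h1]
          _ ≤ _ := norm_add_le _ _
      linarith
    have h6 : g w ≤ g y + g e := by
      have : w = y + (-1:ℝ) • e := by rw [h1]; simp
      calc g w = g (y + (-1:ℝ) • e) := by rw [← this]
        _ ≤ g y + g ((-1:ℝ) • e) := gadd _ _
        _ = g y + g e := by rw [gsmul]; simp
    have h7 := hGx e
    have h8 : G * ‖e‖ ≤ 5 * N * (1 / 4096) := by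
      apply mul_le_mul hG5 (by linarith) (norm_nonneg _) (by positivity)
    have h9 : (N:ℝ) / 64 * (1 - 1/4096) ≤ (N:ℝ) / 64 * ‖w‖ := by gcongr
    nlinarith
  by_cases hy : y = 0
  · rw [hy, norm_zero, mul_zero]; exact gnn _
  · have hy0 : 0 < ‖y‖ := norm_pos_iff.2 hy
    have h1 := key (‖y‖⁻¹ • y) (by rw [norm_smul, norm_inv, norm_norm, inv_mul_cancel₀ hy0.ne'])
    rw [gsmul, abs_of_pos (by positivity), le_inv_mul_iff₀ hy0] at h1
    linarith

end Kash

/-- net lemma: `Kashin type` embedding of `ℓ₂ⁿ` into `ℓ₁^{N₀ n}` -/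
theorem kashin : ∃ (N₀ : ℕ) (c : ℝ), 0 < N₀ ∧ 0 < c ∧ ∀ n : ℕ, 1 ≤ n →
    ∃ A : Fin (N₀ * n) → (EuclideanSpace ℝ (Fin n) →L[ℝ] ℝ), (∀ j, ‖A j‖ ≤ 1) ∧
      ∀ y : EuclideanSpace ℝ (Fin n), c * Real.sqrt n * ‖y‖ ≤ ∑ j, |A j y| := by
  obtain ⟨q, hq⟩ : ∃ q : ℕ, 2048 ≤ q := ⟨2048, le_rfl⟩
  obtain ⟨R, hR⟩ : ∃ R : ℕ, (q + 1) ^ 2 ≤ R := ⟨_, le_rfl⟩
  have hlim : Filter.Tendsto (fun k : ℕ => (4 * 2 ^ R : ℝ) * (49 / 50) ^ k) Filter.atTop (nhds ((4 * 2 ^ R : ℝ) * 0)) :=
    (tendsto_pow_atTop_nhds_zero_of_lt_one (by norm_num) (by norm_num)).const_mul _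
  rw [mul_zero] at hlim
  obtain ⟨N₀, hN₀1, hN₀⟩ := ((hlim.eventually (gt_mem_nhds (show (0:ℝ) < 1/4 by norm_num))).and
    (Filter.eventually_gt_atTop 0)).exists
  refine ⟨N₀, N₀ / 128, hN₀, by positivity, ?_⟩
  intro n hn
  obtain ⟨ω, hω⟩ := Kash.good_omega n R N₀ hn hN₀1.le
  have hn0 : (0:ℝ) < n := by exact_mod_cast hn
  have hsn : 0 < Real.sqrt n := Real.sqrt_pos.2 hn0
  let v : Fin (N₀ * n) → EuclideanSpace ℝ (Fin n) := fun j => WithLp.toLp 2 (fun i => Kash.sg (ω j i))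
  have hv : ∀ j, ‖v j‖ = Real.sqrt n := by
    intro j
    rw [EuclideanSpace.norm_eq]
    congr 1
    have : ∀ i, ‖(v j) i‖ ^ 2 = 1 := by
      intro i
      rw [Real.norm_eq_abs, show (v j) i = Kash.sg (ω j i) from rfl, Kash.sg_abs, one_pow]
    rw [Finset.sum_congr rfl (fun i _ => this i)]
    simp
  have hin : ∀ (j) (y : EuclideanSpace ℝ (Fin n)), innerSL ℝ (v j) y = Kash.ip (ω j) (fun i => y i) := by
    intro j y
    rw [innerSL_apply_apply, PiLp.inner_apply, Kash.ip]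
    apply Finset.sum_congr rfl
    intro i _
    rw [show (v j) i = Kash.sg (ω j i) from rfl]
    simp [mul_comm]
  refine ⟨fun j => (Real.sqrt n)⁻¹ • innerSL ℝ (v j), ?_, ?_⟩
  · intro j
    rw [norm_smul, innerSL_apply_norm, hv, norm_inv, Real.norm_of_nonneg hsn.le, inv_mul_cancel₀ hsn.ne']
  · intro y
    have h1 := Kash.geom n (N₀ * n) R q hn hq hR ω hω y
    have h2 : ∑ j, |((Real.sqrt n)⁻¹ • innerSL ℝ (v j)) y| = (Real.sqrt n)⁻¹ * Kash.gg ω (fun i => y i) := by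
      rw [Kash.gg, Finset.mul_sum]
      apply Finset.sum_congr rfl
      intro j _
      rw [smul_apply, hin, smul_eq_mul, abs_mul, abs_of_pos (by positivity)]
    rw [h2, le_inv_mul_iff₀ hsn]
    have h3 : Real.sqrt n * Real.sqrt n = n := Real.mul_self_sqrt hn0.le
    calc Real.sqrt n * ((N₀:ℝ) / 128 * Real.sqrt n * ‖y‖) = (N₀:ℝ) * (Real.sqrt n * Real.sqrt n) / 128 * ‖y‖ := by ring
      _ = ((N₀ * n : ℕ) : ℝ) / 128 * ‖y‖ := by rw [h3]; push_cast; ring
      _ ≤ _ := h1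

end Pool.Agent.Helper392.Mey
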