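import Mathlib

set_option autoImplicit false
open MeasureTheory

namespace Pool.Agent.Helper392.Mey

namespace MeyerB

/-- unit cube -/
def Q (d : ℕ) : Set (EuclideanSpace ℝ (Fin d)) := {y | ∀ i, |y i| ≤ 1 / 2}

theorem Q_eq (d : ℕ) : Q d = (WithLp.ofLp) ⁻¹' (Set.Icc (fun _ : Fin d => (-1 / 2 : ℝ)) (fun _ => 1 / 2)) := by
  ext y
  simp only [Q, Set.mem_ofPred_eq, Set.mem_preimage, Set.mem_Icc, Pi.le_def, abs_le]
  constructor
  · intro h; exact ⟨fun i => by have := (h i).1; linarith, fun i => (h i).2⟩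
  · intro h i; exact ⟨by have := h.1 i; linarith, h.2 i⟩

theorem Q_vol (d : ℕ) : volume (Q d) = 1 := by
  rw [Q_eq, (PiLp.volume_preserving_ofLp (Fin d)).measure_preimage measurableSet_Icc.nullMeasurableSet,
    Real.volume_Icc_pi]
  norm_num

theorem Q_meas (d : ℕ) : MeasurableSet (Q d) := by
  rw [Q_eq]
  exact (PiLp.volume_preserving_ofLp (Fin d)).measurable measurableSet_Icc

/-- the sign flip in the coordinate `i` -/
noncomputable def flip {d : ℕ} (i : Fin d) : EuclideanSpace ℝ (Fin d) ≃ₗᵢ[ℝ] EuclideanSpace ℝ (Fin d) :=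
  LinearIsometryEquiv.piLpCongrRight 2 (fun l => if l = i then LinearIsometryEquiv.neg ℝ else LinearIsometryEquiv.refl ℝ ℝ)

theorem flip_same {d : ℕ} (i : Fin d) (y : EuclideanSpace ℝ (Fin d)) : flip i y i = - y i := by
  simp [flip]

theorem flip_ne {d : ℕ} (i k : Fin d) (h : k ≠ i) (y : EuclideanSpace ℝ (Fin d)) : flip i y k = y k := by
  simp [flip, h]

theorem flip_Q {d : ℕ} (i : Fin d) : (flip i) ⁻¹' (Q d) = Q d := by
  ext y
  simp only [Q, Set.mem_preimage, Set.mem_ofPred_eq]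
  apply forall_congr'
  intro k
  by_cases h : k = i
  · subst h; rw [flip_same, abs_neg]
  · rw [flip_ne i k h]

theorem int_off {d : ℕ} (i k : Fin d) (h : k ≠ i) : ∫ y in Q d, y i * y k = 0 := by
  have h1 := ((flip i).measurePreserving).setIntegral_preimage_emb
    ((flip i).toHomeomorph.measurableEmbedding) (fun y => y i * y k) (Q d)
  rw [flip_Q] at h1
  simp only [flip_same, flip_ne i k h] at h1
  have h2 : ∫ y in Q d, -y i * y k = - ∫ y in Q d, y i * y k := by
    rw [← integral_neg]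
    apply integral_congr_ae
    filter_upwards with y
    ring
  rw [h2] at h1
  linarith

instance (d : ℕ) : IsProbabilityMeasure (volume.restrict (Q d)) := ⟨by
  rw [Measure.restrict_apply_univ, Q_vol]⟩

theorem int_coord_integrable {d : ℕ} (i k : Fin d) : Integrable (fun y : EuclideanSpace ℝ (Fin d) => y i * y k)
    (volume.restrict (Q d)) := by
  refine Integrable.of_bound (C := 1) ?_ ?_
  · have : Continuous (fun y : EuclideanSpace ℝ (Fin d) => y i * y k) := by fun_prop
    exact this.aestronglyMeasurable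
  · rw [ae_restrict_iff' (Q_meas d)]
    filter_upwards with y hy
    rw [Real.norm_eq_abs, abs_mul]
    have h1 := hy i
    have h2 := hy k
    nlinarith [abs_nonneg (y i), abs_nonneg (y k)]

theorem int_sq {d : ℕ} (i : Fin d) : ∫ y in Q d, y i * y i ≤ 1 / 4 := by
  have h : ∫ y in Q d, y i * y i ≤ ∫ y in Q d, (1 / 4 : ℝ) := by
    apply integral_mono_ae (int_coord_integrable i i) (integrable_const _)
    rw [Filter.EventuallyLE, ae_restrict_iff' (Q_meas d)]
    filter_upwards with y hy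
    have h1 := abs_le.1 (hy i)
    nlinarith
  rw [integral_const, smul_eq_mul, probReal_univ, one_mul] at h
  exact h

theorem int_lin {d : ℕ} (A : EuclideanSpace ℝ (Fin d) →L[ℝ] ℝ) (hA : ‖A‖ ≤ 1) :
    Integrable (fun y => (A y) ^ 2) (volume.restrict (Q d)) ∧ ∫ y in Q d, (A y) ^ 2 ≤ 1 / 4 := by
  obtain ⟨v, hv⟩ : ∃ v : EuclideanSpace ℝ (Fin d), v = (InnerProductSpace.toDual ℝ _).symm A := ⟨_, rfl⟩
  have hvn : ‖v‖ ≤ 1 := by rw [hv, LinearIsometryEquiv.norm_map]; exact hA
  have hAy : ∀ y, A y = ∑ i, v i * y i := by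
    intro y
    have : A y = inner ℝ v y := by rw [hv, InnerProductSpace.toDual_symm_apply]
    rw [this, PiLp.inner_apply]
    apply Finset.sum_congr rfl
    intro i _
    simp [mul_comm]
  have hexp : (fun y => (A y) ^ 2) = fun y : EuclideanSpace ℝ (Fin d) => ∑ i, ∑ k, (v i * v k) * (y i * y k) := by
    funext y
    rw [hAy, pow_two, Finset.sum_mul_sum]
    apply Finset.sum_congr rfl
    intro i _
    apply Finset.sum_congr rfl
    intro k _
    ring
  have hint : ∀ i k : Fin d, Integrable (fun y : EuclideanSpace ℝ (Fin d) => (v i * v k) * (y i * y k))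
      (volume.restrict (Q d)) := fun i k => (int_coord_integrable i k).const_mul _
  constructor
  · rw [hexp]
    exact integrable_finsetSum _ fun i _ => integrable_finsetSum _ fun k _ => hint i k
  · rw [hexp, integral_finsetSum _ (fun i _ => integrable_finsetSum _ fun k _ => hint i k)]
    have h1 : ∀ i : Fin d, ∫ y in Q d, ∑ k, (v i * v k) * (y i * y k) = (v i) ^ 2 * ∫ y in Q d, y i * y i := by
      intro i
      rw [integral_finsetSum _ (fun k _ => hint i k), Finset.sum_eq_single i]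
      · rw [integral_const_mul]; ring
      · intro k _ hk
        rw [integral_const_mul, int_off i k hk, mul_zero]
      · intro h; exact absurd (Finset.mem_univ i) h
    simp only [h1]
    calc ∑ i, (v i) ^ 2 * ∫ y in Q d, y i * y i ≤ ∑ i, (v i) ^ 2 * (1 / 4) := by
          apply Finset.sum_le_sum
          intro i _
          exact mul_le_mul_of_nonneg_left (int_sq i) (sq_nonneg _)
      _ = ‖v‖ ^ 2 * (1 / 4) := by
          rw [← Finset.sum_mul, EuclideanSpace.norm_sq_eq]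
          simp
      _ ≤ 1 / 4 := by nlinarith [norm_nonneg v]

theorem sum_pow_Icc (L : ℕ) : ∑ m ∈ Finset.Icc (-(L : ℤ)) L, ((1 : ℝ) / 2) ^ m.natAbs = 3 - 2 * (1 / 2) ^ L := by
  induction L with
  | zero => simp; norm_num
  | succ L ih =>
    have h : Finset.Icc (-((L + 1 : ℕ) : ℤ)) ((L + 1 : ℕ) : ℤ)
        = insert (-((L + 1 : ℕ) : ℤ)) (insert ((L + 1 : ℕ) : ℤ) (Finset.Icc (-(L : ℤ)) L)) := by
      ext x
      simp only [Finset.mem_insert, Finset.mem_Icc]
      push_cast
      omega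
    rw [h, Finset.sum_insert, Finset.sum_insert, ih]
    · rw [Int.natAbs_neg, Int.natAbs_natCast, pow_succ]; ring
    · simp
    · simp; omega

open Classical in
theorem count (N : ℕ) (S : Finset (Fin N → ℤ)) (hS : ∀ z ∈ S, ∑ j, (z j).natAbs ≤ 2 * N) :
    (S.card : ℝ) ≤ 12 ^ N := by
  have hsub : S ⊆ Fintype.piFinset (fun _ : Fin N => Finset.Icc (-((2 * N : ℕ) : ℤ)) ((2 * N : ℕ) : ℤ)) := by
    intro z hz
    rw [Fintype.mem_piFinset]
    intro j
    have h1 := hS z hz
    have h2 : (z j).natAbs ≤ ∑ j, (z j).natAbs :=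
      Finset.single_le_sum (f := fun j => (z j).natAbs) (fun _ _ => Nat.zero_le _) (Finset.mem_univ j)
    rw [Finset.mem_Icc]
    omega
  have h1 : (S.card : ℝ) * (1 / 4) ^ N ≤ ∑ z ∈ S, ∏ j, ((1 : ℝ) / 2) ^ (z j).natAbs := by
    rw [← nsmul_eq_mul, ← Finset.sum_const]
    apply Finset.sum_le_sum
    intro z hz
    rw [Finset.prod_pow_eq_pow_sum]
    have : ((1 : ℝ) / 4) ^ N = (1 / 2) ^ (2 * N) := by
      rw [pow_mul]; norm_num
    rw [this]
    exact pow_le_pow_of_le_one (by norm_num) (by norm_num) (hS z hz)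
  have h2 : ∑ z ∈ S, ∏ j, ((1 : ℝ) / 2) ^ (z j).natAbs ≤ 3 ^ N := by
    calc _ ≤ ∑ z ∈ Fintype.piFinset (fun _ : Fin N => Finset.Icc (-((2 * N : ℕ) : ℤ)) ((2 * N : ℕ) : ℤ)),
            ∏ j, ((1 : ℝ) / 2) ^ (z j).natAbs :=
          Finset.sum_le_sum_of_subset_of_nonneg hsub (fun _ _ _ => by positivity)
      _ = ∏ _j : Fin N, ∑ m ∈ Finset.Icc (-((2 * N : ℕ) : ℤ)) ((2 * N : ℕ) : ℤ), ((1 : ℝ) / 2) ^ m.natAbs := by
          rw [Finset.prod_univ_sum]
      _ ≤ ∏ _j : Fin N, (3 : ℝ) := by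
          apply Finset.prod_le_prod
          · intro j _; positivity
          · intro j _
            rw [sum_pow_Icc]
            have : (0 : ℝ) ≤ (1 / 2) ^ (2 * N) := by positivity
            linarith
      _ = 3 ^ N := by simp
  have h3 : (S.card : ℝ) * (1 / 4) ^ N ≤ 3 ^ N := h1.trans h2
  have h4 : (12 : ℝ) ^ N = 3 ^ N * 4 ^ N := by rw [← mul_pow]; norm_num
  rw [h4]
  have h5 : (S.card : ℝ) = (S.card : ℝ) * (1 / 4) ^ N * 4 ^ N := by
    rw [mul_assoc, ← mul_pow]; norm_num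
  rw [h5]
  exact mul_le_mul_of_nonneg_right h3 (by positivity)

theorem round_bound (s : ℝ) : ((round s).natAbs : ℝ) ≤ 4 * s ^ 2 := by
  have h1 := abs_sub_round s
  by_cases h0 : round s = 0
  · rw [h0]; simp; positivity
  have h2 : (1 : ℝ) ≤ |((round s : ℤ) : ℝ)| := by
    rw [← Int.cast_abs]
    exact_mod_cast Int.one_le_abs h0
  have h3 : |((round s : ℤ) : ℝ)| ≤ 2 * |s| := by
    have h4 : |((round s : ℤ) : ℝ)| ≤ |s| + |s - round s| := by
      have : ((round s : ℤ) : ℝ) = s - (s - round s) := by ring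
      calc |((round s : ℤ) : ℝ)| = |s - (s - round s)| := by rw [← this]
        _ ≤ _ := abs_sub _ _
    linarith
  have h5 : ((round s).natAbs : ℝ) = |((round s : ℤ) : ℝ)| := by
    rw [← Int.cast_abs]; exact Nat.cast_natAbs (round s)
  rw [h5]
  have h6 : |((round s : ℤ) : ℝ)| ≤ |((round s : ℤ) : ℝ)| ^ 2 := by nlinarith
  have h7 : |((round s : ℤ) : ℝ)| ^ 2 ≤ (2 * |s|) ^ 2 := by gcongr
  have h8 : (2 * |s|) ^ 2 = 4 * s ^ 2 := by rw [mul_pow, sq_abs]; norm_num
  linarith

end MeyerB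

open MeyerB in
/-- the symmetric slabs `|A j y| ≤ 1`, `j < N`, with `‖A j‖ ≤ 1`, cut out a set of volume at least `48^(-N)` -/
theorem slab_volume_lower (d N : ℕ) (A : Fin N → (EuclideanSpace ℝ (Fin d) →L[ℝ] ℝ))
    (hA : ∀ j, ‖A j‖ ≤ 1) :
    ((48 : ENNReal)⁻¹) ^ N ≤ volume {y : EuclideanSpace ℝ (Fin d) | ∀ j, |A j y| ≤ 1} := by
  rcases Nat.eq_zero_or_pos N with hN | hN
  · subst hN
    have h1 : Q d ⊆ {y : EuclideanSpace ℝ (Fin d) | ∀ j : Fin 0, |A j y| ≤ 1} := fun y _ j => j.elim0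
    calc ((48 : ENNReal)⁻¹) ^ 0 = volume (Q d) := by rw [Q_vol, pow_zero]
      _ ≤ _ := measure_mono h1
  have hNR : (0 : ℝ) < N := by exact_mod_cast hN
  set K : Set (EuclideanSpace ℝ (Fin d)) := {y | ∀ j, |A j y| ≤ 1} with hK
  set f : EuclideanSpace ℝ (Fin d) → ℝ := fun y => ∑ j, (A j y) ^ 2 with hf
  have hfi : Integrable f (volume.restrict (Q d)) := integrable_finsetSum _ fun j _ => (int_lin (A j) (hA j)).1
  have hfI : ∫ y in Q d, f y ≤ N * (1 / 4) := by
    rw [hf, integral_finsetSum _ (fun j _ => (int_lin (A j) (hA j)).1)]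
    calc _ ≤ ∑ _j : Fin N, (1 / 4 : ℝ) := Finset.sum_le_sum fun j _ => (int_lin (A j) (hA j)).2
      _ = N * (1 / 4) := by simp
  have hmk := mul_meas_ge_le_integral_of_nonneg (μ := volume.restrict (Q d)) (f := f)
    (Filter.Eventually.of_forall fun y => Finset.sum_nonneg fun j _ => sq_nonneg _) hfi (N / 2 : ℝ)
  have hfm : Measurable f := by
    have : Continuous f := by
      rw [hf]; fun_prop
    exact this.measurable
  have hbad : (volume.restrict (Q d)).real {x | (N / 2 : ℝ) ≤ f x} ≤ 1 / 2 := by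
    have h1 : (N / 2 : ℝ) * (volume.restrict (Q d)).real {x | (N / 2 : ℝ) ≤ f x} ≤ (N / 2 : ℝ) * (1 / 2) := by
      linarith
    exact le_of_mul_le_mul_left h1 (by positivity)
  have hgood : (1 / 2 : ℝ) ≤ (volume.restrict (Q d)).real {x | (N / 2 : ℝ) ≤ f x}ᶜ := by
    rw [probReal_compl_eq_one_sub (measurableSet_le measurable_const hfm)]
    linarith
  classical
  -- the set of cells
  set S : Finset (Fin N → ℤ) := (Fintype.piFinset (fun _ : Fin N => Finset.Icc (-((2 * N : ℕ) : ℤ)) ((2 * N : ℕ) : ℤ))).filter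
    (fun z => ∑ j, (z j).natAbs ≤ 2 * N) with hS
  have hScard : (S.card : ℝ) ≤ 12 ^ N := count N S (fun z hz => (Finset.mem_filter.1 hz).2)
  have hcov : {x | (N / 2 : ℝ) ≤ f x}ᶜ ⊆ ⋃ z ∈ S, {y | ∀ j, round (A j y) = z j} := by
    intro y hy
    have hy' : f y < N / 2 := not_le.1 hy
    have hsum : ∑ j, (round (A j y)).natAbs ≤ 2 * N := by
      have h1 : ((∑ j, (round (A j y)).natAbs : ℕ) : ℝ) ≤ 4 * f y := by
        rw [hf]
        push_cast
        rw [Finset.mul_sum]
        apply Finset.sum_le_sum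
        intro j _
        exact round_bound (A j y)
      have h2 : ((∑ j, (round (A j y)).natAbs : ℕ) : ℝ) ≤ ((2 * N : ℕ) : ℝ) := by
        push_cast at h1 ⊢
        linarith
      exact_mod_cast h2
    rw [Set.mem_iUnion₂]
    refine ⟨fun j => round (A j y), ?_, fun j => rfl⟩
    rw [hS, Finset.mem_filter, Fintype.mem_piFinset]
    refine ⟨fun j => ?_, hsum⟩
    have h2 : (round (A j y)).natAbs ≤ ∑ j, (round (A j y)).natAbs :=
      Finset.single_le_sum (f := fun j => (round (A j y)).natAbs) (fun _ _ => Nat.zero_le _) (Finset.mem_univ j)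
    rw [Finset.mem_Icc]
    omega
  have hcell : ∀ z : Fin N → ℤ, volume {y | ∀ j, round (A j y) = z j} ≤ volume K := by
    intro z
    by_cases hne : ∃ y0, y0 ∈ {y | ∀ j, round (A j y) = z j}
    · obtain ⟨y0, hy0⟩ := hne
      have hsub : {y | ∀ j, round (A j y) = z j} ⊆ (fun y => y + (-y0)) ⁻¹' K := by
        intro y hy j
        show |A j (y + -y0)| ≤ 1
        rw [← sub_eq_add_neg, map_sub]
        have h1 := abs_sub_round (A j y)
        have h2 := abs_sub_round (A j y0)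
        rw [hy j] at h1
        rw [hy0 j] at h2
        rw [abs_le] at h1 h2 ⊢
        constructor <;> linarith
      calc _ ≤ volume ((fun y => y + (-y0)) ⁻¹' K) := measure_mono hsub
        _ = volume K := measure_preimage_add_right _ _ _
    · push Not at hne
      have : {y | ∀ j, round (A j y) = z j} = ∅ := Set.eq_empty_of_forall_notMem hne
      rw [this]; simp
  have hvol : volume.restrict (Q d) {x | (N / 2 : ℝ) ≤ f x}ᶜ ≤ (S.card : ENNReal) * volume K := by
    calc _ ≤ volume {x | (N / 2 : ℝ) ≤ f x}ᶜ := Measure.restrict_apply_le _ _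
      _ ≤ volume (⋃ z ∈ S, {y | ∀ j, round (A j y) = z j}) := measure_mono hcov
      _ ≤ ∑ z ∈ S, volume {y | ∀ j, round (A j y) = z j} := measure_biUnion_finset_le _ _
      _ ≤ ∑ _z ∈ S, volume K := Finset.sum_le_sum fun z _ => hcell z
      _ = _ := by rw [Finset.sum_const, nsmul_eq_mul]
  have hlow : ENNReal.ofReal (1 / 2) ≤ volume.restrict (Q d) {x | (N / 2 : ℝ) ≤ f x}ᶜ := by
    rw [ENNReal.ofReal_le_iff_le_toReal (measure_ne_top _ _)]
    exact hgood
  have hS12 : (S.card : ENNReal) ≤ (12 : ENNReal) ^ N := by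
    have : S.card ≤ 12 ^ N := by exact_mod_cast hScard
    exact_mod_cast this
  have hfin : ENNReal.ofReal (1 / 2) ≤ (12 : ENNReal) ^ N * volume K :=
    hlow.trans (hvol.trans (by gcongr))
  -- arithmetic
  have h12 : (12 : ENNReal) ^ N ≠ 0 := by positivity
  have h12t : (12 : ENNReal) ^ N ≠ ⊤ := ENNReal.pow_ne_top (by norm_num)
  have h24 : ((48 : ENNReal)⁻¹) ^ N ≤ ENNReal.ofReal (1 / 2) * ((12 : ENNReal) ^ N)⁻¹ := by
    have e1 : ((48 : ENNReal)⁻¹) ^ N = ((4 : ENNReal)⁻¹) ^ N * ((12 : ENNReal) ^ N)⁻¹ := by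
      rw [ENNReal.inv_pow (a := 12), ← mul_pow, ← ENNReal.mul_inv (by norm_num) (by norm_num)]
      norm_num
    rw [e1]
    gcongr
    have e2 : ENNReal.ofReal (1 / 2) = (2 : ENNReal)⁻¹ := by
      rw [one_div, ENNReal.ofReal_inv_of_pos (by norm_num)]
      norm_num
    rw [e2]
    calc ((4 : ENNReal)⁻¹) ^ N ≤ ((4 : ENNReal)⁻¹) ^ 1 := by
          apply pow_le_pow_right_of_le_one' _ hN
          rw [ENNReal.inv_le_one]; norm_num
      _ = (4 : ENNReal)⁻¹ := pow_one _
      _ ≤ (2 : ENNReal)⁻¹ := by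
          rw [ENNReal.inv_le_inv]; norm_num
  refine h24.trans ?_
  rw [← div_eq_mul_inv]
  exact ENNReal.div_le_of_le_mul' hfin

end Pool.Agent.Helper392.Mey
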