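import Pool.Agent.Helper392.Mey.Good

set_option autoImplicit false
open MeasureTheory Set Module Filter Topology
open scoped ENNReal Pointwise

namespace Pool.Agent.Helper392.Mey


theorem ep_int {n : ℕ} {K : Set (E n)} (hK : IsBody K) {f : E n → ℝ} (hf : Continuous f) :
    IntegrableOn f K volume := hf.continuousOn.integrableOn_compact hK.2.1

/-- the covariance form -/
noncomputable def epB {n : ℕ} {K : Set (E n)} (hK : IsBody K) : LinearMap.BilinForm ℝ (E n) :=
  LinearMap.mk₂ ℝ (fun a b => ∫ y in K, (inner ℝ a y : ℝ) * inner ℝ b y)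
    (by
      intro a a' b
      rw [← integral_add (ep_int hK (by fun_prop)) (ep_int hK (by fun_prop))]
      refine integral_congr_ae (Eventually.of_forall fun y => ?_)
      simp only [inner_add_left]
      ring)
    (by
      intro c a b
      rw [smul_eq_mul, ← integral_const_mul]
      refine integral_congr_ae (Eventually.of_forall fun y => ?_)
      simp only [real_inner_smul_left]
      ring)
    (by
      intro a b b'
      rw [← integral_add (ep_int hK (by fun_prop)) (ep_int hK (by fun_prop))]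
      refine integral_congr_ae (Eventually.of_forall fun y => ?_)
      simp only [inner_add_left]
      ring)
    (by
      intro c a b
      rw [smul_eq_mul, ← integral_const_mul]
      refine integral_congr_ae (Eventually.of_forall fun y => ?_)
      simp only [real_inner_smul_left]
      ring)

theorem epB_apply {n : ℕ} {K : Set (E n)} (hK : IsBody K) (a b : E n) :
    epB hK a b = ∫ y in K, (inner ℝ a y : ℝ) * inner ℝ b y := rfl

theorem epB_pos {n : ℕ} {K : Set (E n)} (hK : IsBody K) {a : E n} (ha : a ≠ 0) : 0 < epB hK a a := by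
  rw [epB_apply, setIntegral_pos_iff_support_of_nonneg_ae (Eventually.of_forall fun y => mul_self_nonneg _)
    (ep_int hK (by fun_prop))]
  have hopen : IsOpen (interior K ∩ {y | (inner ℝ a y : ℝ) ≠ 0}) :=
    isOpen_interior.inter (isOpen_ne_fun (by fun_prop) continuous_const)
  have hne : (interior K ∩ {y | (inner ℝ a y : ℝ) ≠ 0}).Nonempty := by
    obtain ⟨r, hr, hb⟩ := hK.exists_ball
    have hna : 0 < ‖a‖ := norm_pos_iff.mpr ha
    refine ⟨(r / (2 * ‖a‖)) • a, ?_, ?_⟩
    · refine interior_mono hb (Metric.ball_subset_interior_closedBall ?_)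
      rw [mem_ball_zero_iff, norm_smul, Real.norm_of_nonneg (by positivity)]
      have : r / (2 * ‖a‖) * ‖a‖ = r / 2 := by field_simp
      rw [this]
      linarith
    · show (inner ℝ a ((r / (2 * ‖a‖)) • a) : ℝ) ≠ 0
      rw [real_inner_smul_right, real_inner_self_eq_norm_sq]
      positivity
  refine lt_of_lt_of_le (hopen.measure_pos volume hne) (measure_mono ?_)
  rintro y ⟨h1, h2⟩
  refine ⟨?_, interior_subset h1⟩
  have h2' : (inner ℝ a y : ℝ) ≠ 0 := h2
  exact mul_ne_zero h2' h2'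

theorem exists_point {n : ℕ} (hn : 1 ≤ n) {K : Set (E n)} (hK : IsBody K) :
    ∃ (x a : E n) (w : ℝ), x ∈ K ∧ (n : ℝ) ≤ w ∧ inner ℝ a x = w ∧
      ∫ y in K, (inner ℝ a y) ^ 2 = w * (volume K).toReal := by
  have hsymm : LinearMap.IsSymm (epB hK) := by
    refine ⟨fun a b => ?_⟩
    show epB hK a b = epB hK b a
    rw [epB_apply, epB_apply]
    refine integral_congr_ae (Eventually.of_forall fun y => ?_)
    simp only
    ring
  obtain ⟨v, hv⟩ := LinearMap.BilinForm.exists_orthogonal_basis hsymm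
  have hv' : ∀ i j, i ≠ j → epB hK (v i) (v j) = 0 := hv
  set q : Fin (finrank ℝ (E n)) → ℝ := fun i => epB hK (v i) (v i) with hq
  have hqpos : ∀ i, 0 < q i := fun i => epB_pos hK (v.ne_zero i)
  set V : ℝ := (volume K).toReal with hV
  have hVpos : 0 < V := ENNReal.toReal_pos hK.vol_pos.ne' hK.vol_lt_top.ne
  set w : E n → ℝ := fun y => ∑ i, V * (inner ℝ (v i) y : ℝ) ^ 2 / q i with hw
  have hwc : Continuous w := by
    rw [hw]
    fun_prop
  have hwint : ∫ y in K, w y = V * n := by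
    rw [hw]
    rw [integral_finsetSum _ (fun i _ => ep_int hK (by fun_prop))]
    have : ∀ i ∈ Finset.univ, ∫ y in K, V * (inner ℝ (v i) y : ℝ) ^ 2 / q i = V := by
      intro i _
      have h1 : ∀ y, V * (inner ℝ (v i) y : ℝ) ^ 2 / q i = (V / q i) * ((inner ℝ (v i) y : ℝ) * inner ℝ (v i) y) := by
        intro y
        ring
      simp only [h1]
      rw [integral_const_mul, ← epB_apply hK]
      show V / q i * q i = V
      field_simp [(hqpos i).ne']
    rw [Finset.sum_congr rfl this]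
    simp
    ring
  obtain ⟨x, hxK, hx⟩ := exists_setAverage_le hK.vol_pos.ne' hK.vol_lt_top.ne (ep_int hK hwc)
  rw [setAverage_eq, hwint, smul_eq_mul, Measure.real, ← hV] at hx
  have hx' : (n : ℝ) ≤ w x := by
    have : V⁻¹ * (V * n) = n := by field_simp
    rw [this] at hx
    exact hx
  refine ⟨x, ∑ i, (V * (inner ℝ (v i) x : ℝ) / q i) • v i, w x, hxK, hx', ?_, ?_⟩
  · rw [sum_inner, hw]
    refine Finset.sum_congr rfl fun i _ => ?_
    rw [real_inner_smul_left]
    ring
  · have h1 : ∫ y in K, (inner ℝ (∑ i, (V * (inner ℝ (v i) x : ℝ) / q i) • v i) y : ℝ) ^ 2 =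
        epB hK (∑ i, (V * (inner ℝ (v i) x : ℝ) / q i) • v i) (∑ i, (V * (inner ℝ (v i) x : ℝ) / q i) • v i) := by
      rw [epB_apply]
      refine integral_congr_ae (Eventually.of_forall fun y => ?_)
      simp only
      ring
    rw [h1, LinearMap.BilinForm.sum_left]
    have h2 : ∀ i ∈ Finset.univ, (epB hK ((V * (inner ℝ (v i) x : ℝ) / q i) • v i))
        (∑ j, (V * (inner ℝ (v j) x : ℝ) / q j) • v j) = V * (V * (inner ℝ (v i) x : ℝ) ^ 2 / q i) := by
      intro i _
      rw [map_sum, Finset.sum_eq_single i]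
      · rw [map_smul, map_smul, LinearMap.smul_apply]
        show (V * (inner ℝ (v i) x : ℝ) / q i) • (V * (inner ℝ (v i) x : ℝ) / q i) • q i = _
        simp only [smul_eq_mul]
        have := (hqpos i).ne'
        field_simp
      · intro j _ hj
        rw [map_smul, map_smul, LinearMap.smul_apply, hv' i j (Ne.symm hj)]
        simp
      · intro h
        exact absurd (Finset.mem_univ i) h
    rw [Finset.sum_congr rfl h2, ← Finset.mul_sum]
    show V * w x = w x * V
    ring




theorem M_le_pow (k : ℕ) : (1 / 3 : ℝ) ≤ (1 - 1 / ((k : ℝ) + 1)) ^ k := by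
  rcases Nat.eq_zero_or_pos k with h | h
  · subst h; norm_num
  · have hk : (0 : ℝ) < k := by exact_mod_cast h
    have e : (1 - 1 / ((k : ℝ) + 1)) = (1 + 1 / (k : ℝ))⁻¹ := by
      field_simp
      ring
    rw [e, inv_pow]
    have h1 : (1 + 1 / (k : ℝ)) ≤ Real.exp (1 / k) := by
      have := Real.add_one_le_exp (1 / (k : ℝ))
      linarith
    have h2 : (1 + 1 / (k : ℝ)) ^ k ≤ Real.exp 1 := by
      calc (1 + 1 / (k : ℝ)) ^ k ≤ (Real.exp (1 / k)) ^ k := by gcongr
        _ = Real.exp 1 := by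
          rw [← Real.exp_nat_mul]
          congr 1
          field_simp
    have h3 : Real.exp 1 < 3 := by
      have := Real.exp_one_lt_d9
      linarith
    have h4 : 0 < (1 + 1 / (k : ℝ)) ^ k := by positivity
    rw [one_div]
    apply inv_anti₀ h4
    linarith

theorem M_le_two (r : ℝ) : (2 : ℝ≥0∞) * ENNReal.ofReal r = ENNReal.ofReal (2 * r) := by
  rw [ENNReal.ofReal_mul (by norm_num)]
  simp

theorem M_le_seg {n : ℕ} {K : Set (E n)} (hc : Convex ℝ K) (hs : ∀ x ∈ K, -x ∈ K)
    {x : E n} (hx : x ∈ K) {c : ℝ} (hc1 : |c| ≤ 1) : c • x ∈ K := by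
  have h1 := (abs_le.1 hc1).1
  have h2 := (abs_le.1 hc1).2
  have := hc hx (hs x hx) (a := (1 + c) / 2) (b := (1 - c) / 2) (by linarith) (by linarith)
    (by ring)
  have e : ((1 + c) / 2) • x + ((1 - c) / 2) • (-x) = c • x := by
    rw [smul_neg, ← sub_eq_add_neg, ← sub_smul]
    congr 1
    ring
  rwa [e] at this

theorem M_le_sec {n : ℕ} {K : Set (E n)} (hK : IsBody K) (a : E n) (w : ℝ) (hw : 0 < w)
    (hint : ∫ y in K, (inner ℝ a y) ^ 2 = w * (volume K).toReal) :
    volume K ≤ 2 * volume (K ∩ {y | (inner ℝ a y) ^ 2 ≤ 2 * w}) := by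
  have hcont : Continuous (fun y : E n => (inner ℝ a y : ℝ) ^ 2) := by fun_prop
  have hm : MeasurableSet {y : E n | (inner ℝ a y) ^ 2 ≤ 2 * w} :=
    (isClosed_le hcont continuous_const).measurableSet
  have hi : IntegrableOn (fun y : E n => (inner ℝ a y : ℝ) ^ 2) K :=
    hcont.continuousOn.integrableOn_compact hK.2.1
  set A := K ∩ {y : E n | (inner ℝ a y) ^ 2 ≤ 2 * w} with hA
  set B := K \ {y : E n | (inner ℝ a y) ^ 2 ≤ 2 * w} with hB
  have hBm : MeasurableSet B := hK.meas.diff hm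
  have hAm : MeasurableSet A := hK.meas.inter hm
  have hBt : volume B ≠ ⊤ := ((measure_mono sdiff_subset).trans_lt hK.vol_lt_top).ne
  have hAt : volume A ≠ ⊤ := ((measure_mono inter_subset_left).trans_lt hK.vol_lt_top).ne
  have h1 : ∫ y in B, (2 * w) ≤ ∫ y in B, (inner ℝ a y : ℝ) ^ 2 := by
    apply setIntegral_mono_on (integrableOn_const hBt enorm_ne_top) (hi.mono_set sdiff_subset) hBm
    intro y hy
    exact (not_le.1 hy.2).le
  have h2 : ∫ y in B, (inner ℝ a y : ℝ) ^ 2 ≤ ∫ y in K, (inner ℝ a y : ℝ) ^ 2 := by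
    apply setIntegral_mono_set hi
    · filter_upwards with y
      exact sq_nonneg _
    · exact sdiff_subset.eventuallyLE
  rw [setIntegral_const, smul_eq_mul] at h1
  have h3 : (volume B).toReal * (2 * w) ≤ w * (volume K).toReal := by
    have : volume.real B = (volume B).toReal := rfl
    rw [this] at h1
    linarith
  have h4 : (volume B).toReal ≤ (volume K).toReal / 2 := by
    have : w * (2 * (volume B).toReal) ≤ w * (volume K).toReal := by linarith
    have := le_of_mul_le_mul_left this hw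
    linarith
  have h5 : volume K = volume A + volume B := (measure_inter_add_sdiff K hm).symm
  have h6 : (volume K).toReal = (volume A).toReal + (volume B).toReal := by
    rw [h5, ENNReal.toReal_add hAt hBt]
  have h7 : (volume K).toReal ≤ 2 * (volume A).toReal := by linarith
  rw [← ENNReal.ofReal_toReal hK.vol_lt_top.ne, ← ENNReal.ofReal_toReal hAt, M_le_two]
  exact ENNReal.ofReal_le_ofReal h7

theorem M_le (n : ℕ) (hn : 1 ≤ n) : M n ≤ ENNReal.ofReal (12 * Real.sqrt n) := by
  obtain ⟨k, rfl⟩ := Nat.exists_eq_add_of_le' hn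
  unfold M
  refine iSup_le fun K => iSup_le fun hK => ?_
  obtain ⟨x, a, w, hxK, hw, hax, hint⟩ := exists_point hn hK
  have hk1 : (0 : ℝ) < (k : ℝ) + 1 := by positivity
  have hwk : (k : ℝ) + 1 ≤ w := by push_cast at hw; exact hw
  have hw0 : 0 < w := lt_of_lt_of_le hk1 hwk
  have ha0 : a ≠ 0 := by
    rintro rfl
    rw [inner_zero_left] at hax
    exact hw0.ne hax
  have hx0 : x ≠ 0 := by
    rintro rfl
    rw [inner_zero_right] at hax
    exact hw0.ne hax
  have hna : 0 < ‖a‖ := norm_pos_iff.2 ha0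
  have hnx : 0 < ‖x‖ := norm_pos_iff.2 hx0
  set u : E (k + 1) := (‖a‖)⁻¹ • a with hu
  set v : E (k + 1) := (‖x‖)⁻¹ • x with hv
  have hu1 : ‖u‖ = 1 := by
    rw [hu, norm_smul, norm_inv, norm_norm, inv_mul_cancel₀ hna.ne']
  have hv1 : ‖v‖ = 1 := by
    rw [hv, norm_smul, norm_inv, norm_norm, inv_mul_cancel₀ hnx.ne']
  have huv : inner ℝ u v = w / (‖a‖ * ‖x‖) := by
    rw [hu, hv, real_inner_smul_left, real_inner_smul_right, hax]
    field_simp
  have hvu : inner ℝ v u = w / (‖a‖ * ‖x‖) := by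
    rw [real_inner_comm]; exact huv
  have huv0 : 0 < inner ℝ u v := by rw [huv]; positivity
  have hvu0 : 0 < inner ℝ v u := by rw [hvu]; positivity
  refine (iInf_le_of_le u (iInf_le_of_le v (iInf_le_of_le hu1 (iInf_le_of_le hv1
    (iInf_le_of_le huv0.ne' le_rfl))))).trans ?_
  obtain ⟨T, hT⟩ := exists_par u hu1
  -- the section
  have hsec := hT.sec K
  have hprj := hT.prj v hvu0.ne' K
  set sec := volume {y : E k | T y ∈ K} with hsecdef
  set P : Set (E k) := {y : E k | ∃ t : ℝ, T y + t • v ∈ K} with hP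
  set b : ℝ := Real.sqrt (2 * w) / ‖a‖ with hb
  have hb0 : 0 ≤ b := by positivity
  have h1 : volume K ≤ 2 * volume (K ∩ {y | |inner ℝ y u - 0| ≤ b}) := by
    refine (M_le_sec hK a w hw0 hint).trans (mul_le_mul' le_rfl (measure_mono
      (inter_subset_inter_right K ?_)))
    intro y hy
    have hy' : (inner ℝ a y : ℝ) ^ 2 ≤ 2 * w := hy
    show |inner ℝ y u - 0| ≤ b
    rw [sub_zero, hu, real_inner_smul_right, real_inner_comm, abs_mul, abs_inv, abs_norm, hb,
      inv_mul_eq_div]
    gcongr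
    exact Real.abs_le_sqrt hy'
  have h2 := hT.slab hK.meas hK.1 hK.2.2.2 0 b
  have h3 : volume K ≤ ENNReal.ofReal (4 * b) * sec := by
    calc volume K ≤ 2 * (ENNReal.ofReal (2 * b) * sec) := h1.trans (by gcongr)
      _ = ENNReal.ofReal (4 * b) * sec := by
        rw [← mul_assoc, M_le_two]
        congr 2
        ring
  -- the projection
  set θ : ℝ := 1 / ((k : ℝ) + 1) with hθ
  have hθ0 : 0 < θ := by positivity
  have hθ1 : 0 ≤ 1 - θ := by
    rw [hθ, sub_nonneg, div_le_one hk1]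
    linarith [(Nat.cast_nonneg k : (0 : ℝ) ≤ k)]
  have hfib := hT.fiber v hvu0.ne' hK.meas
  have hmeas : Measurable (fun y : E k => volume {t : ℝ | T y + t • v ∈ K}) := by
    have hS : MeasurableSet {p : E k × ℝ | T p.1 + p.2 • v ∈ K} := by
      have hc : Continuous (fun p : E k × ℝ => T p.1 + p.2 • v) := by
        have := T.continuous
        fun_prop
      exact hc.measurable hK.meas
    exact measurable_measure_prodMk_left hS
  have hsub : (1 - θ) • P ⊆ {y : E k | ENNReal.ofReal (2 * (θ * ‖x‖)) ≤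
      volume {t : ℝ | T y + t • v ∈ K}} := by
    rintro y ⟨p, ⟨t0, ht0⟩, rfl⟩
    show ENNReal.ofReal (2 * (θ * ‖x‖)) ≤ volume {t : ℝ | T ((1 - θ) • p) + t • v ∈ K}
    have hI : Icc ((1 - θ) * t0 - θ * ‖x‖) ((1 - θ) * t0 + θ * ‖x‖) ⊆
        {t : ℝ | T ((1 - θ) • p) + t • v ∈ K} := by
      intro t ht
      show T ((1 - θ) • p) + t • v ∈ K
      set s : ℝ := (t - (1 - θ) * t0) / θ with hs
      have hs1 : |s / ‖x‖| ≤ 1 := by
        rw [abs_div, abs_norm, div_le_one hnx, hs, abs_div, abs_of_pos hθ0, div_le_iff₀ hθ0, abs_le]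
        constructor
        · linarith [ht.1]
        · linarith [ht.2]
      have hsK : s • v ∈ K := by
        have := M_le_seg hK.1 hK.2.2.2 hxK hs1
        rw [hv, smul_smul]
        rwa [div_eq_mul_inv] at this
      have := hK.1 ht0 hsK hθ1 hθ0.le (by ring)
      have e : (1 - θ) • (T p + t0 • v) + θ • s • v = T ((1 - θ) • p) + t • v := by
        have e1 : (1 - θ) • (T p + t0 • v) + θ • s • v =
            (1 - θ) • T p + ((1 - θ) * t0 + θ * s) • v := by module
        have e2 : (1 - θ) * t0 + θ * s = t := by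
          rw [hs]
          field_simp
          ring
        rw [e1, e2, map_smul]
      rwa [e] at this
    calc ENNReal.ofReal (2 * (θ * ‖x‖)) =
        volume (Icc ((1 - θ) * t0 - θ * ‖x‖) ((1 - θ) * t0 + θ * ‖x‖)) := by
          rw [Real.volume_Icc]; congr 1; ring
      _ ≤ _ := measure_mono hI
  have h4 : ENNReal.ofReal (2 * (θ * ‖x‖)) * volume ((1 - θ) • P) ≤
      ∫⁻ y : E k, volume {t : ℝ | T y + t • v ∈ K} := by
    calc ENNReal.ofReal (2 * (θ * ‖x‖)) * volume ((1 - θ) • P) ≤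
        ENNReal.ofReal (2 * (θ * ‖x‖)) * volume {y : E k | ENNReal.ofReal (2 * (θ * ‖x‖)) ≤
          volume {t : ℝ | T y + t • v ∈ K}} := by gcongr
      _ ≤ _ := mul_meas_ge_le_lintegral hmeas _
  rw [Measure.addHaar_smul_of_nonneg _ hθ1, finrank_euclideanSpace_fin] at h4
  have h5 : ENNReal.ofReal (2 * w / (3 * ((k : ℝ) + 1) * ‖a‖)) * volume P ≤ volume K := by
    rw [hfib]
    have e1 : ENNReal.ofReal (2 * w / (3 * ((k : ℝ) + 1) * ‖a‖)) ≤
        ENNReal.ofReal |inner ℝ v u| * (ENNReal.ofReal (2 * (θ * ‖x‖)) *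
          ENNReal.ofReal ((1 - θ) ^ k)) := by
      rw [← ENNReal.ofReal_mul (by positivity), ← ENNReal.ofReal_mul (by positivity)]
      apply ENNReal.ofReal_le_ofReal
      rw [abs_of_pos hvu0, hvu]
      have hp := M_le_pow k
      rw [← hθ] at hp
      have e2 : 2 * w / (3 * ((k : ℝ) + 1) * ‖a‖) =
          w / (‖a‖ * ‖x‖) * (2 * (θ * ‖x‖) * (1 / 3)) := by
        rw [hθ]
        field_simp
      rw [e2]
      gcongr
    calc ENNReal.ofReal (2 * w / (3 * ((k : ℝ) + 1) * ‖a‖)) * volume P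
        ≤ (ENNReal.ofReal |inner ℝ v u| * (ENNReal.ofReal (2 * (θ * ‖x‖)) *
          ENNReal.ofReal ((1 - θ) ^ k))) * volume P := by gcongr
      _ = ENNReal.ofReal |inner ℝ v u| * (ENNReal.ofReal (2 * (θ * ‖x‖)) *
          (ENNReal.ofReal ((1 - θ) ^ k) * volume P)) := by ring
      _ ≤ _ := by gcongr
  unfold ratio
  have hk : k + 1 - 1 = k := by omega
  rw [hk, hsec, hprj]
  apply ENNReal.div_le_of_le_mul
  have hκ : 0 < 2 * w / (3 * ((k : ℝ) + 1) * ‖a‖) := by positivity
  have hκ0 : ENNReal.ofReal (2 * w / (3 * ((k : ℝ) + 1) * ‖a‖)) ≠ 0 := by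
    rw [Ne, ENNReal.ofReal_eq_zero, not_le]; exact hκ
  rw [← ENNReal.mul_le_mul_iff_right hκ0 ENNReal.ofReal_ne_top]
  refine (h5.trans h3).trans ?_
  rw [← mul_assoc, ← ENNReal.ofReal_mul hκ.le]
  refine mul_le_mul' (ENNReal.ofReal_le_ofReal ?_) le_rfl
  -- 4 b ≤ κ * (12 sqrt (k+1))
  rw [hb]
  push_cast
  have hsq : Real.sqrt ((k : ℝ) + 1) ≤ Real.sqrt (2 * w) := Real.sqrt_le_sqrt (by linarith)
  have hsk : 0 < Real.sqrt ((k : ℝ) + 1) := Real.sqrt_pos.2 hk1
  have hs2 : Real.sqrt ((k : ℝ) + 1) ^ 2 = (k : ℝ) + 1 := Real.sq_sqrt hk1.le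
  have hs3 : Real.sqrt (2 * w) ^ 2 = 2 * w := Real.sq_sqrt (by positivity)
  have e : 2 * w / (3 * ((k : ℝ) + 1) * ‖a‖) * (12 * Real.sqrt ((k : ℝ) + 1)) =
      4 * (2 * w / Real.sqrt ((k : ℝ) + 1)) / ‖a‖ := by
    have h9 : (k : ℝ) + 1 = Real.sqrt ((k : ℝ) + 1) * Real.sqrt ((k : ℝ) + 1) := by
      rw [← pow_two, hs2]
    have hne := hsk.ne'
    generalize hgen : Real.sqrt ((k : ℝ) + 1) = s at *
    rw [h9]
    field_simp
    ring
  rw [e, mul_div_assoc']
  gcongr
  rw [le_div_iff₀ hsk]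
  nlinarith [Real.sqrt_nonneg (2 * w)]

end Pool.Agent.Helper392.Mey
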