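import Pool.Agent.Helper392.Mey.Count
import Pool.Agent.Helper392.Mey.Upper

set_option autoImplicit false
open MeasureTheory Set Module Filter Topology
open scoped ENNReal Pointwise

namespace Pool.Agent.Helper392.Mey

theorem ball_body (n : ℕ) : IsBody (Metric.closedBall (0 : E n) 1) := by
  refine ⟨convex_closedBall _ _, isCompact_closedBall _ _, ?_, ?_⟩
  · refine ⟨0, ?_⟩
    apply Metric.ball_subset_interior_closedBall
    simp
  · intro x hx
    rw [mem_closedBall_zero_iff] at hx ⊢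
    rwa [norm_neg]

theorem one_le_M (n : ℕ) (hn : 1 ≤ n) : 1 ≤ M n := by
  obtain ⟨k, rfl⟩ : ∃ k, n = k + 1 := ⟨n - 1, by omega⟩
  unfold M
  refine le_iSup_of_le (Metric.closedBall 0 1) (le_iSup_of_le (ball_body (k + 1)) ?_)
  refine le_iInf fun u => le_iInf fun v => le_iInf fun hu => le_iInf fun hv => le_iInf fun huv => ?_
  obtain ⟨T, hT⟩ := exists_par u hu
  have huv' : inner ℝ v u ≠ 0 := by rwa [real_inner_comm]
  unfold ratio
  rw [show k + 1 - 1 = k from rfl, hT.sec, hT.prj v huv']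
  have hs : {y : E k | T y ∈ Metric.closedBall (0 : E (k + 1)) 1} = Metric.closedBall (0 : E k) 1 := by
    ext y
    simp
  have hsub : {y : E k | T y ∈ Metric.closedBall (0 : E (k + 1)) 1} ⊆
      {y : E k | ∃ t : ℝ, T y + t • v ∈ Metric.closedBall (0 : E (k + 1)) 1} := by
    intro y hy
    exact ⟨0, by simpa using hy⟩
  have h0 : volume {y : E k | T y ∈ Metric.closedBall (0 : E (k + 1)) 1} ≠ 0 := by
    rw [hs]
    exact (Metric.measure_closedBall_pos volume 0 one_pos).ne'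
  have h1 : volume {y : E k | T y ∈ Metric.closedBall (0 : E (k + 1)) 1} ≠ ⊤ := by
    rw [hs]
    exact (isCompact_closedBall (0 : E k) 1).measure_lt_top.ne
  rw [ENNReal.le_div_iff_mul_le (Or.inl h0) (Or.inl h1), one_mul]
  exact measure_mono hsub

theorem growth (hkashin : ∃ (N₀ : ℕ) (c : ℝ), 0 < N₀ ∧ 0 < c ∧ ∀ n : ℕ, 1 ≤ n →
    ∃ A : Fin (N₀ * n) → (EuclideanSpace ℝ (Fin n) →L[ℝ] ℝ), (∀ j, ‖A j‖ ≤ 1) ∧
      ∀ y : EuclideanSpace ℝ (Fin n), c * Real.sqrt n * ‖y‖ ≤ ∑ j, |A j y|) :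
    ∃ c C : ℝ, 0 < c ∧ 0 < C ∧ ∀ n : ℕ, 1 ≤ n →
      ENNReal.ofReal (c * Real.sqrt n) ≤ M n ∧ M n ≤ ENNReal.ofReal (C * Real.sqrt n) := by
  obtain ⟨c, hc, h⟩ := kashin_lower hkashin
  refine ⟨min c (1 / 4), 12, by positivity, by norm_num, ?_⟩
  intro n hn
  refine ⟨?_, M_le n hn⟩
  rcases le_or_gt 13 n with h13 | h13
  · obtain ⟨K, L, η, hL, hη, hG, hle⟩ := h n h13
    obtain ⟨k, rfl⟩ : ∃ k, n = k + 1 := ⟨n - 1, by omega⟩
    unfold M
    refine le_iSup_of_le K (le_iSup_of_le hG.body ?_)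
    refine le_iInf fun u => le_iInf fun v => le_iInf fun hu => le_iInf fun hv => le_iInf fun huv => ?_
    refine le_trans (ENNReal.ofReal_le_ofReal ?_) (hG.ratio_ge hL hη u v hu hv huv)
    refine le_trans ?_ hle
    have : min c (1 / 4) ≤ c := min_le_left _ _
    gcongr
  · refine le_trans ?_ (one_le_M n hn)
    rw [← ENNReal.ofReal_one]
    apply ENNReal.ofReal_le_ofReal
    have h1 : min c (1 / 4) ≤ 1 / 4 := min_le_right _ _
    have h2 : Real.sqrt n ≤ 4 := by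
      rw [show (4 : ℝ) = Real.sqrt 16 by rw [show (16 : ℝ) = 4 ^ 2 by norm_num]; exact (Real.sqrt_sq (by norm_num)).symm]
      apply Real.sqrt_le_sqrt
      have : n ≤ 16 := by omega
      exact_mod_cast this
    calc min c (1 / 4) * Real.sqrt n ≤ 1 / 4 * 4 := by gcongr
      _ = 1 := by norm_num

end Pool.Agent.Helper392.Mey
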