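import Pool.Agent.Helper392.Mey.Base
import Pool.Agent.Helper392.Mey.Defs

set_option autoImplicit false
open MeasureTheory Set Module
open scoped ENNReal

namespace Pool.Agent.Helper392.Mey

variable {k : ℕ} {u : E (k + 1)} {T : E k →ₗᵢ[ℝ] E (k + 1)}

theorem muHE_image (T : E k →ₗᵢ[ℝ] E (k + 1)) (A : Set (E k)) :
    μHE[k] (T '' A) = volume A := by
  rw [T.isometry.euclideanHausdorffMeasure_image, EuclideanSpace.euclideanHausdorffMeasure_eq_volume]

theorem Par.sec (h : Par u T) (K : Set (E (k + 1))) :
    μHE[k] (K ∩ {x | inner ℝ x u = 0}) = volume {y : E k | T y ∈ K} := by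
  rw [← muHE_image T]
  congr 1
  ext x
  constructor
  · rintro ⟨hx, hx0⟩
    obtain ⟨y, rfl⟩ := (h.mem x).1 hx0
    exact ⟨y, hx, rfl⟩
  · rintro ⟨y, hy, rfl⟩
    exact ⟨hy, h.inner_T y⟩

theorem Par.prj (h : Par u T) (v : E (k + 1)) (hv : inner ℝ v u ≠ 0) (K : Set (E (k + 1))) :
    μHE[k] (obl u v '' K) = volume {y : E k | ∃ t : ℝ, T y + t • v ∈ K} := by
  rw [← muHE_image T]
  congr 1
  ext x
  constructor
  · rintro ⟨z, hz, rfl⟩
    have h0 : inner ℝ (obl u v z) u = 0 := by
      unfold obl
      rw [inner_sub_left, real_inner_smul_left, div_mul_cancel₀ _ hv, sub_self]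
    obtain ⟨y, hy⟩ := (h.mem _).1 h0
    refine ⟨y, ⟨inner ℝ z u / inner ℝ v u, ?_⟩, hy⟩
    rw [hy]
    unfold obl
    simpa using hz
  · rintro ⟨y, ⟨t, ht⟩, rfl⟩
    refine ⟨_, ht, ?_⟩
    unfold obl
    rw [inner_add_left, h.inner_T, real_inner_smul_left, zero_add, mul_div_cancel_right₀ _ hv]
    simp

/-- Brunn–Minkowski in `E n` -/
theorem bm_E {n : ℕ} {A B C : Set (E n)} (hA : MeasurableSet A) (hB : MeasurableSet B)
    (hC : MeasurableSet C) (H : ∀ a ∈ A, ∀ b ∈ B, (1 / 2 : ℝ) • (a + b) ∈ C) :
    volume A * volume B ≤ volume C ^ 2 := by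
  have hmp := (EuclideanSpace.volume_preserving_symm_measurableEquiv_toLp (Fin n)).symm
  rw [← hmp.measure_preimage hA.nullMeasurableSet, ← hmp.measure_preimage hB.nullMeasurableSet,
    ← hmp.measure_preimage hC.nullMeasurableSet]
  refine PL.bm_pi (hmp.measurable hA) (hmp.measurable hB) (hmp.measurable hC) ?_
  intro a ha b hb
  have := H _ ha _ hb
  rw [mem_preimage]
  convert this using 1
  ext i
  simp
  ring

theorem meas_slice {K : Set (E (k + 1))} (hK : MeasurableSet K) (T : E k →ₗᵢ[ℝ] E (k + 1))
    (x : E (k + 1)) : MeasurableSet {y : E k | T y + x ∈ K} := by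
  have : Continuous (fun y : E k => T y + x) := T.continuous.add continuous_const
  exact this.measurable hK

/-- the central section is the largest -/
theorem brunn {K : Set (E (k + 1))} (hK : MeasurableSet K) (hc : Convex ℝ K)
    (hs : ∀ x ∈ K, -x ∈ K) (T : E k →ₗᵢ[ℝ] E (k + 1)) (x : E (k + 1)) :
    volume {y : E k | T y + x ∈ K} ≤ volume {y : E k | T y ∈ K} := by
  have h0 : MeasurableSet {y : E k | T y ∈ K} := by
    have := meas_slice hK T 0
    simpa using this
  have hneg : volume {y : E k | T y + -x ∈ K} = volume {y : E k | T y + x ∈ K} := by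
    rw [← Measure.measure_preimage_neg volume {y : E k | T y + x ∈ K}]
    congr 1
    ext y
    simp only [mem_preimage]
    constructor
    · intro hy
      have := hs _ hy
      change T (-y) + x ∈ K
      rw [map_neg]
      convert this using 1
      abel
    · intro hy
      have := hs _ hy
      change T y + -x ∈ K
      convert this using 1
      rw [map_neg]
      abel
  have hbm : volume {y : E k | T y + x ∈ K} * volume {y : E k | T y + -x ∈ K} ≤
      volume {y : E k | T y ∈ K} ^ 2 := by
    apply bm_E (meas_slice hK T x) (meas_slice hK T (-x)) h0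
    intro a ha b hb
    change T ((1 / 2 : ℝ) • (a + b)) ∈ K
    have h1 : T ((1 / 2 : ℝ) • (a + b)) = (1 / 2 : ℝ) • (T a + x) + (1 / 2 : ℝ) • (T b + -x) := by
      rw [map_smul, map_add]; module
    rw [h1]
    exact hc ha hb (by norm_num) (by norm_num) (by norm_num)
  rw [hneg, ← pow_two] at hbm
  by_contra hcon
  rw [not_le] at hcon
  have := ENNReal.pow_lt_pow_left two_ne_zero hcon
  exact absurd hbm (not_le.2 this)

theorem Par.slab (h : Par u T) {K : Set (E (k + 1))} (hK : MeasurableSet K) (hc : Convex ℝ K)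
    (hs : ∀ x ∈ K, -x ∈ K) (c b : ℝ) :
    volume (K ∩ {x | |inner ℝ x u - c| ≤ b}) ≤
      ENNReal.ofReal (2 * b) * volume {y : E k | T y ∈ K} := by
  have hm : MeasurableSet {x : E (k + 1) | |inner ℝ x u - c| ≤ b} := by
    have : Continuous fun x : E (k + 1) => |inner ℝ x u - c| := by fun_prop
    exact measurableSet_le this.measurable measurable_const
  rw [h.slice (hK.inter hm)]
  calc ∫⁻ t : ℝ, volume {y : E k | T y + t • u ∈ K ∩ {x | |inner ℝ x u - c| ≤ b}}
      ≤ ∫⁻ t : ℝ, (Icc (c - b) (c + b)).indicator (fun _ => volume {y : E k | T y ∈ K}) t := by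
        apply lintegral_mono
        intro t
        by_cases ht : t ∈ Icc (c - b) (c + b)
        · rw [indicator_of_mem ht]
          refine le_trans (measure_mono ?_) (brunn hK hc hs T (t • u))
          intro y hy
          exact hy.1
        · rw [indicator_of_notMem ht, nonpos_iff_eq_zero]
          convert measure_empty (μ := (volume : Measure (E k)))
          rw [eq_empty_iff_forall_notMem]
          intro y hy
          have h2 : |inner ℝ (T y + t • u) u - c| ≤ b := hy.2
          rw [inner_add_left, h.inner_T, real_inner_smul_left, real_inner_self_eq_norm_sq,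
            h.norm_u] at h2
          rw [abs_le] at h2
          apply ht
          constructor <;> linarith [h2.1, h2.2]
    _ = _ := by
        rw [lintegral_indicator measurableSet_Icc, lintegral_const, Measure.restrict_apply_univ,
          Real.volume_Icc, mul_comm]
        congr 2
        ring

end Pool.Agent.Helper392.Mey
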