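import Pool.Agent.Helper392.Mey.Func
import Pool.Agent.Helper392.Mey.JB

set_option autoImplicit false
open MeasureTheory Set Module Filter Topology
open scoped ENNReal Pointwise

namespace Pool.Agent.Helper392.Mey

variable {d N : ℕ}

theorem F_one_lower {κ : ℝ} {A : Fin N → (E d →L[ℝ] ℝ)} (hA : Adm κ A) :
    ENNReal.ofReal ((1 / 200 : ℝ) ^ N) ≤ S N κ d := by
  refine le_trans ?_ (F_le_S hA (fun _ => 1))
  unfold F
  have h1 := slab_volume_lower d N A hA.norm_le
  have h2 : ENNReal.ofReal ((1 / 48 : ℝ) ^ N) = ((48 : ℝ≥0∞)⁻¹) ^ N := by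
    rw [ENNReal.ofReal_pow (by norm_num), one_div, ENNReal.ofReal_inv_of_pos (by norm_num)]
    norm_num
  rw [← h2] at h1
  calc ENNReal.ofReal ((1 / 200 : ℝ) ^ N) ≤
      ENNReal.ofReal ((1 / 48 : ℝ) ^ N * Real.exp (-∑ _j : Fin N, (1 : ℝ))) := by
        apply ENNReal.ofReal_le_ofReal
        have e1 : Real.exp (-∑ _j : Fin N, (1 : ℝ)) = (Real.exp (-1)) ^ N := by
          rw [← Real.exp_nat_mul]; congr 1; simp
        rw [e1, ← mul_pow]
        apply pow_le_pow_left₀ (by norm_num)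
        have he : Real.exp 1 < 2.7182818286 := Real.exp_one_lt_d9
        have he0 := Real.exp_pos 1
        rw [Real.exp_neg, div_mul_eq_mul_div, one_mul, div_le_div_iff₀ (by norm_num) (by norm_num),
          one_mul]
        rw [← div_eq_inv_mul, le_div_iff₀ he0]
        linarith
    _ = ENNReal.ofReal ((1 / 48 : ℝ) ^ N) * ENNReal.ofReal (Real.exp (-∑ _j : Fin N, (1 : ℝ))) :=
        ENNReal.ofReal_mul (by positivity)
    _ ≤ _ := by
        gcongr
        exact h1

theorem exists_isom {d n : ℕ} (h : d ≤ n) : Nonempty (E d →ₗᵢ[ℝ] E n) := by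
  induction n, h using Nat.le_induction with
  | base => exact ⟨LinearIsometry.id⟩
  | succ n _ ih =>
    obtain ⟨T⟩ := ih
    obtain ⟨T', -⟩ := exists_par (k := n) (EuclideanSpace.single 0 1) (by simp)
    exact ⟨T'.comp T⟩

/-- near maximisers -/
theorem exists_near {κ : ℝ} (h0 : S N κ d ≠ 0) (h1 : S N κ d ≠ ⊤) :
    ∃ A : Fin N → (E d →L[ℝ] ℝ), Adm κ A ∧ ∃ a : Fin N → ℝ, S N κ d ≤ 2 * F A a := by
  have h2 : S N κ d / 2 < S N κ d := ENNReal.half_lt_self h0 h1
  conv_rhs at h2 => unfold S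
  rw [lt_iSup_iff] at h2
  obtain ⟨A, h2⟩ := h2
  rw [lt_iSup_iff] at h2
  obtain ⟨hA, h2⟩ := h2
  rw [lt_iSup_iff] at h2
  obtain ⟨a, h2⟩ := h2
  refine ⟨A, hA, a, ?_⟩
  have := h2.le
  rwa [ENNReal.div_le_iff_le_mul (Or.inl two_ne_zero) (Or.inl ENNReal.ofNat_ne_top), mul_comm] at this

theorem F_comp {k : ℕ} (A : Fin N → (E (k + 1) →L[ℝ] ℝ)) (a : Fin N → ℝ)
    (T : E k →ₗᵢ[ℝ] E (k + 1)) :
    F (fun j => (A j).comp T.toContinuousLinearMap) a =
      volume {y : E k | T y ∈ slabs A a} * ENNReal.ofReal (Real.exp (-∑ j, a j)) := rfl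

theorem slabs_body {κ : ℝ} (hκ : 0 < κ) {A : Fin N → (E d →L[ℝ] ℝ)} (hA : Adm κ A)
    (a : Fin N → ℝ) (hpos : volume (slabs A a) ≠ 0) : IsBody (slabs A a) := by
  refine ⟨slabs_convex A a, ?_, ?_, slabs_symm A a⟩
  · apply Metric.isCompact_of_isClosed_isBounded (slabs_closed A a)
    rw [isBounded_iff_forall_norm_le]
    exact ⟨_, fun y hy => hA.norm_le_of_mem hκ hy⟩
  · by_contra hne
    rw [not_nonempty_iff_eq_empty] at hne
    apply hpos
    have h1 := (slabs_convex A a).addHaar_frontier (μ := (volume : Measure (E d)))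
    refine measure_mono_null ?_ h1
    rw [frontier, hne, diff_empty]
    exact subset_closure

theorem exists_good {k : ℕ} {κ l : ℝ} (hκ : 0 < κ) (hl : 0 < l)
    (h0 : S N κ (k + 1) ≠ 0) (h1 : S N κ (k + 1) ≠ ⊤)
    (h : S N κ k ≤ ENNReal.ofReal l * S N κ (k + 1)) :
    ∃ K : Set (E (k + 1)), Good K (2 * l) (4 / κ) := by
  obtain ⟨A, hA, a, ha⟩ := exists_near h0 h1
  set V := volume (slabs A a) with hV
  set e := ENNReal.ofReal (Real.exp (-∑ j, a j)) with he
  have he0 : e ≠ 0 := by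
    rw [he]; simp [Real.exp_pos]
  have het : e ≠ ⊤ := ENNReal.ofReal_ne_top
  have hF : F A a = V * e := rfl
  have hV0 : V ≠ 0 := by
    intro hV0
    rw [hF, hV0, zero_mul, mul_zero] at ha
    exact h0 (le_antisymm ha bot_le)
  refine ⟨slabs A a, slabs_body hκ hA a hV0, ?_, ?_⟩
  · intro u hu c b hb
    obtain ⟨T, hT⟩ := exists_par u hu
    have hm : MeasurableSet (slabs A a) := (slabs_closed A a).measurableSet
    refine (hT.slab hm (slabs_convex A a) (slabs_symm A a) c b).trans ?_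
    have h2 : F (fun j => (A j).comp T.toContinuousLinearMap) a ≤ S N κ k := F_le_S (hA.comp T) a
    rw [F_comp] at h2
    set s := volume {y : E k | T y ∈ slabs A a}
    have h3 : s * e ≤ (ENNReal.ofReal l * (2 * V)) * e := by
      calc s * e ≤ S N κ k := h2
        _ ≤ ENNReal.ofReal l * S N κ (k + 1) := h
        _ ≤ ENNReal.ofReal l * (2 * (V * e)) := by gcongr; exact ha
        _ = _ := by ring
    have h4 : s ≤ ENNReal.ofReal l * (2 * V) := (ENNReal.mul_le_mul_iff_left he0 het).1 h3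
    calc ENNReal.ofReal (2 * b) * s ≤ ENNReal.ofReal (2 * b) * (ENNReal.ofReal l * (2 * V)) := by
          gcongr
      _ = ENNReal.ofReal (2 * b * (2 * l)) * V := by
          have : (2 : ℝ≥0∞) = ENNReal.ofReal 2 := by simp
          rw [this, ENNReal.ofReal_mul (by positivity : (0 : ℝ) ≤ 2 * b),
            ENNReal.ofReal_mul (by norm_num : (0 : ℝ) ≤ 2) (q := l)]
          ring
  · intro v hv
    set h' : Fin N → ℝ := fun j => |A j v| / 2 with hh
    set a' : Fin N → ℝ := fun j => a j - h' j with ha'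
    have hsub : slabs A a ∩ {x | x - v ∈ slabs A a} ⊆
        (fun x => x + (-(1 / 2 : ℝ) • v)) ⁻¹' slabs A a' := by
      rintro x ⟨hx1, hx2⟩ j
      have b1 := hx1 j
      have b2 : |A j (x - v)| ≤ a j := hx2 j
      change |A j (x + (-(1 / 2 : ℝ) • v))| ≤ a j - |A j v| / 2
      rw [map_sub] at b2
      rw [map_add, map_smul, smul_eq_mul]
      rw [abs_le] at b1 b2
      have b3 : |A j x + -(1 / 2) * A j v| ≤ a j - |A j v| / 2 := by
        rcases abs_cases (A j v) with ⟨h5, -⟩ | ⟨h5, -⟩ <;> rw [h5, abs_le] <;> constructor <;>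
          linarith [b1.1, b1.2, b2.1, b2.2]
      exact b3
    have hvol : volume (slabs A a ∩ {x | x - v ∈ slabs A a}) ≤ volume (slabs A a') := by
      refine (measure_mono hsub).trans ?_
      rw [measure_preimage_add_right]
    have h2 : F A a' ≤ 2 * (V * e) := (F_le_S hA a').trans ha
    have hsum : ∑ j, a' j = ∑ j, a j - ∑ j, h' j := by
      rw [ha', Finset.sum_sub_distrib]
    have hh2 : 2 ≤ ∑ j, h' j := by
      have h3 := hA.l1 v
      have h4 : ∑ j, h' j = (∑ j, |A j v|) / 2 := by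
        rw [hh, Finset.sum_div]
      rw [h4]
      have h5 : 4 ≤ κ * ‖v‖ := by
        rw [div_le_iff₀ hκ] at hv
        linarith
      linarith
    have hF' : F A a' = volume (slabs A a') * ENNReal.ofReal (Real.exp (∑ j, h' j)) * e := by
      unfold F
      rw [mul_assoc, he, ← ENNReal.ofReal_mul (Real.exp_pos _).le, ← Real.exp_add, hsum]
      congr 3
      ring
    rw [hF', ← mul_assoc] at h2
    have h3 : volume (slabs A a') * ENNReal.ofReal (Real.exp (∑ j, h' j)) ≤ 2 * V :=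
      (ENNReal.mul_le_mul_iff_left he0 het).1 h2
    have h4 : (4 : ℝ≥0∞) ≤ ENNReal.ofReal (Real.exp (∑ j, h' j)) := by
      have : (4 : ℝ≥0∞) = ENNReal.ofReal 4 := by simp
      rw [this]
      apply ENNReal.ofReal_le_ofReal
      have h6 : Real.exp 2 ≤ Real.exp (∑ j, h' j) := Real.exp_le_exp.2 hh2
      have h7 : Real.exp 1 > 2.7182818283 := Real.exp_one_gt_d9
      have h8 : Real.exp 2 = Real.exp 1 * Real.exp 1 := by rw [← Real.exp_add]; norm_num
      nlinarith
    have h5 : volume (slabs A a') * 4 ≤ 2 * V := le_trans (by gcongr) h3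
    have h6 : 2 * (2 * volume (slabs A a')) ≤ 2 * V := by
      calc 2 * (2 * volume (slabs A a')) = volume (slabs A a') * 4 := by ring
        _ ≤ _ := h5
    have h7 : 2 * volume (slabs A a') ≤ V :=
      (ENNReal.mul_le_mul_iff_right two_ne_zero ENNReal.ofNat_ne_top).1 h6
    calc 2 * volume (slabs A a ∩ {x | x - v ∈ slabs A a}) ≤ 2 * volume (slabs A a') := by gcongr
      _ ≤ V := h7

end Pool.Agent.Helper392.Mey
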